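import Pool.Agent.MP_d4f4ab_ag.Defs

/-! [WH-A1] the kernel of a monomial map is generated by binomials. -/

open Set

namespace Pool.Agent.MP_d4f4ab_ag

/-- The kernel of `X s ↦ x^(w s)` is contained in every ideal that contains all differences of
monomials with the same image.

Proof. Let `W u = u.sum fun s n => n • w s` and `φ` the map; `φ (monomial u a) = monomial (W u) a`. For `f ∈ ker φ`
write `f = ∑_{u ∈ supp f} monomial u (f u)`. For each value `y` of `W` on the support of `f`, the coefficient of
`φ f` at `y` is `∑_{W u = y} f u = 0`; with a fixed `u₀` with `W u₀ = y` (choose, e.g. by a section `g` of `W` on the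
image), `∑_{W u = y} monomial u (f u) = ∑_{W u = y} C (f u) * (monomial u 1 - monomial u₀ 1) ∈ I`. -/
theorem ker_le {σ τ : Type*} (K : Type*) [Field K] (w : σ → τ →₀ ℕ)
    (I : Ideal (MvPolynomial σ K))
    (hI : ∀ u v : σ →₀ ℕ, (u.sum fun s n => n • w s) = (v.sum fun s n => n • w s) →
      MvPolynomial.monomial u (1 : K) - MvPolynomial.monomial v 1 ∈ I) :
    RingHom.ker (MvPolynomial.aeval (fun s => MvPolynomial.monomial (w s) (1 : K)) :
      MvPolynomial σ K →ₐ[K] MvPolynomial τ K) ≤ I := by
  classical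
  set φ := (MvPolynomial.aeval (fun s => MvPolynomial.monomial (w s) (1 : K)) :
      MvPolynomial σ K →ₐ[K] MvPolynomial τ K) with hφ
  let W : (σ →₀ ℕ) → (τ →₀ ℕ) := fun u => u.sum fun s n => n • w s
  have hmon : ∀ u : σ →₀ ℕ, φ (MvPolynomial.monomial u 1) = MvPolynomial.monomial (W u) 1 := by
    intro u
    rw [hφ, MvPolynomial.aeval_monomial, map_one, one_mul]
    show _ = MvPolynomial.monomial (u.sum fun s n => n • w s) 1
    rw [MvPolynomial.monomial_finsupp_sum_index, MvPolynomial.C_1, one_mul]
    refine Finsupp.prod_congr fun s _ => ?_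
    rw [MvPolynomial.monomial_pow, one_pow]
  let G : (τ →₀ ℕ) → MvPolynomial σ K := fun y =>
    if h : ∃ u, W u = y then MvPolynomial.monomial h.choose 1 else 0
  let L : MvPolynomial τ K →ₗ[K] (MvPolynomial σ K ⧸ I) :=
    (MvPolynomial.basisMonomials τ K).constr K fun y => Ideal.Quotient.mk I (G y)
  have key : L ∘ₗ φ.toLinearMap = (Ideal.Quotient.mkₐ K I).toLinearMap := by
    refine (MvPolynomial.basisMonomials σ K).ext fun u => ?_
    have h1 : (MvPolynomial.basisMonomials σ K) u = MvPolynomial.monomial u 1 := by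
      rw [MvPolynomial.coe_basisMonomials]
    have h2 : L (MvPolynomial.monomial (W u) 1) = Ideal.Quotient.mk I (G (W u)) := by
      have h3 := (MvPolynomial.basisMonomials τ K).constr_basis K
        (fun y => Ideal.Quotient.mk I (G y)) (W u)
      rw [MvPolynomial.coe_basisMonomials] at h3
      exact h3
    have h4 : ∃ v, W v = W u := ⟨u, rfl⟩
    have h5 : G (W u) = MvPolynomial.monomial h4.choose 1 := dif_pos h4
    rw [h1, LinearMap.comp_apply, AlgHom.toLinearMap_apply, hmon, h2, h5,
      AlgHom.toLinearMap_apply, Ideal.Quotient.mkₐ_eq_mk]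
    exact Ideal.Quotient.eq.2 (hI _ _ h4.choose_spec)
  intro f hf
  have h1 := LinearMap.congr_fun key f
  rw [LinearMap.comp_apply, AlgHom.toLinearMap_apply, AlgHom.toLinearMap_apply,
    Ideal.Quotient.mkₐ_eq_mk, (RingHom.mem_ker).1 hf, map_zero] at h1
  exact Ideal.Quotient.eq_zero_iff_mem.1 h1.symm

end Pool.Agent.MP_d4f4ab_ag
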