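import Pool.Agent.MP_d4f4ab_ag.Defs
import Pool.Agent.MP_d4f4ab_ag.A1

/-! [WH-A2] the toric ideal of a matroid is generated by the binomials of pairs of families of bases with
the same sum. -/

open Set MvPolynomial

namespace Pool.Agent.MP_d4f4ab_ag

variable {α : Type*} {M : Matroid α}

namespace A2_aux

/-- the exponent of a finite set -/
noncomputable def wB (B : BaseOf M) : α →₀ ℕ := ∑ e ∈ B.1, Finsupp.single e 1

theorem wB_apply (B : BaseOf M) (e : α) [Decidable (e ∈ B.1)] :
    wB B e = if e ∈ B.1 then 1 else 0 := by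
  classical
  rw [wB, Finsupp.finsetSum_apply]
  simp only [Finsupp.single_apply]
  rw [Finset.sum_ite_eq']
  congr

theorem wB_degree (B : BaseOf M) : (wB B).degree = B.1.card := by
  rw [wB, map_sum]
  simp

theorem toricMap_X (K : Type*) [Field K] (B : BaseOf M) :
    toricMap K M (X B) = monomial (wB B) (1 : K) := by
  rw [toricMap, aeval_X, wB, monomial_sum_one]
  rfl

theorem toricMap_eq (K : Type*) [Field K] : toricMap K M =
    (aeval (fun B : BaseOf M => monomial (wB B) (1 : K)) :
      MvPolynomial (BaseOf M) K →ₐ[K] MvPolynomial α K) := by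
  ext B
  rw [toricMap_X, aeval_X]

theorem exists_family {σ : Type*} (u : σ →₀ ℕ) :
    ∃ (d : ℕ) (P : Fin d → σ), ∑ i, Finsupp.single (P i) 1 = u := by
  induction u using Finsupp.induction_linear with
  | zero => exact ⟨0, Fin.elim0, by simp⟩
  | add f g hf hg =>
    obtain ⟨d, P, rfl⟩ := hf
    obtain ⟨d', Q, rfl⟩ := hg
    refine ⟨d + d', Fin.append P Q, ?_⟩
    rw [Fin.sum_univ_add]
    simp
  | single a n =>
    refine ⟨n, fun _ => a, ?_⟩
    rw [Finset.sum_const, Finset.card_univ, Fintype.card_fin, Finsupp.smul_single_one]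

theorem sum_wB_apply {ι : Type*} [Fintype ι] (P : ι → BaseOf M) (e : α) :
    (∑ i, wB (P i)) e = Nat.card {i // e ∈ (P i).1} := by
  classical
  rw [Finsupp.finsetSum_apply, Nat.card_eq_fintype_card, Fintype.card_subtype,
    Finset.card_filter]
  exact Finset.sum_congr rfl fun i _ => wB_apply _ _

theorem sum_wB_eq {ι : Type*} [Fintype ι] (P Q : ι → BaseOf M)
    (h : ∀ e : α, Nat.card {i // e ∈ (P i).1} = Nat.card {i // e ∈ (Q i).1}) :
    ∑ i, wB (P i) = ∑ i, wB (Q i) := by
  ext e
  rw [sum_wB_apply, sum_wB_apply, h]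

theorem W_family {d : ℕ} (P : Fin d → BaseOf M) :
    ((∑ i, Finsupp.single (P i) 1 : BaseOf M →₀ ℕ).sum fun s n => n • wB s) = ∑ i, wB (P i) := by
  have h : (∑ i, Finsupp.single (P i) 1 : BaseOf M →₀ ℕ).sum (fun s n => n • wB s) =
      Finsupp.linearCombination ℕ wB (∑ i, Finsupp.single (P i) 1) :=
    (Finsupp.linearCombination_apply _ _).symm
  rw [h, map_sum]
  simp

theorem prod_X_family (K : Type*) [Field K] {d : ℕ} (P : Fin d → BaseOf M) :
    monomial (∑ i, Finsupp.single (P i) 1 : BaseOf M →₀ ℕ) (1 : K) = ∏ i, X (P i) := by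
  rw [monomial_sum_one]
  rfl

theorem card_base_eq (B B' : BaseOf M) : B.1.card = B'.1.card := by
  have h := B.2.encard_eq_encard_of_isBase B'.2
  rw [Set.encard_coe_eq_coe_finsetCard, Set.encard_coe_eq_coe_finsetCard] at h
  exact_mod_cast h

theorem d_eq [M.RankPos] {d d' : ℕ} (P : Fin d → BaseOf M) (Q : Fin d' → BaseOf M)
    (h : ∑ i, wB (P i) = ∑ i, wB (Q i)) : d = d' := by
  rcases isEmpty_or_nonempty (BaseOf M) with hE | ⟨⟨B⟩⟩
  · have h1 : d = 0 := by
      rcases Nat.eq_zero_or_pos d with h | h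
      · exact h
      · exact (hE.false (P ⟨0, h⟩)).elim
    have h2 : d' = 0 := by
      rcases Nat.eq_zero_or_pos d' with h | h
      · exact h
      · exact (hE.false (Q ⟨0, h⟩)).elim
    rw [h1, h2]
  · have hr : 0 < B.1.card := by
      rw [Finset.card_pos]
      exact_mod_cast B.2.nonempty
    have h1 : ∀ (d : ℕ) (P : Fin d → BaseOf M), (∑ i, wB (P i)).degree = d * B.1.card := by
      intro d P
      rw [map_sum]
      simp only [wB_degree]
      rw [Finset.sum_congr rfl fun i _ => card_base_eq (P i) B, Finset.sum_const,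
        Finset.card_univ, Fintype.card_fin, smul_eq_mul]
    have h2 := congrArg Finsupp.degree h
    rw [h1, h1] at h2
    exact Nat.eq_of_mul_eq_mul_right hr h2

end A2_aux

open A2_aux

/-- Proof. `ker_le` with `w B = ∑ e ∈ B, single e 1` (`∏ e ∈ B, X e = monomial (w B) 1`). Given `u`, `v` with the same
sum: all bases have the same number `r ≥ 1` of elements (`RankPos`), so comparing total degrees
(`r * |u| = r * |v|`) we get `|u| = |v| =: d`. Write `monomial u 1 = ∏ i : Fin d, X (P i)` for a family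
`P : Fin d → BaseOf M` with `#{i | P i = B} = u B` (e.g. from the list of the multiset `u.toMultiset`), same for `v` and
`Q`. The number of `i` with `e ∈ P i` is the coefficient at `e` of the sum, so `SameSum P Q`. -/
theorem toricIdeal_le [M.RankPos] (K : Type*) [Field K] (I : Ideal (MvPolynomial (BaseOf M) K))
    (h : ∀ (d : ℕ) (P Q : Fin d → BaseOf M), SameSum P Q →
      (∏ i, X (P i)) - ∏ i, X (Q i) ∈ I) :
    toricIdeal K M ≤ I := by
  unfold toricIdeal
  rw [toricMap_eq]
  refine ker_le K wB I fun u v huv => ?_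
  obtain ⟨d, P, rfl⟩ := exists_family u
  obtain ⟨d', Q, rfl⟩ := exists_family v
  rw [W_family, W_family] at huv
  obtain rfl := d_eq P Q huv
  rw [prod_X_family, prod_X_family]
  refine h d P Q fun e => ?_
  rw [← sum_wB_apply, ← sum_wB_apply, huv]

/-- The converse: such binomials are in the toric ideal. -/
theorem binomial_mem (K : Type*) [Field K] {ι : Type*} [Fintype ι] (P Q : ι → BaseOf M)
    (h : ∀ e : α, Nat.card {i // e ∈ (P i).1} = Nat.card {i // e ∈ (Q i).1}) :
    (∏ i, X (P i)) - ∏ i, X (Q i) ∈ toricIdeal K M := by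
  rw [toricIdeal, RingHom.mem_ker, map_sub, map_prod, map_prod, sub_eq_zero]
  have h1 : ∀ P : ι → BaseOf M, ∏ i, toricMap K M (X (P i)) =
      monomial (∑ i, wB (P i)) (1 : K) := by
    intro P
    rw [monomial_sum_one]
    exact Finset.prod_congr rfl fun i _ => toricMap_X K (P i)
  exact (h1 P).trans ((congrArg (fun u => monomial u (1 : K)) (sum_wB_eq P Q h)).trans (h1 Q).symm)

namespace A2_aux

theorem card_T {d : ℕ} {P Q : Fin d → BaseOf M} (hS : SameSum P Q) {T : Finset (Fin d)}
    (hT : ∀ i ∉ T, P i = Q i) (e : α) [DecidableEq α] :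
    (T.filter fun i => e ∈ (P i).1).card = (T.filter fun i => e ∈ (Q i).1).card := by
  classical
  have h1 : ∀ P : Fin d → BaseOf M, Nat.card {i // e ∈ (P i).1} =
      (T.filter fun i => e ∈ (P i).1).card + (Tᶜ.filter fun i => e ∈ (P i).1).card := by
    intro P
    rw [Nat.card_eq_fintype_card, Fintype.card_subtype, ← Finset.card_union_of_disjoint,
      ← Finset.filter_union, Finset.union_compl]
    exact Finset.disjoint_filter_filter disjoint_compl_right
  have h2 : (Tᶜ.filter fun i => e ∈ (P i).1) = (Tᶜ.filter fun i => e ∈ (Q i).1) := by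
    refine Finset.filter_congr fun i hi => ?_
    rw [hT i (Finset.mem_compl.1 hi)]
  have h3 := hS e
  rw [h1 P, h1 Q, h2] at h3
  omega

theorem step_eq (K : Type*) [Field K] {d : ℕ} {P Q : Fin d → BaseOf M} {T : Finset (Fin d)}
    (hT : ∀ i ∉ T, P i = Q i) :
    (∏ i, X (P i) : MvPolynomial (BaseOf M) K) - ∏ i, X (Q i) =
      (∏ i ∈ Tᶜ, X (P i)) * ((∏ i ∈ T, X (P i)) - ∏ i ∈ T, X (Q i)) := by
  classical
  rw [← Finset.prod_compl_mul_prod T (fun i => (X (P i) : MvPolynomial (BaseOf M) K)),
    ← Finset.prod_compl_mul_prod T (fun i => (X (Q i) : MvPolynomial (BaseOf M) K)), mul_sub]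
  congr 2
  exact Finset.prod_congr rfl fun i hi => by rw [hT i (Finset.mem_compl.1 hi)]

theorem step_mem (K : Type*) [Field K] {d : ℕ} {P Q : Fin d → BaseOf M} (hS : SameSum P Q)
    {T : Finset (Fin d)} (hT : ∀ i ∉ T, P i = Q i) :
    (∏ i ∈ T, X (P i) : MvPolynomial (BaseOf M) K) - ∏ i ∈ T, X (Q i) ∈ toricIdeal K M := by
  classical
  rw [← Finset.prod_coe_sort T (fun i => (X (P i) : MvPolynomial (BaseOf M) K)),
    ← Finset.prod_coe_sort T (fun i => (X (Q i) : MvPolynomial (BaseOf M) K))]
  refine binomial_mem K (fun i : T => P i) (fun i : T => Q i) fun e => ?_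
  have h1 : ∀ P : Fin d → BaseOf M, Nat.card {i : T // e ∈ (P i).1} =
      (T.filter fun i => e ∈ (P i).1).card := by
    intro P
    rw [Nat.card_eq_fintype_card, Fintype.card_subtype, ← Finset.card_map (Function.Embedding.subtype _)]
    congr 1
    ext i
    simp [and_comm]
  rw [h1, h1]
  exact card_T hS hT e

theorem homog (K : Type*) [Field K] {d : ℕ} (P Q : Fin d → BaseOf M) (T : Finset (Fin d)) :
    ((∏ i ∈ T, X (P i) : MvPolynomial (BaseOf M) K) - ∏ i ∈ T, X (Q i)).IsHomogeneous T.card := by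
  have h1 : ∀ P : Fin d → BaseOf M,
      (∏ i ∈ T, X (P i) : MvPolynomial (BaseOf M) K).IsHomogeneous T.card := by
    intro P
    have := MvPolynomial.IsHomogeneous.prod T (fun i => (X (P i) : MvPolynomial (BaseOf M) K))
      (fun _ => 1) fun i _ => isHomogeneous_X K (P i)
    rwa [Finset.sum_const, smul_eq_mul, mul_one] at this
  exact (h1 P).sub (h1 Q)

end A2_aux

/-- Proof. Induction on the chain (`Relation.ReflTransGen`): for one step with set `T` (`#T ≤ t`), factor out
`∏ i ∉ T`: the difference is `(∏ i ∉ T, X (P i)) * (∏ i ∈ T, X (P i) - ∏ i ∈ T, X (Q i))` and the last factor is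
homogeneous of degree `#T` and in the toric ideal (`binomial_mem` for `ι = T`, after cancelling in `SameSum`). -/
theorem prod_sub_prod_mem (K : Type*) [Field K] {t d : ℕ} {P Q : Fin d → BaseOf M}
    (h : FConn t P Q) :
    (∏ i, X (P i)) - ∏ i, X (Q i) ∈
      Ideal.span {f : MvPolynomial (BaseOf M) K | f ∈ toricIdeal K M ∧ ∃ n ≤ t, f.IsHomogeneous n} := by
  induction h with
  | refl => rw [sub_self]; exact zero_mem _
  | @tail Q Q' _ hQ ih =>
    obtain ⟨hS, T, hTt, hT⟩ := hQ
    rw [← sub_add_sub_cancel (∏ i, X (P i)) (∏ i, X (Q i)) (∏ i, X (Q' i))]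
    refine add_mem ih ?_
    rw [step_eq K hT]
    refine Ideal.mul_mem_left _ _ (Ideal.subset_span ⟨step_mem K hS hT, T.card, hTt, homog K Q Q' T⟩)

/-- As before with `t = 2`; if `#T ≤ 1` in a step then `P = Q` (for `T = {i}` compare the elements of `P i` and
`Q i` using `SameSum`), so the difference is `0`. -/
theorem prod_sub_prod_mem_two (K : Type*) [Field K] {d : ℕ} {P Q : Fin d → BaseOf M}
    (h : FConn 2 P Q) :
    (∏ i, X (P i)) - ∏ i, X (Q i) ∈
      Ideal.span {f : MvPolynomial (BaseOf M) K | f ∈ toricIdeal K M ∧ f.IsHomogeneous 2} := by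
  classical
  induction h with
  | refl => rw [sub_self]; exact zero_mem _
  | @tail Q Q' _ hQ ih =>
    obtain ⟨hS, T, hTt, hT⟩ := hQ
    rw [← sub_add_sub_cancel (∏ i, X (P i)) (∏ i, X (Q i)) (∏ i, X (Q' i))]
    refine add_mem ih ?_
    rcases Nat.lt_or_ge T.card 2 with hlt | hge
    · have hQQ : Q = Q' := by
        funext i
        by_cases hi : i ∈ T
        · have hTi : T = {i} := by
            refine (Finset.eq_singleton_iff_unique_mem).2 ⟨hi, fun j hj => ?_⟩
            exact Finset.card_le_one.1 (by omega) j hj i hi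
          apply Subtype.ext
          ext e
          have h1 := card_T hS hT e
          rw [hTi, Finset.filter_singleton, Finset.filter_singleton] at h1
          split_ifs at h1 with h2 h3 h3
          · simp [h2, h3]
          · simp at h1
          · simp at h1
          · simp [h2, h3]
        · exact hT i hi
      rw [hQQ, sub_self]
      exact zero_mem _
    · have hc : T.card = 2 := le_antisymm hTt hge
      rw [step_eq K hT]
      refine Ideal.mul_mem_left _ _ (Ideal.subset_span ⟨step_mem K hS hT, ?_⟩)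
      have := homog K Q Q' T
      rwa [hc] at this

end Pool.Agent.MP_d4f4ab_ag
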