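import Pool.Agent.MP_d4f4ab_ag.Defs

/-! [WH-A4] from families of bases to colourings, and duality. -/

open Set

universe u

namespace Pool.Agent.MP_d4f4ab_ag

namespace A4_aux

section

variable {α : Type u} {M : Matroid α} {d : ℕ}

/-- the disjoint union of the bases -/
abbrev EE (P : Fin d → BaseOf M) : Type u := (i : Fin d) × {e : α // e ∈ (P i).1}

/-- the projection -/
def pr (P : Fin d → BaseOf M) (x : EE P) : α := x.2.1

theorem preimage_ground (P : Fin d → BaseOf M) : pr P ⁻¹' M.E = univ := by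
  rw [eq_univ_iff_forall]
  intro x
  exact (P x.1).2.subset_ground (Finset.mem_coe.2 x.2.2)

theorem comap_isBase (P : Fin d → BaseOf M) (i₀ : Fin d) (B : Set (EE P)) :
    (M.comap (pr P)).IsBase B ↔ M.IsBase (pr P '' B) ∧ InjOn (pr P) B := by
  rw [Matroid.comap_isBase_iff, preimage_ground, image_univ]
  have h1 : ((P i₀).1 : Set α) ⊆ range (pr P) := fun e he => ⟨⟨i₀, ⟨e, he⟩⟩, rfl⟩
  have h2 : range (pr P) ⊆ M.E := by
    rintro _ ⟨x, rfl⟩
    have : x ∈ pr P ⁻¹' M.E := by rw [preimage_ground]; trivial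
    exact this
  have h3 : M.Spanning (range (pr P)) := (P i₀).2.spanning_of_superset h1 h2
  constructor
  · rintro ⟨h4, h5, -⟩
    exact ⟨h4.isBase_of_spanning h3, h5⟩
  · rintro ⟨h4, h5⟩
    exact ⟨h4.isBasis_of_subset h2 (image_subset_range _ _), h5, subset_univ _⟩

open Classical in
/-- the family of a colouring -/
noncomputable def fam (P : Fin d → BaseOf M) (i₀ : Fin d) (p : EE P → Fin d)
    (hp : Valid (M.comap (pr P)) p) : Fin d → BaseOf M := fun i =>
  ⟨(Finset.univ.filter fun x => p x = i).image (pr P), by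
    have h1 := ((comap_isBase P i₀ _).1 (hp i)).1
    convert h1 using 1
    rw [Finset.coe_image]
    congr 1
    ext x
    simp [cls]⟩

theorem coe_fam (P : Fin d → BaseOf M) (i₀ : Fin d) (p : EE P → Fin d)
    (hp : Valid (M.comap (pr P)) p) (i : Fin d) :
    ((fam P i₀ p hp i).1 : Set α) = pr P '' cls p i := by
  classical
  show (((Finset.univ.filter fun x => p x = i).image (pr P) : Finset α) : Set α) = _
  rw [Finset.coe_image]
  congr 1
  ext x
  simp [cls]

theorem mem_fam (P : Fin d → BaseOf M) (i₀ : Fin d) (p : EE P → Fin d)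
    (hp : Valid (M.comap (pr P)) p) (i : Fin d) (e : α) :
    e ∈ (fam P i₀ p hp i).1 ↔ ∃ x, p x = i ∧ pr P x = e := by
  rw [← Finset.mem_coe, coe_fam]
  exact Iff.rfl

theorem card_fam (P : Fin d → BaseOf M) (i₀ : Fin d) (p : EE P → Fin d)
    (hp : Valid (M.comap (pr P)) p) (e : α) :
    Nat.card {i // e ∈ (fam P i₀ p hp i).1} = Nat.card {x : EE P // pr P x = e} := by
  symm
  refine Nat.card_congr (Equiv.ofBijective
    (fun x => ⟨p x.1, (mem_fam P i₀ p hp _ _).2 ⟨x.1, rfl, x.2⟩⟩) ⟨?_, ?_⟩)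
  · intro x x' h
    have h1 : p x.1 = p x'.1 := congrArg Subtype.val h
    have h2 := ((comap_isBase P i₀ _).1 (hp (p x.1))).2
    exact Subtype.ext (h2 rfl h1.symm (x.2.trans x'.2.symm))
  · rintro ⟨i, hi⟩
    obtain ⟨x, h1, h2⟩ := (mem_fam P i₀ p hp _ _).1 hi
    exact ⟨⟨x, h2⟩, Subtype.ext h1⟩

theorem fam_congr (P : Fin d → BaseOf M) (i₀ : Fin d) (p p' : EE P → Fin d)
    (hp : Valid (M.comap (pr P)) p) (hp' : Valid (M.comap (pr P)) p') (i : Fin d)
    (h : cls p i = cls p' i) : fam P i₀ p hp i = fam P i₀ p' hp' i := by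
  apply Subtype.ext
  apply Finset.coe_injective
  rw [coe_fam, coe_fam, h]

end

theorem card_compl {α : Type u} [DecidableEq α] (E : Finset α) {d : ℕ} (P : Fin d → Finset α)
    (e : α) : Nat.card {i // e ∈ E \ P i} = if e ∈ E then d - Nat.card {i // e ∈ P i} else 0 := by
  classical
  split_ifs with he
  · have h1 : Nat.card {i // e ∈ E \ P i} = (Finset.univ.filter fun i => ¬ e ∈ P i).card := by
      rw [Nat.card_eq_fintype_card, Fintype.card_subtype]
      congr 1
      ext i
      simp [he]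
    have h2 : Nat.card {i // e ∈ P i} = (Finset.univ.filter fun i => e ∈ P i).card := by
      rw [Nat.card_eq_fintype_card, Fintype.card_subtype]
    have h3 := Finset.card_filter_add_card_filter_not (s := (Finset.univ : Finset (Fin d)))
      (fun i => e ∈ P i)
    rw [Finset.card_univ, Fintype.card_fin] at h3
    rw [h1, h2]
    omega
  · have : IsEmpty {i // e ∈ E \ P i} := ⟨fun i => he (Finset.mem_sdiff.1 i.2).1⟩
    exact Nat.card_of_isEmpty

end A4_aux

open A4_aux

/-- Proof. Let `E = {x : α × Fin d // x.1 ∈ (P x.2).1}`, `π : E → α` the first projection and `N = M.comap π`.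
`N.E = univ`. If `d = 0` then `P = Q`. Otherwise the image of `π` contains a base of `M`, and `B` is a base of `N` iff
`π` is injective on `B` and `π '' B` is a base of `M` (`Matroid.comap_isBase_iff`). So for a valid colouring
`p : E → Fin d` there is a family `F p : Fin d → BaseOf M`, `F p i = π '' (cls p i)` (as a finset). For `p₀ x = x.2`:
`F p₀ = P`. As `SameSum P Q`, for each `e` choose a bijection `β e` from `{i // e ∈ P i}` to `{i // e ∈ Q i}`; for
`q₀ (e, i) = β e i` we get `F q₀ = Q`. For every valid `p`, the number of `i` with `e ∈ F p i` is the number of `x ∈ E`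
with `π x = e` (`π` is injective on each class), so any two `F p`, `F p'` have the same sum, and a `Move` from `p` to
`p'` gives an `FMove` from `F p` to `F p'`. Now map the chain from `p₀` to `q₀` given by `core`. -/
theorem fconn_of_core {α : Type u} (M : Matroid α) {t r : ℕ}
    (hr : ∀ B, M.IsBase B → B.ncard ≤ r) (hfin : ∀ B, M.IsBase B → B.Finite)
    (core : ∀ (E : Type u) [Fintype E] (N : Matroid E) (d : ℕ), N.E = univ →
      (∀ B, N.IsBase B → B.ncard ≤ r) →
      ∀ p q : E → Fin d, Valid N p → Valid N q → Conn N t p q)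
    {d : ℕ} (P Q : Fin d → BaseOf M) (h : SameSum P Q) : FConn t P Q := by
  classical
  rcases Nat.eq_zero_or_pos d with hd | hd
  · subst hd
    have : P = Q := funext fun i => i.elim0
    rw [this]
    exact Relation.ReflTransGen.refl
  let i₀ : Fin d := ⟨0, hd⟩
  have hbase := comap_isBase P i₀
  -- the two colourings
  let p₀ : EE P → Fin d := fun x => x.1
  have hp₀ : Valid (M.comap (pr P)) p₀ := by
    intro i
    rw [hbase]
    constructor
    · have h1 : pr P '' cls p₀ i = ((P i).1 : Set α) := by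
        ext e
        constructor
        · rintro ⟨⟨j, e', he'⟩, h1, rfl⟩
          have h1 : j = i := h1
          subst h1
          exact he'
        · intro he
          exact ⟨⟨i, ⟨e, he⟩⟩, rfl, rfl⟩
      rw [h1]
      exact (P i).2
    · rintro ⟨j, e, he⟩ h1 ⟨j', e', he'⟩ h2 h3
      have h1 : j = i := h1
      have h2 : j' = i := h2
      have h3 : e = e' := h3
      subst h1 h2 h3
      rfl
  have hP : fam P i₀ p₀ hp₀ = P := by
    funext i
    apply Subtype.ext
    ext e
    rw [mem_fam]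
    constructor
    · rintro ⟨⟨j, e', he'⟩, h1, rfl⟩
      have h1 : j = i := h1
      subst h1
      exact he'
    · intro he
      exact ⟨⟨i, ⟨e, he⟩⟩, rfl, rfl⟩
  have hβ : ∀ e, Nonempty ({i // e ∈ (P i).1} ≃ {i // e ∈ (Q i).1}) := fun e =>
    Finite.card_eq.1 (h e)
  let β : ∀ e, {i // e ∈ (P i).1} ≃ {i // e ∈ (Q i).1} := fun e => (hβ e).some
  let q₀ : EE P → Fin d := fun x => (β x.2.1 ⟨x.1, x.2.2⟩).1
  have hq₀' : ∀ j, pr P '' cls q₀ j = ((Q j).1 : Set α) := by
    intro j
    ext e
    constructor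
    · rintro ⟨⟨i, e', he'⟩, h1, rfl⟩
      have h1 : (β e' ⟨i, he'⟩).1 = j := h1
      have h2 := (β e' ⟨i, he'⟩).2
      rw [h1] at h2
      exact h2
    · intro he
      have he' : e ∈ (Q j).1 := he
      refine ⟨⟨((β e).symm ⟨j, he'⟩).1, ⟨e, ((β e).symm ⟨j, he'⟩).2⟩⟩, ?_, rfl⟩
      show (β e ⟨((β e).symm ⟨j, he'⟩).1, _⟩).1 = j
      have : (⟨((β e).symm ⟨j, he'⟩).1, ((β e).symm ⟨j, he'⟩).2⟩ : {i // e ∈ (P i).1}) =
        (β e).symm ⟨j, he'⟩ := rfl
      rw [this, Equiv.apply_symm_apply]
  have hq₀ : Valid (M.comap (pr P)) q₀ := by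
    intro j
    rw [hbase, hq₀']
    refine ⟨(Q j).2, ?_⟩
    rintro ⟨i, e, he⟩ h1 ⟨i', e', he'⟩ h2 h3
    have h3 : e = e' := h3
    subst h3
    have h1 : (β e ⟨i, he⟩).1 = j := h1
    have h2 : (β e ⟨i', he'⟩).1 = j := h2
    have h4 : (⟨i, he⟩ : {i // e ∈ (P i).1}) = ⟨i', he'⟩ :=
      (β e).injective (Subtype.ext (h1.trans h2.symm))
    have h5 : i = i' := congrArg Subtype.val h4
    subst h5
    rfl
  have hQ : fam P i₀ q₀ hq₀ = Q := by
    funext i
    apply Subtype.ext
    apply Finset.coe_injective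
    rw [coe_fam, hq₀']
  -- the chain
  have hchain : Conn (M.comap (pr P)) t p₀ q₀ := by
    refine core (EE P) (M.comap (pr P)) d ?_ ?_ p₀ q₀ hp₀ hq₀
    · rw [Matroid.comap_ground_eq, preimage_ground]
    · intro B hB
      obtain ⟨h1, h2⟩ := (hbase B).1 hB
      have h3 := hr _ h1
      rwa [h2.ncard_image] at h3
  have key : ∀ q, Conn (M.comap (pr P)) t p₀ q →
      ∃ hq : Valid (M.comap (pr P)) q, FConn t P (fam P i₀ q hq) := by
    intro q hq
    induction hq with
    | refl => exact ⟨hp₀, by rw [hP]; exact Relation.ReflTransGen.refl⟩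
    | tail _ hmove ih =>
      obtain ⟨hq1, hq2⟩ := ih
      obtain ⟨_, hq3, T, hT, hTc⟩ := hmove
      refine ⟨hq3, Relation.ReflTransGen.tail hq2 ⟨fun e => ?_, T, hT, fun i hi => ?_⟩⟩
      · rw [card_fam, card_fam]
      · exact fam_congr P i₀ _ _ _ _ i (hTc i hi)
  obtain ⟨_, h2⟩ := key q₀ hchain
  rwa [hQ] at h2

/-- Proof. `P ↦ P'`, `P' i = M.E \ P i` (a finset, as `M.E` is finite; a base of `M✶`). For `e ∈ M.E` the number of `i`
with `e ∈ P' i` is `d` minus the number of `i` with `e ∈ P i`; it is `0` for `e ∉ M.E`. So `SameSum` is preserved, and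
`FMove`s too; the same in the other direction (`M✶✶ = M`). -/
theorem fconn_dual {α : Type u} (M : Matroid α) [M.Finite] {t d : ℕ}
    (h : ∀ P Q : Fin d → BaseOf M✶, SameSum P Q → FConn t P Q) :
    ∀ P Q : Fin d → BaseOf M, SameSum P Q → FConn t P Q := by
  classical
  intro P Q hPQ
  let E : Finset α := M.ground_finite.toFinset
  have hE : (E : Set α) = M.E := M.ground_finite.coe_toFinset
  let up : BaseOf M → BaseOf M✶ := fun B => ⟨E \ B.1, by
    rw [Finset.coe_sdiff, hE]
    exact B.2.compl_isBase_dual⟩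
  let dn : BaseOf M✶ → BaseOf M := fun B => ⟨E \ B.1, by
    rw [Finset.coe_sdiff, hE]
    exact B.2.compl_isBase_of_dual⟩
  have hdn : ∀ B, dn (up B) = B := by
    intro B
    apply Subtype.ext
    show E \ (E \ B.1) = B.1
    rw [Finset.sdiff_sdiff_eq_self]
    intro e he
    rw [← Finset.mem_coe, hE]
    exact B.2.subset_ground he
  have hup : SameSum (fun i => up (P i)) (fun i => up (Q i)) := by
    intro e
    show Nat.card {i // e ∈ E \ (P i).1} = Nat.card {i // e ∈ E \ (Q i).1}
    rw [card_compl, card_compl, hPQ e]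
  have h1 := h _ _ hup
  have key : ∀ R S : Fin d → BaseOf M✶, FConn t R S →
      FConn t (fun i => dn (R i)) (fun i => dn (S i)) := by
    intro R S hRS
    induction hRS with
    | refl => exact Relation.ReflTransGen.refl
    | tail _ hmove ih =>
      obtain ⟨h2, T, hT, hTc⟩ := hmove
      refine Relation.ReflTransGen.tail ih ⟨fun e => ?_, T, hT, fun i hi => ?_⟩
      · show Nat.card {i // e ∈ E \ (_ : BaseOf M✶).1} = Nat.card {i // e ∈ E \ (_ : BaseOf M✶).1}
        rw [card_compl, card_compl, h2 e]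
      · show dn _ = dn _
        rw [hTc i hi]
  have h2 := key _ _ h1
  simp only [hdn] at h2
  exact h2

end Pool.Agent.MP_d4f4ab_ag
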