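import Pool.Agent.MP_d4f4ab_ag.Defs

/-! [WH-C1] simultaneous exchange. -/

open Set

namespace Pool.Agent.MP_d4f4ab_ag

/-- Simultaneous exchange of `a j` by `b j` (`j ∈ J`) in a base `B`, when the exchange relation
between the `b i` and the `a j` is the identity.

Proof. Induction on `J`. Exchange `a 0` by `b 0` first: `B' = B - a 0 + b 0` is a base
(`IsBase.exchange_base_of_notMem_closure`; if `a 0 = b 0` then `B' = B`). Check the hypotheses for `B'`
and `J \ {0}`: for `j ≠ 0`, `B' \ {a j} = insert (b 0) ((B \ {a j}) \ {a 0})` and `b 0 ∈ cl (B \ {a j})`, so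
`cl (B' \ {a j}) ⊆ cl (B \ {a j})`, hence `b j ∉ cl (B' \ {a j})`.
For `i ≠ j`, both `≠ 0`: `b i ∈ cl (B \ {a j}) ∩ cl (B \ {a 0}) = cl (B \ {a j, a 0})`
(`Indep.closure_inter_eq_inter_closure`) `⊆ cl (B' \ {a j})`. Also `a j ∈ B'` for `j ≠ 0` as `a j ≠ a 0`
(and `a j ≠ b 0` unless ... note `b 0 ∈ B` and `b 0 ≠ a 0` is impossible since then
`b 0 ∈ B \ {a 0}`; so `b 0 = a 0` or `b 0 ∉ B`). -/
theorem multi_exchange {E : Type*} (M : Matroid E) {B : Set E} (hB : M.IsBase B) {ι : Type*}
    (J : Finset ι) (a b : ι → E)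
    (ha : ∀ i ∈ J, a i ∈ B) (hinj : ∀ i ∈ J, ∀ j ∈ J, a i = a j → i = j)
    (hb : ∀ j ∈ J, b j ∈ M.E ∧ b j ∉ M.closure (B \ {a j}))
    (hc : ∀ i ∈ J, ∀ j ∈ J, i ≠ j → b i ∈ M.closure (B \ {a j})) :
    M.IsBase ((B \ (a '' (J : Set ι))) ∪ b '' (J : Set ι)) := by
  classical
  induction J using Finset.induction_on generalizing B with
  | empty => simpa using hB
  | insert j0 J' hj0 ih =>
    have hj0m : j0 ∈ insert j0 J' := Finset.mem_insert_self _ _
    have hsub : ∀ i ∈ J', i ∈ insert j0 J' := fun i hi => Finset.mem_insert_of_mem hi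
    have hne : ∀ i ∈ J', i ≠ j0 := fun i hi h => hj0 (h ▸ hi)
    have hane : ∀ i ∈ J', a i ≠ a j0 := fun i hi h =>
      hne i hi (hinj i (hsub i hi) j0 hj0m h)
    have hBE : B ⊆ M.E := hB.subset_ground
    have hB' : M.IsBase (insert (b j0) (B \ {a j0})) :=
      hB.exchange_base_of_notMem_closure (ha j0 hj0m) (hb j0 hj0m).2 (hb j0 hj0m).1
    have hb0 : ∀ i ∈ J', b j0 ≠ a i := by
      intro i hi h
      apply (hb j0 hj0m).2
      rw [h]
      exact M.subset_closure _ (sdiff_subset.trans hBE) ⟨ha i (hsub i hi), hane i hi⟩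
    have key := ih hB' (fun i hi => Or.inr ⟨ha i (hsub i hi), hane i hi⟩)
      (fun i hi j hj => hinj i (hsub i hi) j (hsub j hj))
      (fun j hj => ⟨(hb j (hsub j hj)).1, fun hmem => (hb j (hsub j hj)).2 (by
        refine M.closure_subset_closure_of_subset_closure ?_ hmem
        rintro x ⟨hx, hxj⟩
        rcases hx with rfl | hx
        · exact hc j0 hj0m j (hsub j hj) (Ne.symm (hne j hj))
        · exact M.subset_closure _ (sdiff_subset.trans hBE) ⟨hx.1, hxj⟩)⟩)
      (fun i hi j hj hij => by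
        have h1 := hc i (hsub i hi) j (hsub j hj) hij
        have h2 := hc i (hsub i hi) j0 hj0m (hne i hi)
        have h3 : M.Indep (B \ {a j} ∪ B \ {a j0}) :=
          hB.indep.subset (union_subset sdiff_subset sdiff_subset)
        have h4 : b i ∈ M.closure ((B \ {a j}) ∩ (B \ {a j0})) := by
          rw [h3.closure_inter_eq_inter_closure]
          exact ⟨h1, h2⟩
        refine M.closure_subset_closure ?_ h4
        rintro x ⟨hx, hx'⟩
        exact ⟨Or.inr hx', hx.2⟩)
    convert key using 1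
    ext x
    simp only [Finset.coe_insert, image_insert_eq, mem_union, mem_sdiff, mem_insert_iff, mem_image,
      Finset.mem_coe, mem_singleton_iff]
    constructor
    · rintro (⟨hx, hx'⟩ | rfl | hx)
      · push Not at hx'
        left
        refine ⟨Or.inr ⟨hx, hx'.1⟩, ?_⟩
        rintro ⟨i, hi, h⟩
        exact hx'.2 i hi h
      · left
        refine ⟨Or.inl rfl, ?_⟩
        rintro ⟨i, hi, h⟩
        exact hb0 i hi h.symm
      · exact Or.inr hx
    · rintro (⟨rfl | ⟨hx, hx'⟩, hx''⟩ | hx)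
      · exact Or.inr (Or.inl rfl)
      · left
        refine ⟨hx, ?_⟩
        rintro (h | h)
        · exact hx' h
        · exact hx'' h
      · exact Or.inr (Or.inr hx)

end Pool.Agent.MP_d4f4ab_ag
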