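import Pool.Agent.MP_d4f4ab_ag.Defs

/-! [WH-C2] shortest directed cycles. -/

open Set

namespace Pool.Agent.MP_d4f4ab_ag

/-- A finite nonempty digraph (loops allowed) with all out-degrees positive contains a directed cycle
without chords.

Proof. Let `S` be a minimal nonempty set of vertices such that every vertex of `S` has a successor
in `S`, `f` a successor function on `S` and `v₁ ∈ S` a periodic point of `f` of minimal period `m`.
If `r (e i) (e j)`, `e k = f^k v₁`, then `{e j, e (j+1), ..., e i}` has the same property, hence it is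
`S`, so it has at least `m` elements. -/
theorem exists_cycle {V : Type*} [Finite V] [Nonempty V] (r : V → V → Prop)
    (h : ∀ v, ∃ w, r v w) :
    ∃ m : ℕ, 0 < m ∧ ∃ e : ZMod m → V, Function.Injective e ∧
      ∀ i j, r (e i) (e j) ↔ j = i + 1 := by
  classical
  obtain ⟨S, hS⟩ := (Set.toFinite {S : Set V | S.Nonempty ∧ ∀ v ∈ S, ∃ w, w ∈ S ∧ r v w}
    ).exists_minimal ⟨univ, univ_nonempty, fun v _ => by
      obtain ⟨w, hw⟩ := h v
      exact ⟨w, mem_univ _, hw⟩⟩
  obtain ⟨⟨⟨v0, hv0⟩, hsucc⟩, hmin⟩ := hS
  choose! f hfS hfr using hsucc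
  have hit : ∀ (n : ℕ) (v : V), v ∈ S → f^[n] v ∈ S := by
    intro n
    induction n with
    | zero => intro v hv; exact hv
    | succ n ih =>
      intro v hv
      rw [Function.iterate_succ_apply']
      exact hfS _ (ih v hv)
  obtain ⟨v1, hv1, hper⟩ : ∃ v1 ∈ S, v1 ∈ Function.periodicPts f := by
    obtain ⟨a, b, hab, heq⟩ := Finite.exists_ne_map_eq_of_infinite (fun n : ℕ => f^[n] v0)
    wlog hlt : a < b generalizing a b
    · exact this b a hab.symm heq.symm (by omega)
    refine ⟨f^[a] v0, hit a v0 hv0, ?_⟩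
    refine Function.mk_mem_periodicPts (n := b - a) (by omega) ?_
    change f^[b - a] (f^[a] v0) = f^[a] v0
    rw [← Function.iterate_add_apply, Nat.sub_add_cancel hlt.le]
    exact heq.symm
  set m := Function.minimalPeriod f v1 with hm
  have hmpos : 0 < m := Function.minimalPeriod_pos_of_mem_periodicPts hper
  have : NeZero m := ⟨hmpos.ne'⟩
  have hmod : ∀ n : ℕ, f^[n % m] v1 = f^[n] v1 := fun n =>
    Function.iterate_mod_minimalPeriod_eq
  have hnext : ∀ i : ZMod m, f (f^[i.val] v1) = f^[(i + 1).val] v1 := by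
    intro i
    rw [← Function.iterate_succ_apply' f, ← hmod (i.val + 1), ZMod.val_add, ZMod.val_one_eq_one_mod,
      Nat.add_mod_mod]
  have hnextn : ∀ (n : ℕ) (i : ZMod m), f^[n] (f^[i.val] v1) = f^[(i + n).val] v1 := by
    intro n
    induction n with
    | zero => intro i; simp
    | succ n ih =>
      intro i
      rw [Function.iterate_succ_apply', ih, hnext]
      congr 2
      push_cast
      ring
  have hinj : Function.Injective (fun i : ZMod m => f^[i.val] v1) := by
    intro i j hij
    apply ZMod.val_injective m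
    exact (Function.iterate_injOn_Iio_minimalPeriod (ZMod.val_lt i) (ZMod.val_lt j) hij)
  refine ⟨m, hmpos, fun i => f^[i.val] v1, hinj, fun i j => ⟨fun hij => ?_, ?_⟩⟩
  · -- the closed set
    set T : Set V := {v | ∃ n : ℕ, n ≤ (i - j).val ∧ v = f^[n] (f^[j.val] v1)} with hT
    have hTS : T ⊆ S := by
      rintro v ⟨n, _, rfl⟩
      exact hit _ _ (hit _ _ hv1)
    have hend : f^[(i - j).val] (f^[j.val] v1) = f^[i.val] v1 := by
      rw [hnextn, ZMod.natCast_zmod_val, add_sub_cancel]
    have hST : S ⊆ T := by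
      refine hmin ⟨⟨f^[j.val] v1, 0, Nat.zero_le _, rfl⟩, ?_⟩ hTS
      rintro v ⟨n, hn, rfl⟩
      rcases Nat.lt_or_ge n (i - j).val with hlt | hge
      · refine ⟨f^[n + 1] (f^[j.val] v1), ⟨n + 1, hlt, rfl⟩, ?_⟩
        rw [Function.iterate_succ_apply']
        exact hfr _ (hit _ _ (hit _ _ hv1))
      · have hn' : n = (i - j).val := le_antisymm hn hge
        refine ⟨f^[j.val] v1, ⟨0, Nat.zero_le _, rfl⟩, ?_⟩
        rw [hn', hend]
        exact hij
    have hcard : m ≤ (i - j).val + 1 := by
      have h1 : (Finset.univ.image (fun k : ZMod m => f^[k.val] v1)) ⊆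
          (Finset.range ((i - j).val + 1)).image (fun n => f^[n] (f^[j.val] v1)) := by
        intro v hv
        obtain ⟨k, _, rfl⟩ := Finset.mem_image.1 hv
        obtain ⟨n, hn, hk⟩ := hST (hit k.val v1 hv1)
        exact Finset.mem_image.2 ⟨n, Finset.mem_range.2 (by omega), hk.symm⟩
      have h2 := Finset.card_le_card h1
      rw [Finset.card_image_of_injective _ hinj, Finset.card_univ, ZMod.card] at h2
      refine h2.trans (Finset.card_image_le.trans ?_)
      rw [Finset.card_range]
    have hlt := ZMod.val_lt (i - j)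
    have hval : ((i - j).val + 1 : ℕ) = m := by omega
    have h3 : (((i - j).val + 1 : ℕ) : ZMod m) = 0 := by rw [hval, ZMod.natCast_self]
    push_cast at h3
    rw [ZMod.natCast_zmod_val] at h3
    linear_combination -h3
  · rintro rfl
    change r (f^[i.val] v1) (f^[(i + 1).val] v1)
    rw [← hnext]
    exact hfr _ (hit _ _ hv1)

end Pool.Agent.MP_d4f4ab_ag
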