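import Pool.Agent.MP_d4f4ab_ag.Defs
import Pool.Agent.MP_d4f4ab_ag.C1
import Pool.Agent.MP_d4f4ab_ag.C2

/-! [WH-C3] structure of minimal pairs. -/

open Set

namespace Pool.Agent.MP_d4f4ab_ag

/-- intersection of closures of subsets of an independent set -/
theorem c3a_inter {E : Type*} (M : Matroid E) {I : Set E} (hI : M.Indep I) (x : E)
    (Y : Finset E) (hx : x ∈ M.closure I) (hY : ∀ y ∈ Y, x ∈ M.closure (I \ {y})) :
    x ∈ M.closure (I \ (Y : Set E)) := by
  classical
  induction Y using Finset.induction_on with
  | empty => simpa using hx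
  | insert y Y _ ih =>
    have h1 := ih fun z hz => hY z (Finset.mem_insert_of_mem hz)
    have h2 := hY y (Finset.mem_insert_self _ _)
    have h3 : M.Indep (I \ (Y : Set E) ∪ I \ {y}) :=
      hI.subset (union_subset sdiff_subset sdiff_subset)
    have h4 : x ∈ M.closure ((I \ (Y : Set E)) ∩ (I \ {y})) := by
      rw [h3.closure_inter_eq_inter_closure]
      exact ⟨h1, h2⟩
    refine M.closure_subset_closure ?_ h4
    rintro z ⟨hz, hz'⟩
    refine ⟨hz.1, ?_⟩
    rw [Finset.coe_insert]
    rintro (rfl | h5)
    · exact hz'.2 rfl
    · exact hz.2 h5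

/-- First half of the structure theorem: a minimal pair differs by a single cyclic exchange without
chords of the colours prescribed by `Q`.

Proof. Let `D = {x | P x ≠ Q x}` (nonempty as `P`, `Q` are not connected). Put `r x y` iff
`P y = Q x ∧ x ∉ cl (cls P (P y) \ {y})` on `D`. Every `x ∈ D` has an `r`-successor in `D`: with `c = Q x`,
`x ∉ cls P c`, and if `x` were in `cl (cls P c \ {y})` for all `y ∈ cls P c \ cls Q c`, then `x` would be in the
closure of `cls P c ∩ cls Q c` (intersection of closures of subsets of an independent set), contradicting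
that `cls Q c` is independent and contains `x`. Take the chordless cycle `e : ZMod m → D` of
`exists_cycle`. Let `P'` be `P` with `e i` recoloured to `Q (e i)`. It is valid: for every colour `c` apply
`multi_exchange` with `J = {i | P (e (i+1)) = c}`, `a i = e (i+1)`, `b i = e i`. Now
`hammingDist P P' = m` and `hammingDist P' Q = |D| - m`. If `m < |D|`: minimality gives that `P`, `P'` are
connected and that `P'`, `Q` are connected, contradiction. So `m = |D|` and `e` is onto `D`. -/
theorem exists_cycle_of_minPair {E C : Type*} [Fintype E] [DecidableEq C] (M : Matroid E)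
    (hE : M.E = univ) {t : ℕ} {P Q : E → C} (h : MinPair M t P Q) :
    ∃ e : ZMod (hammingDist P Q) → E, Function.Injective e ∧ 0 < hammingDist P Q ∧
      (∀ x, P x ≠ Q x ↔ x ∈ Set.range e) ∧ (∀ i, Q (e i) = P (e (i + 1))) ∧
      (∀ i, e i ∉ M.closure (cls P (P (e (i + 1))) \ {e (i + 1)})) ∧
      (∀ i j, P (e j) = Q (e i) → j ≠ i + 1 → e i ∈ M.closure (cls P (P (e j)) \ {e j})) := by
  classical
  have hne : Nonempty {x : E // P x ≠ Q x} := by
    by_contra hcon
    have hPQ : P = Q := by
      funext x
      by_contra hx
      exact hcon ⟨⟨x, hx⟩⟩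
    apply h.nconn
    rw [hPQ]
    exact Relation.ReflTransGen.refl
  set r : {x : E // P x ≠ Q x} → {x : E // P x ≠ Q x} → Prop := fun x y =>
    P y = Q x ∧ (x : E) ∉ M.closure (cls P (P y) \ {(y : E)}) with hr
  have hsucc : ∀ x, ∃ y, r x y := by
    rintro ⟨x, hx⟩
    by_contra hcon
    push Not at hcon
    have hcon' : ∀ y : E, P y = Q x → Q y ≠ Q x →
        x ∈ M.closure (cls P (Q x) \ {y}) := by
      intro y hy hy'
      by_contra hmem
      apply hcon ⟨y, by rw [hy]; exact hy'.symm⟩
      refine ⟨hy, ?_⟩
      change x ∉ M.closure (cls P (P y) \ {y})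
      rw [hy]
      exact hmem
    have hxP : x ∈ M.closure (cls P (Q x)) := by
      rw [(h.hP (Q x)).closure_eq, hE]
      exact mem_univ x
    have h1 := c3a_inter M (h.hP (Q x)).indep x
      (Finset.univ.filter fun y => P y = Q x ∧ Q y ≠ Q x) hxP (by
        intro y hy
        obtain ⟨_, hy1, hy2⟩ := Finset.mem_filter.1 hy
        exact hcon' y hy1 hy2)
    have h2 : x ∈ M.closure (cls Q (Q x) \ {x}) := by
      refine M.closure_subset_closure ?_ h1
      rintro y ⟨hy, hy'⟩
      have hy1 : P y = Q x := hy
      refine ⟨?_, ?_⟩
      · by_contra hQ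
        apply hy'
        rw [Finset.mem_coe, Finset.mem_filter]
        exact ⟨Finset.mem_univ y, hy1, hQ⟩
      · rintro rfl
        exact hx hy1
    exact (h.hQ (Q x)).indep.notMem_closure_sdiff_of_mem (show x ∈ cls Q (Q x) from rfl) h2
  obtain ⟨m, hm, e, hinj, hchord⟩ := exists_cycle r hsucc
  have : NeZero m := ⟨hm.ne'⟩
  have hedge : ∀ i, r (e i) (e (i + 1)) := fun i => (hchord i (i + 1)).2 rfl
  have hnext : ∀ i, Q (e i) = P (e (i + 1)) := fun i => (hedge i).1.symm
  have hnot : ∀ i, (e i : E) ∉ M.closure (cls P (P (e (i + 1))) \ {(e (i + 1) : E)}) :=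
    fun i => (hedge i).2
  have hcl : ∀ i j, P (e j) = Q (e i) → j ≠ i + 1 →
      (e i : E) ∈ M.closure (cls P (P (e j)) \ {(e j : E)}) := by
    intro i j h1 h2
    by_contra h3
    exact h2 ((hchord i j).1 ⟨h1, h3⟩)
  have hinjE : Function.Injective (fun i => (e i : E)) := fun i j hij => hinj (Subtype.ext hij)
  -- the new colouring
  set P' : E → C := fun x => if x ∈ Set.range (fun i => (e i : E)) then Q x else P x with hP'
  have hP'e : ∀ i, P' (e i) = Q (e i) := fun i => if_pos ⟨i, rfl⟩
  have hP'n : ∀ x, x ∉ Set.range (fun i => (e i : E)) → P' x = P x := fun x hx => if_neg hx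
  have hvalid : Valid M P' := by
    intro c
    have h1 := multi_exchange M (h.hP c) (Finset.univ.filter fun i : ZMod m => P (e (i + 1)) = c)
      (fun i => (e (i + 1) : E)) (fun i => (e i : E))
      (fun i hi => (Finset.mem_filter.1 hi).2)
      (fun i _ j _ hij => by
        have := hinjE hij
        exact add_right_cancel this)
      (fun j hj => ⟨by rw [hE]; exact mem_univ _, by
        have := hnot j
        rwa [(Finset.mem_filter.1 hj).2] at this⟩)
      (fun i hi j hj hij => by
        have hi' := (Finset.mem_filter.1 hi).2
        have hj' := (Finset.mem_filter.1 hj).2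
        have := hcl i (j + 1) (by rw [hj', hnext, hi']) (fun h2 => hij (add_right_cancel h2).symm)
        rwa [hj'] at this)
    convert h1 using 1
    ext x
    by_cases hx : x ∈ Set.range (fun i => (e i : E))
    · obtain ⟨i, rfl⟩ := hx
      simp only [mem_union, mem_sdiff, mem_image, Finset.mem_coe, Finset.mem_filter,
        Finset.mem_univ, true_and]
      constructor
      · intro h2
        right
        refine ⟨i, ?_, rfl⟩
        rw [← hnext, ← hP'e]
        exact h2
      · rintro (⟨h2, h3⟩ | ⟨j, hj, hj'⟩)
        · exfalso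
          apply h3
          refine ⟨i - 1, ?_, ?_⟩
          · rw [sub_add_cancel]; exact h2
          · rw [sub_add_cancel]
        · have hji : j = i := hinjE hj'
          rw [hji] at hj
          change P' (e i) = c
          rw [hP'e, hnext]
          exact hj
    · simp only [mem_union, mem_sdiff, mem_image, Finset.mem_coe, Finset.mem_filter,
        Finset.mem_univ, true_and]
      constructor
      · intro h2
        left
        refine ⟨?_, ?_⟩
        · change P x = c
          rw [← hP'n x hx]
          exact h2
        · rintro ⟨j, _, hj'⟩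
          exact hx ⟨j + 1, hj'⟩
      · rintro (⟨h2, _⟩ | ⟨j, _, hj'⟩)
        · change P' x = c
          rw [hP'n x hx]
          exact h2
        · exact absurd ⟨j, hj'⟩ hx
  -- the distances
  have hrange : (Finset.univ.image fun i : ZMod m => (e i : E)).card = m := by
    rw [Finset.card_image_of_injective _ hinjE, Finset.card_univ, ZMod.card]
  have hd1 : hammingDist P P' = m := by
    rw [hammingDist, ← hrange]
    congr 1
    ext x
    simp only [Finset.mem_filter, Finset.mem_univ, true_and, Finset.mem_image]
    constructor
    · intro hx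
      by_contra hcon
      exact hx (hP'n x hcon).symm
    · rintro ⟨i, rfl⟩
      rw [hP'e]
      exact (e i).2
  have hd2 : hammingDist P' Q + m = hammingDist P Q := by
    rw [hammingDist, hammingDist, ← hrange, ← Finset.card_union_of_disjoint]
    · congr 1
      ext x
      simp only [Finset.mem_filter, Finset.mem_univ, true_and, Finset.mem_union,
        Finset.mem_image]
      constructor
      · rintro (hx | ⟨i, rfl⟩)
        · by_cases hx' : x ∈ Set.range (fun i => (e i : E))
          · obtain ⟨i, rfl⟩ := hx'
            exact (e i).2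
          · rwa [hP'n x hx'] at hx
        · exact (e i).2
      · intro hx
        by_cases hx' : x ∈ Set.range (fun i => (e i : E))
        · exact Or.inr hx'
        · left
          rwa [hP'n x hx']
    · rw [Finset.disjoint_left]
      intro x hx hx'
      obtain ⟨i, _, rfl⟩ := Finset.mem_image.1 hx'
      exact (Finset.mem_filter.1 hx).2 (hP'e i)
  have hmeq : m = hammingDist P Q := by
    by_contra hmne
    have h1 : Conn M t P P' := by
      by_contra hcon
      have := h.min P P' h.hP hvalid hcon
      omega
    have h2 : Conn M t P' Q := by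
      by_contra hcon
      have := h.min P' Q hvalid h.hQ hcon
      omega
    exact h.nconn (h1.trans h2)
  have hd0 : hammingDist P' Q = 0 := by omega
  have hP'Q : P' = Q := eq_of_hammingDist_eq_zero hd0
  clear_value r P'
  subst hmeq
  refine ⟨fun i => (e i : E), hinjE, hm, fun x => ⟨fun hx => ?_, ?_⟩, hnext, hnot, hcl⟩
  · by_contra hcon
    apply hx
    rw [← hP'n x hcon, hP'Q]
  · rintro ⟨i, rfl⟩
    exact (e i).2

/-- intersection of closures of subsets of an independent set -/
theorem mem_closure_sdiff {E : Type*} (M : Matroid E) {I : Set E} (hI : M.Indep I) {x : E}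
    (hx : x ∈ M.closure I) {S : Set E} (hS : S.Finite) (h : ∀ y ∈ S, x ∈ M.closure (I \ {y})) :
    x ∈ M.closure (I \ S) := by
  induction S, hS using Set.Finite.induction_on with
  | empty => simpa using hx
  | @insert y S hy hS ih =>
    have h1 := ih (fun z hz => h z (Set.mem_insert_of_mem _ hz))
    have h2 := h y (Set.mem_insert _ _)
    have h3 : I \ insert y S = (I \ S) ∩ (I \ {y}) := by
      ext z
      simp only [Set.mem_sdiff, Set.mem_insert_iff, Set.mem_inter_iff, Set.mem_singleton_iff]
      tauto
    have h4 : M.Indep ((I \ S) ∪ (I \ {y})) :=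
      hI.subset (Set.union_subset Set.sdiff_subset Set.sdiff_subset)
    rw [h3, h4.closure_inter_eq_inter_closure]
    exact ⟨h1, h2⟩

theorem cast_inj_of_lt {m : ℕ} {a b : ℕ} (ha : a < m) (hb : b < m)
    (h : (a : ZMod m) = (b : ZMod m)) : a = b := by
  rw [ZMod.natCast_eq_natCast_iff'] at h
  rwa [Nat.mod_eq_of_lt ha, Nat.mod_eq_of_lt hb] at h

/-- no chords at all -/
theorem no_chord {E C : Type*} [Fintype E] [DecidableEq C] (M : Matroid E)
    (hE : M.E = univ) {t : ℕ} {P Q : E → C} (h : MinPair M t P Q) {m : ℕ}
    (hmdef : hammingDist P Q = m) (e : ZMod m → E) (hinj : Function.Injective e) (hm : 0 < m)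
    (hrange : ∀ x, P x ≠ Q x ↔ x ∈ Set.range e) (hnext : ∀ i, Q (e i) = P (e (i + 1)))
    (hx : ∀ i, e i ∉ M.closure (cls P (P (e (i + 1))) \ {e (i + 1)}))
    (hc : ∀ i j, P (e j) = Q (e i) → j ≠ i + 1 → e i ∈ M.closure (cls P (P (e j)) \ {e j})) :
    ∀ i j, j ≠ i → j ≠ i + 1 → e i ∈ M.closure (cls P (P (e j)) \ {e j}) := by
  classical
  -- a chord of length `p`
  have : NeZero m := ⟨hm.ne'⟩
  have main : ∀ p : ℕ, ∀ j : ZMod m, 1 ≤ p → p + 2 ≤ m →
      e (j + (p : ZMod m)) ∈ M.closure (cls P (P (e j)) \ {e j}) := by
    intro p
    induction p using Nat.strong_induction_on with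
    | _ p ih =>
    intro j hp1 hp2
    by_contra hch
    set x : ℕ → E := fun s => e (j + (s : ZMod m)) with hxdef
    have x0 : x 0 = e j := by simp [hxdef]
    have xsucc : ∀ s : ℕ, x (s + 1) = e (j + (s : ZMod m) + 1) := by
      intro s
      simp only [hxdef]
      congr 1
      push_cast
      ring
    have xinj : ∀ s s' : ℕ, s < m → s' < m → x s = x s' → s = s' := by
      intro s s' h1 h2 h3
      have h4 := hinj h3
      exact cast_inj_of_lt h1 h2 (add_left_cancel h4)
    have xQ : ∀ s : ℕ, Q (x s) = P (x (s + 1)) := by
      intro s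
      rw [xsucc]
      exact hnext _
    have xD : ∀ s : ℕ, P (x s) ≠ Q (x s) := fun s => (hrange _).2 ⟨_, rfl⟩
    set P2 : E → C := fun y => if y = x p then P (x 0) else if ∃ s < p, y = x s then Q y else P y
      with hP2
    have hlt : ∀ s, s < p → P2 (x s) = P (x (s + 1)) := by
      intro s hs
      simp only [hP2]
      rw [if_neg, if_pos ⟨s, hs, rfl⟩, xQ]
      intro h1
      have := xinj s p (by omega) (by omega) h1
      omega
    have hpp : P2 (x p) = P (x 0) := by
      simp only [hP2, if_true]
    have hout : ∀ y, (∀ s ≤ p, y ≠ x s) → P2 y = P y := by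
      intro y hy
      simp only [hP2]
      rw [if_neg (hy p le_rfl), if_neg]
      rintro ⟨s, hs, rfl⟩
      exact hy s hs.le rfl
    set a : ℕ → E := fun s => if s < p then x (s + 1) else x 0 with hadef
    have a_lt : ∀ s, s < p → a s = x (s + 1) := by
      intro s hs; simp only [hadef]; rw [if_pos hs]
    have a_p : a p = x 0 := by simp [hadef]
    have P2a : ∀ s ≤ p, P2 (x s) = P (a s) := by
      intro s hs
      rcases hs.lt_or_eq with h1 | rfl
      · rw [hlt s h1, a_lt s h1]
      · rw [hpp, a_p]
    have ainj : ∀ s ≤ p, ∀ s' ≤ p, a s = a s' → s = s' := by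
      intro s hs s' hs' h1
      rcases hs.lt_or_eq with h2 | h2 <;> rcases hs'.lt_or_eq with h3 | h3
      · rw [a_lt s h2, a_lt s' h3] at h1
        have := xinj _ _ (by omega) (by omega) h1
        omega
      · rw [h3, a_lt s h2, a_p] at h1
        have := xinj _ _ (by omega) (by omega) h1
        omega
      · rw [h2, a_lt s' h3, a_p] at h1
        have := xinj _ _ (by omega) (by omega) h1
        omega
      · omega
    -- the new colouring is valid
    have hval : Valid M P2 := by
      intro c
      set J : Finset ℕ := (Finset.range (p + 1)).filter (fun s => P2 (x s) = c) with hJ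
      have memJ : ∀ s, s ∈ J ↔ s ≤ p ∧ P2 (x s) = c := by
        intro s
        rw [hJ, Finset.mem_filter, Finset.mem_range, Nat.lt_succ_iff]
      have hB := h.hP c
      have hex := multi_exchange M hB J a x ?_ ?_ ?_ ?_
      · have hset : cls P2 c = (cls P c \ (a '' (J : Set ℕ))) ∪ x '' (J : Set ℕ) := by
          ext y
          simp only [cls, Set.mem_ofPred_eq, Set.mem_union, Set.mem_sdiff, Set.mem_image,
            Finset.mem_coe]
          by_cases hy : ∃ s ≤ p, y = x s
          · obtain ⟨s, hs, rfl⟩ := hy
            constructor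
            · intro h1
              exact Or.inr ⟨s, (memJ s).2 ⟨hs, h1⟩, rfl⟩
            · rintro (⟨h1, h2⟩ | ⟨s', h1, h2⟩)
              · exfalso
                apply h2
                by_cases hs0 : s = 0
                · subst hs0
                  refine ⟨p, (memJ p).2 ⟨le_rfl, ?_⟩, a_p⟩
                  rw [hpp]; exact h1
                · refine ⟨s - 1, (memJ (s - 1)).2 ⟨by omega, ?_⟩, ?_⟩
                  · rw [hlt (s - 1) (by omega), Nat.sub_add_cancel (by omega)]; exact h1
                  · rw [a_lt (s - 1) (by omega), Nat.sub_add_cancel (by omega)]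
              · rw [← h2]
                exact ((memJ s').1 h1).2
          · push Not at hy
            rw [hout y hy]
            constructor
            · intro h1
              refine Or.inl ⟨h1, ?_⟩
              rintro ⟨s', h2, h3⟩
              have h4 := ((memJ s').1 h2).1
              rcases h4.lt_or_eq with h5 | h5
              · rw [a_lt s' h5] at h3
                exact hy (s' + 1) (by omega) h3.symm
              · rw [h5, a_p] at h3
                exact hy 0 (by omega) h3.symm
            · rintro (⟨h1, -⟩ | ⟨s', h1, h2⟩)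
              · exact h1
              · exact (hy s' ((memJ s').1 h1).1 h2.symm).elim
        rw [hset]
        exact hex
      · intro s hs
        obtain ⟨h1, h2⟩ := (memJ s).1 hs
        rw [P2a s h1] at h2
        exact h2
      · intro s hs s' hs' h1
        exact ainj s ((memJ s).1 hs).1 s' ((memJ s').1 hs').1 h1
      · intro s hs
        obtain ⟨h1, h2⟩ := (memJ s).1 hs
        refine ⟨by rw [hE]; exact Set.mem_univ _, ?_⟩
        rw [P2a s h1] at h2
        rw [← h2]
        rcases h1.lt_or_eq with h3 | h3
        · rw [a_lt s h3, xsucc]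
          exact hx _
        · rw [h3, a_p, x0]
          exact hch
      · intro s hs s' hs' hne
        obtain ⟨h1, h2⟩ := (memJ s).1 hs
        obtain ⟨h1', h2'⟩ := (memJ s').1 hs'
        rw [P2a s' h1'] at h2'
        rw [← h2']
        rw [P2a s h1] at h2
        rcases h1.lt_or_eq with h3 | h3
        · rw [a_lt s h3] at h2
          rcases h1'.lt_or_eq with h4 | h4
          · rw [a_lt s' h4] at h2' ⊢
            rw [xsucc] at h2' ⊢
            apply hc
            · rw [h2', ← h2, ← xQ]
            · intro h5
              have h6 : (s' : ZMod m) = (s : ZMod m) := by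
                have h7 := add_right_cancel h5
                exact add_left_cancel h7
              exact hne (cast_inj_of_lt (by omega) (by omega) h6.symm)
          · subst h4
            rw [a_p] at h2' ⊢
            rw [x0] at h2' ⊢
            apply hc
            · rw [h2', ← h2, ← xQ]
            · intro h5
              have h6 : x 0 = x (s + 1) := by rw [xsucc, x0]; exact congrArg e h5
              have := xinj _ _ (by omega) (by omega) h6
              omega
        · subst h3
          have h4 : s' < s := by omega
          rw [a_p] at h2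
          rw [a_lt s' h4] at h2' ⊢
          by_cases h5 : s' + 1 = s
          · exfalso
            apply hch
            rw [h5] at h2'
            apply M.mem_closure_of_mem' _ (by rw [hE]; exact Set.mem_univ _)
            refine ⟨?_, ?_⟩
            · show P (x s) = P (e j)
              rw [h2', ← h2, x0]
            · intro h6
              have h7 : x s = x 0 := by rw [x0]; exact h6
              have := xinj _ _ (by omega) (by omega) h7
              omega
          · have h6 := ih (s - (s' + 1)) (by omega) (j + ((s' + 1 : ℕ) : ZMod m)) (by omega)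
              (by omega)
            have h7 : j + ((s' + 1 : ℕ) : ZMod m) + ((s - (s' + 1) : ℕ) : ZMod m) =
                j + (s : ZMod m) := by
              rw [add_assoc, ← Nat.cast_add]
              congr 2
              omega
            rw [h7] at h6
            exact h6
    -- distances
    have hD : ∀ y, P y ≠ P2 y → P y ≠ Q y := by
      intro y hy h1
      apply hy
      rw [hout]
      intro s _ h2
      rw [h2] at h1
      exact xD s h1
    have hD2 : ∀ y, P2 y ≠ Q y → P y ≠ Q y := by
      intro y hy h1
      apply hy
      rw [hout, h1]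
      intro s _ h2
      rw [h2] at h1
      exact xD s h1
    have d1 : hammingDist P P2 < m := by
      rw [← hmdef]
      unfold hammingDist
      apply Finset.card_lt_card
      rw [Finset.ssubset_iff_of_subset (by
        intro y hy
        rw [Finset.mem_filter] at hy ⊢
        exact ⟨Finset.mem_univ _, hD y hy.2⟩)]
      refine ⟨x (p + 1), ?_, ?_⟩
      · rw [Finset.mem_filter]
        exact ⟨Finset.mem_univ _, xD _⟩
      · rw [Finset.mem_filter]
        rintro ⟨-, h1⟩
        apply h1
        rw [hout]
        intro s hs h2
        have := xinj _ _ (by omega) (by omega) h2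
        omega
    have d2 : hammingDist P2 Q < m := by
      rw [← hmdef]
      unfold hammingDist
      apply Finset.card_lt_card
      rw [Finset.ssubset_iff_of_subset (by
        intro y hy
        rw [Finset.mem_filter] at hy ⊢
        exact ⟨Finset.mem_univ _, hD2 y hy.2⟩)]
      refine ⟨x 0, ?_, ?_⟩
      · rw [Finset.mem_filter]
        exact ⟨Finset.mem_univ _, xD _⟩
      · rw [Finset.mem_filter]
        rintro ⟨-, h1⟩
        apply h1
        rw [hlt 0 (by omega), xQ]
    have c1 : Conn M t P P2 := by
      by_contra hcon
      have := h.min P P2 h.hP hval hcon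
      omega
    have c2 : Conn M t P2 Q := by
      by_contra hcon
      have := h.min P2 Q hval h.hQ hcon
      omega
    exact h.nconn (Relation.ReflTransGen.trans c1 c2)
  intro i j h1 h2
  have h3 : ((i - j).val : ZMod m) = i - j := ZMod.natCast_zmod_val _
  have h4 : i = j + ((i - j).val : ZMod m) := by rw [h3]; ring
  have h5 : (i - j).val < m := ZMod.val_lt _
  have h6 : (i - j).val ≠ 0 := by
    intro h7
    rw [ZMod.val_eq_zero, sub_eq_zero] at h7
    exact h1 h7.symm
  have h7 : (i - j).val + 1 ≠ m := by
    intro h8
    apply h2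
    have h9 : ((((i - j).val + 1 : ℕ)) : ZMod m) = 0 := by rw [h8]; exact ZMod.natCast_self m
    push_cast at h9
    rw [h3] at h9
    have h10 : i + 1 - j = 0 := by rw [← h9]; ring
    exact (sub_eq_zero.1 h10).symm
  have h8 := main (i - j).val j (by omega) (by omega)
  rw [← h4] at h8
  exact h8

theorem exists_cyc {E C : Type*} [Fintype E] [DecidableEq C] (M : Matroid E)
    (hE : M.E = univ) {t : ℕ} {P Q : E → C} (h : MinPair M t P Q) :
    ∃ e : ZMod (hammingDist P Q) → E, Cyc M P Q (hammingDist P Q) e := by
  obtain ⟨e, hinj, hm, hrange, hnext, hx, hc⟩ := exists_cycle_of_minPair M hE h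
  have hno := no_chord M hE h rfl e hinj hm hrange hnext hx hc
  have huniv : ∀ c y, y ∈ M.closure (cls P c) := by
    intro c y
    rw [(h.hP c).closure_eq, hE]
    exact Set.mem_univ y
  refine ⟨e, hinj, hrange, hnext, ?_, ?_⟩
  · intro i c hc1 hc2
    have h1 : com P Q c = cls P c \ {y | P y = c ∧ Q y ≠ c} := by
      ext y
      simp only [com, cls, Set.mem_inter_iff, Set.mem_ofPred_eq, Set.mem_sdiff]
      tauto
    rw [h1]
    refine mem_closure_sdiff M (h.hP c).indep (huniv c _) (Set.toFinite _) ?_
    rintro y ⟨hy1, hy2⟩
    obtain ⟨j, rfl⟩ := (hrange y).1 (by rw [hy1]; exact hy2.symm)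
    have h2 := hno i j (by rintro rfl; exact hc1 hy1.symm)
      (by rintro rfl; rw [← hnext] at hy1; exact hc2 hy1.symm)
    rw [hy1] at h2
    exact h2
  · intro i
    have h1 : insert (e (i + 1)) (com P Q (Q (e i))) ⊇
        cls P (Q (e i)) \ {y | P y = Q (e i) ∧ Q y ≠ Q (e i) ∧ y ≠ e (i + 1)} := by
      intro y hy
      simp only [com, cls, Set.mem_inter_iff, Set.mem_ofPred_eq, Set.mem_sdiff,
        Set.mem_insert_iff] at hy ⊢
      tauto
    apply M.closure_subset_closure h1
    refine mem_closure_sdiff M (h.hP _).indep (huniv _ _) (Set.toFinite _) ?_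
    rintro y ⟨hy1, hy2, hy3⟩
    obtain ⟨j, rfl⟩ := (hrange y).1 (by rw [hy1]; exact hy2.symm)
    have h2 := hc i j hy1 (by rintro rfl; exact hy3 rfl)
    rw [hy1] at h2
    exact h2

end Pool.Agent.MP_d4f4ab_ag
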