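import Pool.Agent.MP_d4f4ab_ag.Defs

/-! [WH-C4a] basic consequences of the cyclic structure. -/

open Set

namespace Pool.Agent.MP_d4f4ab_ag

variable {E C : Type*} {M : Matroid E} {P Q : E → C} {m : ℕ} {e : ZMod m → E}

/-- moves and connectedness are symmetric -/
theorem Conn.symm {t : ℕ} {P Q : E → C} (h : Conn M t P Q) : Conn M t Q P := by
  have hs : ∀ A B : E → C, Move M t A B → Move M t B A := by
    rintro A B ⟨hA, hB, T, hT, hc⟩
    exact ⟨hB, hA, T, hT, fun c hcT => (hc c hcT).symm⟩
  induction h with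
  | refl => exact Relation.ReflTransGen.refl
  | tail _ hbc ih => exact Relation.ReflTransGen.head (hs _ _ hbc) ih

private theorem Cyc.ne (h : Cyc M P Q m e) (i : ZMod m) : P (e i) ≠ Q (e i) :=
  (h.range (e i)).2 ⟨i, rfl⟩

/-- `e i` is not in the closure of the common part of its `P`-class, nor of its `Q`-class
(the classes are independent and contain the common part and `e i`). -/
theorem Cyc.notMem_closure_com (hP : Valid M P) (h : Cyc M P Q m e) (i : ZMod m) :
    e i ∉ M.closure (com P Q (P (e i))) := by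
  intro hcon
  have h1 : com P Q (P (e i)) ⊆ cls P (P (e i)) \ {e i} := by
    intro x hx
    refine ⟨hx.1, fun hxe => ?_⟩
    rw [mem_singleton_iff] at hxe
    subst hxe
    exact h.ne i hx.2.symm
  exact (hP (P (e i))).indep.notMem_closure_sdiff_of_mem (show e i ∈ cls P (P (e i)) from rfl)
    (M.closure_subset_closure h1 hcon)

theorem Cyc.notMem_closure_com' (hQ : Valid M Q) (h : Cyc M P Q m e) (i : ZMod m) :
    e i ∉ M.closure (com P Q (Q (e i))) := by
  intro hcon
  have h1 : com P Q (Q (e i)) ⊆ cls Q (Q (e i)) \ {e i} := by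
    intro x hx
    refine ⟨hx.2, fun hxe => ?_⟩
    rw [mem_singleton_iff] at hxe
    subst hxe
    exact h.ne i hx.1
  exact (hQ (Q (e i))).indep.notMem_closure_sdiff_of_mem (show e i ∈ cls Q (Q (e i)) from rfl)
    (M.closure_subset_closure h1 hcon)

/-- by `near` and the exchange property (`closure_exchange`), since `e i ∉ cl (com P Q (Q (e i)))` -/
theorem Cyc.near' (hP : Valid M P) (hQ : Valid M Q) (h : Cyc M P Q m e) (i : ZMod m) :
    e (i + 1) ∈ M.closure (insert (e i) (com P Q (Q (e i)))) :=
  (M.closure_exchange ⟨h.near i, h.notMem_closure_com' hQ i⟩).1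

private theorem com_comm (P Q : E → C) (c : C) : com P Q c = com Q P c := inter_comm _ _

/-- The structure is symmetric. -/
theorem Cyc.symm (hP : Valid M P) (hQ : Valid M Q) (h : Cyc M P Q m e) :
    Cyc M Q P m (fun i => e (-i)) := by
  refine ⟨fun i j hij => neg_injective (h.inj hij), fun x => ?_, fun i => ?_, fun i c h1 h2 => ?_,
    fun i => ?_⟩
  · rw [ne_comm, h.range x]
    constructor
    · rintro ⟨i, rfl⟩
      exact ⟨-i, by simp⟩
    · rintro ⟨i, rfl⟩
      exact ⟨-i, rfl⟩
  · have h1 := h.next (-(i + 1))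
    rw [show -(i + 1) + 1 = -i by ring] at h1
    exact h1.symm
  · rw [com_comm]
    exact h.far (-i) c h2 h1
  · have h1 := h.near' hP hQ (-(i + 1))
    have h2 := h.next (-(i + 1))
    rw [show -(i + 1) + 1 = -i by ring] at h1 h2
    rw [h2] at h1
    rw [com_comm]
    exact h1

/-- Proof. If `P (e i) = P (e j)` and `i ≠ j` then `e i ∈ cls P (P (e j)) \ {e j}`. If
`Q (e i) = P (e j)` and `j ≠ i+1` use `near` (`insert (e (i+1)) (com ..) ⊆ cls P _ \ {e j}`). In the remaining
cases use `far`. Conversely `e i ∉ cl (cls P (P (e i)) \ {e i})` by independence, and if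
`e i ∈ cl (cls P c \ {e (i+1)})`, `c = Q (e i) = P (e (i+1))`, then with `near` and
`Indep.closure_inter_eq_inter_closure` `e i ∈ cl (com P Q c)`, contradiction. -/
theorem Cyc.mem_closure_iff (hP : Valid M P) (hQ : Valid M Q) (h : Cyc M P Q m e) (i j : ZMod m) :
    e i ∈ M.closure (cls P (P (e j)) \ {e j}) ↔ (j ≠ i ∧ j ≠ i + 1) := by
  constructor
  · intro hmem
    refine ⟨?_, ?_⟩
    · rintro rfl
      exact (hP (P (e j))).indep.notMem_closure_sdiff_of_mem
        (show e j ∈ cls P (P (e j)) from rfl) hmem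
    · rintro rfl
      have hn := h.near i
      rw [← h.next i] at hmem
      have h1 : (cls P (Q (e i)) \ {e (i + 1)}) ∩ (insert (e (i + 1)) (com P Q (Q (e i))))
          ⊆ com P Q (Q (e i)) := by
        rintro x ⟨⟨_, hx1⟩, hx2⟩
        rcases hx2 with hx2 | hx2
        · exact absurd hx2 hx1
        · exact hx2
      have h2 : M.Indep ((cls P (Q (e i)) \ {e (i + 1)}) ∪
          (insert (e (i + 1)) (com P Q (Q (e i))))) := by
        refine (hP (Q (e i))).indep.subset ?_
        rintro x (hx | hx | hx)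
        · exact hx.1
        · rw [hx]
          exact (h.next i).symm
        · exact hx.1
      have h3 := h2.closure_inter_eq_inter_closure
      have h4 : e i ∈ M.closure ((cls P (Q (e i)) \ {e (i + 1)}) ∩
          (insert (e (i + 1)) (com P Q (Q (e i))))) := by
        rw [h3]
        exact ⟨hmem, hn⟩
      exact h.notMem_closure_com' hQ i (M.closure_subset_closure h1 h4)
  · rintro ⟨h1, h2⟩
    have hcom : com P Q (P (e j)) ⊆ cls P (P (e j)) \ {e j} := by
      intro x hx
      refine ⟨hx.1, fun hxe => ?_⟩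
      rw [mem_singleton_iff] at hxe
      subst hxe
      exact h.ne j hx.2.symm
    by_cases hc : P (e i) = P (e j)
    · refine M.mem_closure_of_mem' ⟨hc, fun hxe => h1 (h.inj hxe).symm⟩ ?_
      exact (hP (P (e j))).subset_ground hc
    by_cases hc' : Q (e i) = P (e j)
    · have hn := h.near i
      rw [hc'] at hn
      refine M.closure_subset_closure ?_ hn
      rintro x (hx | hx)
      · rw [hx]
        refine ⟨?_, fun hxe => h2 (h.inj hxe).symm⟩
        exact (h.next i).symm.trans hc'
      · exact hcom hx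
    · exact M.closure_subset_closure hcom (h.far i _ (Ne.symm hc) (Ne.symm hc'))

/-- mirror image, from `Cyc.symm` -/
theorem Cyc.mem_closure_iff' (hP : Valid M P) (hQ : Valid M Q) (h : Cyc M P Q m e)
    (i j : ZMod m) :
    e i ∈ M.closure (cls Q (Q (e j)) \ {e j}) ↔ (j ≠ i ∧ j ≠ i - 1) := by
  have h1 := (h.symm hP hQ).mem_closure_iff hQ hP (-i) (-j)
  simp only [neg_neg] at h1
  rw [h1]
  refine and_congr (not_congr neg_inj) (not_congr ?_)
  constructor
  · intro h2
    linear_combination -h2
  · intro h2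
    linear_combination -h2

/-- Every proper subset of `{e i}` is independent: if a circuit contained in `range e` contains `e j`
then it has another element outside the hyperplane `cl (cls P (P (e j)) \ {e j})`, which can only be
`e (j-1)` by `Cyc.mem_closure_iff`; so the circuit is all of `range e`. -/
theorem Cyc.indep [NeZero m] (hP : Valid M P) (hQ : Valid M Q) (h : Cyc M P Q m e)
    (S : Set (ZMod m)) (hS : S ≠ univ) : M.Indep (e '' S) := by
  by_contra hdep
  have hE : e '' S ⊆ M.E := by
    rintro _ ⟨i, _, rfl⟩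
    exact (hP (P (e i))).subset_ground (show e i ∈ cls P (P (e i)) from rfl)
  have hD : M.Dep (e '' S) := ⟨hdep, hE⟩
  obtain ⟨C, hCS, hC⟩ := hD.exists_isCircuit_subset
  have hstep : ∀ j, e j ∈ C → e (j - 1) ∈ C := by
    intro j hj
    by_contra hn
    have hsub : C \ {e j} ⊆ M.closure (cls P (P (e j)) \ {e j}) := by
      rintro x ⟨hx, hxj⟩
      obtain ⟨i, _, rfl⟩ := hCS hx
      rw [h.mem_closure_iff hP hQ]
      refine ⟨?_, ?_⟩
      · rintro rfl
        exact hxj rfl
      · intro hji
        apply hn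
        rw [hji, add_sub_cancel_right]
        exact hx
    have h1 : e j ∈ M.closure (C \ {e j}) := hC.mem_closure_sdiff_singleton_of_mem hj
    have h2 := M.closure_subset_closure_of_subset_closure hsub h1
    exact ((h.mem_closure_iff hP hQ j j).1 h2).1 rfl
  obtain ⟨x, hx⟩ := hC.nonempty
  obtain ⟨j, _, rfl⟩ := hCS hx
  have hall : ∀ n : ℕ, e (j - n) ∈ C := by
    intro n
    induction n with
    | zero => simpa using hx
    | succ n ih =>
      have h3 := hstep _ ih
      rwa [show j - ((n + 1 : ℕ) : ZMod m) = j - n - 1 by push_cast; ring]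
  apply hS
  rw [eq_univ_iff_forall]
  intro i
  have h3 := hall (j - i).val
  rw [ZMod.natCast_zmod_val, sub_sub_cancel] at h3
  obtain ⟨i', hi', he⟩ := hCS h3
  rwa [h.inj he] at hi'

/-- Proof. For a circuit `Γ ⊆ insert (e j) (insert (e (j-1)) (com P Q (P (e j))))` containing `e (j-1)` (it
exists by `near` at `j-1`) all elements other than `e (j-1)` would lie in the hyperplane
`H = cl (cls P (P (e (j-1))) \ {e (j-1)})` if `FF` were empty (`e j ∈ H` by `Cyc.mem_closure_iff` since
`3 ≤ m`), so `e (j-1) ∈ H`, contradiction. (An element `f` of `com` is in this circuit iff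
`e (j-1) ∉ cl (insert (e j) (com \ {f}))`.) -/
theorem Cyc.FF_nonempty (hm : 3 ≤ m) (hP : Valid M P) (hQ : Valid M Q) (h : Cyc M P Q m e)
    (j : ZMod m) : (FF M P Q e j).Nonempty := by
  have hc : Q (e (j - 1)) = P (e j) := by
    have h1 := h.next (j - 1)
    rwa [sub_add_cancel] at h1
  have hnear : e (j - 1) ∈ M.closure (insert (e j) (com P Q (P (e j)))) := by
    have h1 := h.near (j - 1)
    rwa [sub_add_cancel, hc] at h1
  have hsub : insert (e j) (com P Q (P (e j))) ⊆ cls P (P (e j)) := by
    rw [insert_subset_iff]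
    exact ⟨rfl, inter_subset_left⟩
  have hI : M.Indep (insert (e j) (com P Q (P (e j)))) := (hP _).indep.subset hsub
  have hone : (1 : ZMod m) ≠ 0 := by
    intro h1
    have h2 : ((1 : ℕ) : ZMod m) = 0 := by exact_mod_cast h1
    have h3 := Nat.le_of_dvd one_pos ((ZMod.natCast_eq_zero_iff 1 m).1 h2)
    omega
  have htwo : (2 : ZMod m) ≠ 0 := by
    intro h1
    have h2 : ((2 : ℕ) : ZMod m) = 0 := by exact_mod_cast h1
    have h3 := Nat.le_of_dvd two_pos ((ZMod.natCast_eq_zero_iff 2 m).1 h2)
    omega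
  have hj : e j ∈ M.closure (cls P (P (e (j - 1))) \ {e (j - 1)}) := by
    rw [h.mem_closure_iff hP hQ]
    refine ⟨?_, ?_⟩
    · intro h1
      apply hone
      linear_combination -h1
    · intro h1
      apply htwo
      linear_combination -h1
  have hnot : e (j - 1) ∉ M.closure (cls P (P (e (j - 1))) \ {e (j - 1)}) := by
    rw [h.mem_closure_iff hP hQ]
    exact fun h1 => h1.1 rfl
  by_contra hne
  rw [not_nonempty_iff_eq_empty, eq_empty_iff_forall_notMem] at hne
  have hall : ∀ f ∈ com P Q (P (e j)),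
      e (j - 1) ∉ M.closure (insert (e j) (com P Q (P (e j)) \ {f})) →
      f ∈ M.closure (cls P (P (e (j - 1))) \ {e (j - 1)}) := by
    intro f hf h1
    by_contra h2
    exact hne f ⟨hf, h1, h2⟩
  let I : Set E := insert (e j) (com P Q (P (e j)))
  let Js : Set (Set E) := {J | J ⊆ I ∧ e (j - 1) ∈ M.closure J}
  have hJI : I ∈ Js := ⟨Subset.rfl, hnear⟩
  have hcl : M.closure (⋂₀ Js) = (⋂ J ∈ Js, M.closure J) :=
    Matroid.Indep.closure_sInter_eq_biInter_closure_of_forall_subset (I := I) hI ⟨I, hJI⟩
      (fun J hJ => hJ.1)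
  have hmem : e (j - 1) ∈ M.closure (⋂₀ Js) := by
    rw [hcl]
    exact mem_iInter₂.2 fun J hJ => hJ.2
  have hT : ⋂₀ Js ⊆ M.closure (cls P (P (e (j - 1))) \ {e (j - 1)}) := by
    intro f hf
    have hfI : f ∈ I := hf I hJI
    rcases mem_insert_iff.1 hfI with rfl | hfc
    · exact hj
    · by_cases hfe : f = e j
      · rw [hfe]
        exact hj
      apply hall f hfc
      intro h1
      have h2 : insert (e j) (com P Q (P (e j)) \ {f}) ∈ Js :=
        ⟨insert_subset_insert sdiff_subset, h1⟩
      rcases mem_insert_iff.1 (hf _ h2) with h3 | h3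
      · exact hfe h3
      · exact h3.2 rfl
  exact hnot (M.closure_subset_closure_of_subset_closure hT hmem)

/-- mirror image: `GG` of `(P, Q, e)` at `j` is `FF` of `(Q, P, i ↦ e (-i))` at `1 - j` -/
theorem Cyc.GG_eq (hP : Valid M P) (hQ : Valid M Q) (h : Cyc M P Q m e) (j : ZMod m) :
    GG M P Q e j = FF M Q P (fun i => e (-i)) (1 - j) := by
  have hc : Q (e (j - 1)) = P (e j) := by
    have h1 := h.next (j - 1)
    rwa [sub_add_cancel] at h1
  have e1 : -(1 - j) = j - 1 := by ring
  have e2 : -(1 - j - 1) = j := by ring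
  have e3 : com Q P (Q (e (j - 1))) = com P Q (P (e j)) := by
    rw [hc]
    exact inter_comm _ _
  have h1 : e j ∉ M.closure (com P Q (P (e j))) := h.notMem_closure_com hP j
  have h2 : e (j - 1) ∉ M.closure (com P Q (P (e j))) := by
    have h3 := h.notMem_closure_com' hQ (j - 1)
    rwa [hc] at h3
  ext g
  simp only [GG, FF, mem_ofPred_eq, e1, e2, e3]
  have key : e (j - 1) ∈ M.closure (insert (e j) (com P Q (P (e j)) \ {g})) ↔
      e j ∈ M.closure (insert (e (j - 1)) (com P Q (P (e j)) \ {g})) := by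
    have h3 : e j ∉ M.closure (com P Q (P (e j)) \ {g}) := fun h4 =>
      h1 (M.closure_subset_closure sdiff_subset h4)
    have h5 : e (j - 1) ∉ M.closure (com P Q (P (e j)) \ {g}) := fun h4 =>
      h2 (M.closure_subset_closure sdiff_subset h4)
    constructor
    · intro h6
      exact (M.closure_exchange ⟨h6, h5⟩).1
    · intro h6
      exact (M.closure_exchange ⟨h6, h3⟩).1
  rw [key]

theorem Cyc.GG_nonempty (hm : 3 ≤ m) (hP : Valid M P) (hQ : Valid M Q) (h : Cyc M P Q m e)
    (j : ZMod m) : (GG M P Q e j).Nonempty := by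
  rw [Cyc.GG_eq hP hQ h]
  exact Cyc.FF_nonempty hm hQ hP (h.symm hP hQ) _

end Pool.Agent.MP_d4f4ab_ag
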