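import Pool.Agent.MP_d4f4ab_ag.Defs
import Pool.Agent.MP_d4f4ab_ag.C3
import Pool.Agent.MP_d4f4ab_ag.C4

/-! [WH-C6] swapping `e (j-1)` with an element of `FF j`. -/

open Set

namespace Pool.Agent.MP_d4f4ab_ag

variable {E C : Type*} [Fintype E] [DecidableEq E] [DecidableEq C] {M : Matroid E}
  {P Q : E → C} {m : ℕ} {e : ZMod m → E} {t : ℕ}

/-- Proof. Put `c = P (e j) = Q (e (j-1))`, `c' = P (e (j-1))`, `P' = P ∘ swap`. `c ≠ c'`. `cls P' c` is
`cls P c` with `f` replaced by `e (j-1)`; it is a base because `e (j-1) ∉ cl (cls P c \ {f})`: otherwise, as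
`e (j-1) ∈ cl (insert (e j) (com P Q c))` by `near`, `e (j-1)` would be in
`cl (insert (e j) (com P Q c \ {f}))` (`Indep.closure_inter_eq_inter_closure` in `cls P c`).
`cls P' c'` is `cls P c'` with `e (j-1)` replaced by `f`; it is a base since `f ∉ cl (cls P c' \ {e (j-1)})`.
The other classes do not change. `T = {c, c'}` gives the move. `P'` and `Q` differ exactly in
`range e \ {e (j-1)} ∪ {f}`. -/
theorem swap_minPair (ht : 2 ≤ t) (h : MinPair M t P Q) (hc : Cyc M P Q m e) {j : ZMod m} {f : E}
    (hf : f ∈ FF M P Q e j) :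
    Valid M (P ∘ Equiv.swap (e (j - 1)) f) ∧ Conn M t P (P ∘ Equiv.swap (e (j - 1)) f) ∧
      MinPair M t (P ∘ Equiv.swap (e (j - 1)) f) Q ∧
      hammingDist (P ∘ Equiv.swap (e (j - 1)) f) Q = hammingDist P Q := by
  obtain ⟨⟨hfP, hfQ⟩, hf2, hf3⟩ := hf
  have hfP : P f = P (e j) := hfP
  have hfQ : Q f = P (e j) := hfQ
  have hQu : Q (e (j - 1)) = P (e j) := by
    have := hc.next (j - 1)
    rwa [sub_add_cancel] at this
  have hne : P (e (j - 1)) ≠ Q (e (j - 1)) := (hc.range _).2 ⟨_, rfl⟩
  have hnej : P (e j) ≠ Q (e j) := (hc.range _).2 ⟨_, rfl⟩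
  have hnear : e (j - 1) ∈ M.closure (insert (e j) (com P Q (P (e j)))) := by
    have := hc.near (j - 1)
    rwa [sub_add_cancel, hQu] at this
  set u := e (j - 1) with hu
  set c := P (e j) with hcdef
  set c' := P u with hc'def
  have hcc : c' ≠ c := by rw [← hQu]; exact hne
  have huf : u ≠ f := by
    intro h1
    apply hcc
    rw [hc'def, h1]
    exact hfP
  have hejf : e j ≠ f := by
    intro h1
    apply hnej
    rw [h1, hfQ, ← hfP]
  set P' : E → C := P ∘ Equiv.swap u f with hP'
  have pu : P' u = c := by simp [hP', hfP]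
  have pf : P' f = c' := by simp [hP', hc'def]
  have po : ∀ y, y ≠ u → y ≠ f → P' y = P y := by
    intro y h1 h2
    simp [hP', Equiv.swap_apply_of_ne_of_ne h1 h2]
  have cls_c : cls P' c = insert u (cls P c \ {f}) := by
    ext y
    simp only [cls, Set.mem_ofPred_eq, Set.mem_insert_iff, Set.mem_sdiff, Set.mem_singleton_iff]
    by_cases h1 : y = u
    · subst h1; simp [pu]
    · by_cases h2 : y = f
      · subst h2; simp [pf, hcc, h1]
      · rw [po y h1 h2]; simp [h1, h2]
  have cls_c' : cls P' c' = insert f (cls P c' \ {u}) := by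
    ext y
    simp only [cls, Set.mem_ofPred_eq, Set.mem_insert_iff, Set.mem_sdiff, Set.mem_singleton_iff]
    by_cases h1 : y = u
    · subst h1; simp [pu, hcc.symm, huf]
    · by_cases h2 : y = f
      · subst h2; simp [pf]
      · rw [po y h1 h2]; simp [h1, h2]
  have cls_o : ∀ d, d ≠ c → d ≠ c' → cls P' d = cls P d := by
    intro d hd hd'
    ext y
    simp only [cls, Set.mem_ofPred_eq]
    by_cases h1 : y = u
    · subst h1
      rw [pu]
      exact ⟨fun h2 => absurd h2.symm hd, fun h2 => absurd h2.symm hd'⟩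
    · by_cases h2 : y = f
      · subst h2
        rw [pf, hfP]
        exact ⟨fun h2 => absurd h2.symm hd', fun h2 => absurd h2.symm hd⟩
      · rw [po y h1 h2]
  have hfE : f ∈ M.E := (h.hP c).subset_ground hfP
  have huE : u ∈ M.E := M.closure_subset_ground _ hnear
  have b1 : M.IsBase (cls P' c) := by
    rw [cls_c]
    refine (h.hP c).exchange_base_of_notMem_closure (e := f) hfP ?_ huE
    intro h1
    apply hf2
    have h2 : insert (e j) (com P Q c \ {f}) = insert (e j) (com P Q c) ∩ (cls P c \ {f}) := by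
      ext y
      simp only [com, cls, Set.mem_ofPred_eq, Set.mem_insert_iff, Set.mem_sdiff,
        Set.mem_singleton_iff, Set.mem_inter_iff]
      constructor
      · rintro (rfl | ⟨⟨h3, h4⟩, h5⟩)
        · exact ⟨Or.inl rfl, rfl, hejf⟩
        · exact ⟨Or.inr ⟨h3, h4⟩, h3, h5⟩
      · rintro ⟨h3 | h3, h4, h5⟩
        · exact Or.inl h3
        · exact Or.inr ⟨h3, h5⟩
    have h3 : M.Indep (insert (e j) (com P Q c) ∪ (cls P c \ {f})) := by
      apply (h.hP c).indep.subset
      apply Set.union_subset _ Set.sdiff_subset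
      intro y hy
      rcases hy with rfl | hy
      · rfl
      · exact hy.1
    rw [h2, h3.closure_inter_eq_inter_closure]
    exact ⟨hnear, h1⟩
  have b2 : M.IsBase (cls P' c') := by
    rw [cls_c']
    exact (h.hP c').exchange_base_of_notMem_closure (e := u) rfl hf3 hfE
  have hval : Valid M P' := by
    intro d
    by_cases h1 : d = c
    · rw [h1]; exact b1
    · by_cases h2 : d = c'
      · rw [h2]; exact b2
      · rw [cls_o d h1 h2]; exact h.hP d
  have hconn : Conn M t P P' := by
    apply Relation.ReflTransGen.single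
    refine ⟨h.hP, hval, {c, c'}, Finset.card_le_two.trans ht, ?_⟩
    intro d hd
    simp only [Finset.mem_insert, Finset.mem_singleton, not_or] at hd
    exact (cls_o d hd.1 hd.2).symm
  have hdist : hammingDist P' Q = hammingDist P Q := by
    unfold hammingDist
    apply Finset.card_equiv (Equiv.swap u f)
    intro y
    rw [Finset.mem_filter, Finset.mem_filter]
    simp only [Finset.mem_univ, true_and]
    by_cases h1 : y = u
    · subst h1
      rw [Equiv.swap_apply_left, pu, hQu, hfP, hfQ]
    · by_cases h2 : y = f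
      · subst h2
        rw [Equiv.swap_apply_right, pf, hfQ, hQu]
      · rw [Equiv.swap_apply_of_ne_of_ne h1 h2, po y h1 h2]
  refine ⟨hval, hconn, ⟨hval, h.hQ, ?_, ?_⟩, hdist⟩
  · intro h1
    exact h.nconn (Relation.ReflTransGen.trans hconn h1)
  · intro P1 Q1 h1 h2 h3
    rw [hdist]
    exact h.min P1 Q1 h1 h2 h3

end Pool.Agent.MP_d4f4ab_ag
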