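import Pool.Agent.MP_d4f4ab_ag.Defs
import Pool.Agent.MP_d4f4ab_ag.C6

/-! [WH-C7] consequences of the swap. -/

open Set

namespace Pool.Agent.MP_d4f4ab_ag

variable {E C : Type*} [Fintype E] [DecidableEq E] [DecidableEq C] {M : Matroid E}
  {P Q : E → C} {m : ℕ} {e : ZMod m → E} {t : ℕ}

/-- facts about the swapped colouring (file-internal) -/
structure SwapFacts (P Q : E → C) (e : ZMod m → E) (j : ZMod m) (f : E) (P' : E → C) : Prop where
  Pf : P f = P (e j)
  Qf : Q f = P (e j)
  Qj1 : Q (e (j - 1)) = P (e j)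
  ne : P (e (j - 1)) ≠ P (e j)
  P'j1 : P' (e (j - 1)) = P (e j)
  P'f : P' f = P (e (j - 1))
  P'x : ∀ x, x ≠ e (j - 1) → x ≠ f → P' x = P x

omit [Fintype E] [DecidableEq C] in
theorem c7_facts (hc : Cyc M P Q m e) {j : ZMod m} {f : E} (hf : f ∈ FF M P Q e j) :
    SwapFacts P Q e j f (P ∘ Equiv.swap (e (j - 1)) f) := by
  have hPf : P f = P (e j) := hf.1.1
  have hQf : Q f = P (e j) := hf.1.2
  have hQ : Q (e (j - 1)) = P (e j) := by
    rw [hc.next (j - 1), sub_add_cancel]
  have hne : P (e (j - 1)) ≠ P (e j) := by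
    rw [← hQ]
    exact (hc.range _).2 ⟨_, rfl⟩
  refine ⟨hPf, hQf, hQ, hne, ?_, ?_, ?_⟩
  · rw [Function.comp_apply, Equiv.swap_apply_left, hPf]
  · rw [Function.comp_apply, Equiv.swap_apply_right]
  · intro x h1 h2
    rw [Function.comp_apply, Equiv.swap_apply_of_ne_of_ne h1 h2]

omit [Fintype E] [DecidableEq E] [DecidableEq C] in
/-- an element of the cycle is not `f` -/
theorem SwapFacts.ne_f {P' : E → C} (hc : Cyc M P Q m e) {j : ZMod m} {f : E}
    (h : SwapFacts P Q e j f P') (l : ZMod m) : e l ≠ f := by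
  intro hl
  have h1 : P (e l) ≠ Q (e l) := (hc.range _).2 ⟨l, rfl⟩
  rw [hl, h.Pf, h.Qf] at h1
  exact h1 rfl

omit [Fintype E] [DecidableEq E] [DecidableEq C] in
theorem SwapFacts.com_eq {P' : E → C} {j : ZMod m} {f : E} (h : SwapFacts P Q e j f P') :
    com P' Q (P (e j)) = insert (e (j - 1)) (com P Q (P (e j)) \ {f}) := by
  ext x
  constructor
  · rintro ⟨h1, h2⟩
    by_cases hx : x = e (j - 1)
    · exact Or.inl hx
    · right
      have hxf : x ≠ f := by
        rintro rfl
        have h3 : P' x = P (e j) := h1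
        rw [h.P'f] at h3
        exact h.ne h3
      refine ⟨⟨?_, h2⟩, hxf⟩
      show P x = P (e j)
      rw [← h.P'x x hx hxf]
      exact h1
  · rintro (rfl | ⟨⟨h1, h2⟩, h3⟩)
    · exact ⟨h.P'j1, h.Qj1⟩
    · have hx : x ≠ e (j - 1) := by
        rintro rfl
        exact h.ne h1
      refine ⟨?_, h2⟩
      show P' x = P (e j)
      rw [h.P'x x hx h3]
      exact h1

omit [Fintype E] [DecidableEq E] [DecidableEq C] in
theorem SwapFacts.com_eq' {P' : E → C} {j : ZMod m} {f : E} (h : SwapFacts P Q e j f P') :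
    com P' Q (P (e (j - 1))) = com P Q (P (e (j - 1))) := by
  ext x
  by_cases hx : x = e (j - 1)
  · subst hx
    constructor
    · rintro ⟨_, h2⟩
      exact absurd (h2.symm.trans h.Qj1) h.ne
    · rintro ⟨_, h2⟩
      exact absurd (h2.symm.trans h.Qj1) h.ne
  · by_cases hxf : x = f
    · subst hxf
      constructor
      · rintro ⟨_, h2⟩
        exact absurd (h2.symm.trans h.Qf) h.ne
      · rintro ⟨_, h2⟩
        exact absurd (h2.symm.trans h.Qf) h.ne
    · unfold com cls
      simp only [mem_inter_iff, mem_ofPred_eq, h.P'x x hx hxf]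

/-- Proof. `P' = P ∘ swap (e (j-1)) f`, `c = P (e j)`. By `swap_minPair` and `exists_cyc` there is a cyclic
structure `e'` for `(P', Q)`. `com P' Q c = insert (e (j-1)) (com P Q c \ {f})`. `e l` (`l ≠ j-1` since
`Q (e (j-1)) = c`) is in `range e'` and has the same `P'`- and `Q`-colour, so `far` gives
`e l ∈ cl (com P' Q c)`. Also `e l ∈ cl (com P Q c)`, and `insert (e (j-1)) (com P Q c) ⊆ cls Q c` is
independent, so `e l ∈ cl (com P Q c \ {f})`. -/
theorem FF_far (hE : M.E = univ) (ht : 2 ≤ t) (h : MinPair M t P Q) (hc : Cyc M P Q m e)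
    {j : ZMod m} {f : E} (hf : f ∈ FF M P Q e j) (l : ZMod m) (h1 : P (e j) ≠ P (e l))
    (h2 : P (e j) ≠ Q (e l)) : e l ∈ M.closure (com P Q (P (e j)) \ {f}) := by
  obtain ⟨_, _, hmin, _⟩ := swap_minPair ht h hc hf
  have hF := c7_facts hc hf
  generalize (P ∘ Equiv.swap (e (j - 1)) f) = P' at hmin hF
  obtain ⟨e', hc'⟩ := exists_cyc M hE hmin
  have hlf : e l ≠ f := hF.ne_f hc l
  have hlj : e l ≠ e (j - 1) := by
    intro hl
    rw [hl] at h2
    exact h2 hF.Qj1.symm
  have hP' : P' (e l) = P (e l) := hF.P'x _ hlj hlf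
  have hr : P' (e l) ≠ Q (e l) := by
    rw [hP']
    exact (hc.range _).2 ⟨l, rfl⟩
  obtain ⟨a, ha⟩ := (hc'.range _).1 hr
  have k1 := hc'.far a (P (e j)) (by rw [ha, hP']; exact h1) (by rw [ha]; exact h2)
  rw [ha, hF.com_eq] at k1
  have k2 := hc.far l (P (e j)) h1 h2
  have hI : M.Indep (insert (e (j - 1)) (com P Q (P (e j)) \ {f}) ∪ com P Q (P (e j))) := by
    refine (h.hQ (P (e j))).indep.subset ?_
    rintro x ((rfl | hx) | hx)
    · exact hF.Qj1
    · exact hx.1.2
    · exact hx.2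
  have k3 : e l ∈ M.closure (insert (e (j - 1)) (com P Q (P (e j)) \ {f}) ∩
      com P Q (P (e j))) := by
    rw [hI.closure_inter_eq_inter_closure]
    exact ⟨k1, k2⟩
  refine M.closure_subset_closure ?_ k3
  rintro x ⟨rfl | hx, hx2⟩
  · exact absurd hx2.1 hF.ne
  · exact hx

/-- Proof. As before, `e'` for `(P', Q)`, `c = P (e j) = P (e s)`, `e (s-1) = e' a`, `u' = e' (a+1)`,
`P' u' = Q (e (s-1)) = c`, so `u' = e u` with `P (e u) = c` (`u' ≠ f` since `P' f ≠ c`; `u ≠ j-1` since
`P' (e (j-1)) = c = Q (e (j-1))`), and `e (s-1) ∈ cl (insert (e u) (insert (e (j-1)) (com P Q c \ {f})))`; also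
`e (s-1) ∈ cl (insert (e s) (com P Q c))`. Recall that `insert (e (j-1)) (cls P c \ {e j})` is a base
(`Cyc.mem_closure_iff`).
* `u = s`: intersect, inside that base: `e (s-1) ∈ cl (insert (e s) (com \ {f}))`. Done.
* `u ≠ s, j`: intersect, inside that base: `e (s-1) ∈ cl (com \ {f})`, contradiction with
  `notMem_closure_com'`.
* `u = j`: `cl (insert (e j) (insert (e (j-1)) (com \ {f}))) ⊆ cl (insert (e j) com)` by `near`; intersect with
  `cl (insert (e s) com)` inside `cls P c`: `e (s-1) ∈ cl com`, contradiction. -/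
theorem FF_near (hE : M.E = univ) (ht : 2 ≤ t) (h : MinPair M t P Q) (hc : Cyc M P Q m e)
    {j : ZMod m} {f : E} (hf : f ∈ FF M P Q e j) (s : ZMod m) (hs : s ≠ j)
    (h1 : P (e s) = P (e j)) :
    e (s - 1) ∈ M.closure (insert (e s) (com P Q (P (e j)) \ {f})) := by
  obtain ⟨_, _, hmin, _⟩ := swap_minPair ht h hc hf
  have hF := c7_facts hc hf
  generalize (P ∘ Equiv.swap (e (j - 1)) f) = P' at hmin hF
  obtain ⟨e', hc'⟩ := exists_cyc M hE hmin
  have hQs : Q (e (s - 1)) = P (e j) := by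
    rw [hc.next (s - 1), sub_add_cancel, h1]
  have hsf : e (s - 1) ≠ f := hF.ne_f hc _
  have hsj : e (s - 1) ≠ e (j - 1) := by
    intro hh
    have := hc.inj hh
    exact hs (by simpa using this)
  have hP' : P' (e (s - 1)) = P (e (s - 1)) := hF.P'x _ hsj hsf
  have hr : P' (e (s - 1)) ≠ Q (e (s - 1)) := by
    rw [hP']
    exact (hc.range _).2 ⟨_, rfl⟩
  obtain ⟨a, ha⟩ := (hc'.range _).1 hr
  -- the next element of `e'`
  have hu1 : P' (e' (a + 1)) = P (e j) := by
    rw [← hc'.next a, ha, hQs]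
  have hu2 : P' (e' (a + 1)) ≠ Q (e' (a + 1)) := (hc'.range _).2 ⟨_, rfl⟩
  have hu3 : e' (a + 1) ≠ f := by
    intro hh
    rw [hh, hF.P'f] at hu1
    exact hF.ne hu1
  have hu4 : e' (a + 1) ≠ e (j - 1) := by
    intro hh
    rw [hh, hF.P'j1, hF.Qj1] at hu2
    exact hu2 rfl
  have hu5 : P' (e' (a + 1)) = P (e' (a + 1)) := hF.P'x _ hu4 hu3
  obtain ⟨u, hu⟩ := (hc.range (e' (a + 1))).1 (by rw [← hu5]; exact hu2)
  have hPu : P (e u) = P (e j) := by rw [hu, ← hu5, hu1]
  have k1 := hc'.near a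
  rw [ha, hQs, ← hu, hF.com_eq] at k1
  have k2 := hc.near (s - 1)
  rw [sub_add_cancel, hQs] at k2
  -- `e (s-1) ∉ cl com`
  have k0 : e (s - 1) ∉ M.closure (com P Q (P (e j))) := by
    have := Cyc.notMem_closure_com' h.hQ hc (s - 1)
    rwa [hQs] at this
  -- elements of the cycle are not in `com`
  have hcom : ∀ i, e i ∉ com P Q (P (e j)) := by
    rintro i ⟨g1, g2⟩
    exact (hc.range (e i)).2 ⟨i, rfl⟩ (g1.trans g2.symm)
  have hj1cls : e (j - 1) ∉ cls P (P (e j)) := hF.ne
  by_cases huj : u = j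
  · exfalso
    subst huj
    have k3 : e (s - 1) ∈ M.closure (insert (e u) (com P Q (P (e u)))) := by
      have k4 : M.closure (insert (e u) (insert (e (u - 1)) (com P Q (P (e u)) \ {f}))) ⊆
          M.closure (insert (e u) (com P Q (P (e u)))) := by
        apply M.closure_subset_closure_of_subset_closure
        have k5 : insert (e u) (com P Q (P (e u))) ⊆ M.E := by rw [hE]; exact subset_univ _
        rintro x (rfl | rfl | hx)
        · exact M.mem_closure_of_mem (mem_insert _ _) k5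
        · have := hc.near (u - 1)
          rwa [sub_add_cancel, hF.Qj1] at this
        · exact M.mem_closure_of_mem (mem_insert_of_mem _ hx.1) k5
      exact k4 k1
    apply k0
    have hI : M.Indep (insert (e u) (com P Q (P (e u))) ∪ insert (e s) (com P Q (P (e u)))) := by
      refine (h.hP (P (e u))).indep.subset ?_
      rintro x ((rfl | hx) | (rfl | hx))
      · rfl
      · exact hx.1
      · exact h1
      · exact hx.1
    have k6 : e (s - 1) ∈ M.closure (insert (e u) (com P Q (P (e u))) ∩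
        insert (e s) (com P Q (P (e u)))) := by
      rw [hI.closure_inter_eq_inter_closure]
      exact ⟨k3, k2⟩
    refine M.closure_subset_closure ?_ k6
    rintro x ⟨rfl | hx, hx2⟩
    · rcases hx2 with hx2 | hx2
      · exact absurd (hc.inj hx2).symm hs
      · exact hx2
    · exact hx
  · -- the base `insert (e (j-1)) (cls P c \ {e j})`
    have hB : M.Indep (insert (e (j - 1)) (cls P (P (e j)) \ {e j})) := by
      have g1 : M.Indep (cls P (P (e j)) \ {e j}) := (h.hP _).indep.subset sdiff_subset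
      rw [g1.insert_indep_iff]
      left
      refine ⟨by rw [hE]; exact mem_univ _, ?_⟩
      rw [Cyc.mem_closure_iff h.hP h.hQ hc (j - 1) j]
      rintro ⟨_, g2⟩
      exact g2 (sub_add_cancel j 1).symm
    have hI : M.Indep (insert (e u) (insert (e (j - 1)) (com P Q (P (e j)) \ {f})) ∪
        insert (e s) (com P Q (P (e j)))) := by
      refine hB.subset ?_
      rintro x ((rfl | rfl | hx) | (rfl | hx))
      · right
        exact ⟨hPu, fun hh => huj (hc.inj hh)⟩
      · left; rfl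
      · right
        refine ⟨hx.1.1, ?_⟩
        rintro rfl
        exact hcom _ hx.1
      · right
        exact ⟨h1, fun hh => hs (hc.inj hh)⟩
      · right
        refine ⟨hx.1, ?_⟩
        rintro rfl
        exact hcom _ hx
    have k6 : e (s - 1) ∈ M.closure (insert (e u) (insert (e (j - 1)) (com P Q (P (e j)) \ {f})) ∩
        insert (e s) (com P Q (P (e j)))) := by
      rw [hI.closure_inter_eq_inter_closure]
      exact ⟨k1, k2⟩
    have hj1s : e (j - 1) ≠ e s := by
      intro hh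
      apply hF.ne
      rw [hh, h1]
    by_cases hus : u = s
    · subst hus
      refine M.closure_subset_closure ?_ k6
      rintro x ⟨rfl | rfl | hx, hx2⟩
      · exact mem_insert _ _
      · rcases hx2 with hx2 | hx2
        · exact absurd hx2 hj1s
        · exact absurd hx2 (hcom _)
      · exact mem_insert_of_mem _ hx
    · exfalso
      apply k0
      refine M.closure_subset_closure ?_ k6
      rintro x ⟨rfl | rfl | hx, hx2⟩
      · rcases hx2 with hx2 | hx2
        · exact absurd (hc.inj hx2) hus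
        · exact hx2
      · rcases hx2 with hx2 | hx2
        · exact absurd hx2 hj1s
        · exact hx2
      · exact hx.1

/-- Proof. `e'` for `(P', Q)`, `c' = P (e (j-1)) = P' f`, `f = e' a`, `e j = e' b`. By
`Cyc.mem_closure_iff'` for `(P', Q, e')` it is enough that `b ≠ a` (clear) and `b ≠ a - 1`. Suppose
`b = a - 1`. Then `Q (e j) = P' f = c'` and `near` for `e'` gives `e j ∈ cl (insert f (com P Q c'))`
(`com P' Q c' = com P Q c'`). `e j ∉ cl (com P Q c')` (`notMem_closure_com'`), so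
`f ∈ cl (insert (e j) (com P Q c'))` by exchange. But `com P Q c' ⊆ H = cl (cls P c' \ {e (j-1)})`, and
`e j ∈ H` by `Cyc.mem_closure_iff` as `3 ≤ m`. So `f ∈ H`, contradiction to `hf`. -/
theorem FF_mem_closure (hE : M.E = univ) (ht : 2 ≤ t) (hm : 3 ≤ m) (h : MinPair M t P Q)
    (hc : Cyc M P Q m e) {j : ZMod m} {f : E} (hf : f ∈ FF M P Q e j) :
    f ∈ M.closure (cls Q (Q (e j)) \ {e j}) := by
  obtain ⟨hV, _, hmin, _⟩ := swap_minPair ht h hc hf
  have hF := c7_facts hc hf
  generalize (P ∘ Equiv.swap (e (j - 1)) f) = P' at hmin hF hV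
  obtain ⟨e', hc'⟩ := exists_cyc M hE hmin
  have hone : (1 : ZMod m) ≠ 0 := by
    have : Fact (1 < m) := ⟨by omega⟩
    exact one_ne_zero
  have htwo : (2 : ZMod m) ≠ 0 := by
    intro h0
    have h2 : ((2 : ℕ) : ZMod m) = 0 := by exact_mod_cast h0
    rw [ZMod.natCast_eq_zero_iff] at h2
    exact absurd (Nat.le_of_dvd (by norm_num) h2) (by omega)
  have hjj : j - 1 ≠ j := by
    intro hh
    exact hone (by simpa using hh)
  -- `f = e' a`
  have hrf : P' f ≠ Q f := by rw [hF.P'f, hF.Qf]; exact hF.ne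
  obtain ⟨a, ha⟩ := (hc'.range _).1 hrf
  have hejf : e j ≠ f := hF.ne_f hc j
  have hejj : e j ≠ e (j - 1) := fun hh => hjj (hc.inj hh).symm
  have hPj : P' (e j) = P (e j) := hF.P'x _ hejj hejf
  have hrj : P' (e j) ≠ Q (e j) := by
    rw [hPj]
    exact (hc.range _).2 ⟨_, rfl⟩
  obtain ⟨b, hb⟩ := (hc'.range _).1 hrj
  have key := Cyc.mem_closure_iff' hV hmin.hQ hc' a b
  rw [ha, hb] at key
  rw [key]
  refine ⟨?_, ?_⟩
  · rintro rfl
    exact hejf (hb.symm.trans ha)
  · intro hba
    have hab : b + 1 = a := by rw [hba]; ring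
    have hQj : Q (e j) = P (e (j - 1)) := by
      rw [← hb, hc'.next b, hab, ha, hF.P'f]
    have k1 := hc'.near b
    rw [hab, ha, hb, hQj, hF.com_eq'] at k1
    have k2 : e j ∉ M.closure (com P Q (P (e (j - 1)))) := by
      have := Cyc.notMem_closure_com' h.hQ hc j
      rwa [hQj] at this
    have k3 : f ∈ M.closure (insert (e j) (com P Q (P (e (j - 1))))) :=
      M.mem_closure_insert k2 k1
    apply hf.2.2
    have k4 : insert (e j) (com P Q (P (e (j - 1)))) ⊆
        M.closure (cls P (P (e (j - 1))) \ {e (j - 1)}) := by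
      rintro x (rfl | hx)
      · rw [Cyc.mem_closure_iff h.hP h.hQ hc j (j - 1)]
        refine ⟨hjj, ?_⟩
        intro hh
        apply htwo
        have : (2 : ZMod m) = (j + 1) - (j - 1) := by ring
        rw [this, ← hh, sub_self]
      · refine M.mem_closure_of_mem ⟨hx.1, ?_⟩ (by rw [hE]; exact subset_univ _)
        rintro rfl
        exact hF.ne (hx.2.symm.trans hF.Qj1)
    exact M.closure_subset_closure_of_subset_closure k4 k3

/-- the mirror images, from `Cyc.symm` and `Cyc.GG_eq` (note that `MinPair` is symmetric) -/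
theorem MinPair.symm (h : MinPair M t P Q) : MinPair M t Q P where
  hP := h.hQ
  hQ := h.hP
  nconn hc := h.nconn (Conn.symm hc)
  min P' Q' hP' hQ' hn := by
    rw [hammingDist_comm]
    exact h.min P' Q' hP' hQ' hn

omit [Fintype E] [DecidableEq E] [DecidableEq C] in
theorem c7b_com_comm (P Q : E → C) (c : C) : com Q P c = com P Q c :=
  Set.inter_comm _ _

theorem GG_far (hE : M.E = univ) (ht : 2 ≤ t) (h : MinPair M t P Q) (hc : Cyc M P Q m e)
    {j : ZMod m} {g : E} (hg : g ∈ GG M P Q e j) (l : ZMod m) (h1 : P (e j) ≠ P (e l))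
    (h2 : P (e j) ≠ Q (e l)) : e l ∈ M.closure (com P Q (P (e j)) \ {g}) := by
  rw [Cyc.GG_eq h.hP h.hQ hc] at hg
  have hn : Q (e (j - 1)) = P (e j) := by rw [hc.next, sub_add_cancel]
  have ha : e (-(1 - j)) = e (j - 1) := congrArg e (neg_sub 1 j)
  have hb : e (- -l) = e l := congrArg e (neg_neg l)
  have h3 := FF_far hE ht h.symm (hc.symm h.hP h.hQ) hg (-l)
    (by rw [ha, hb, hn]; exact h2) (by rw [ha, hb, hn]; exact h1)
  rwa [ha, hb, hn, c7b_com_comm] at h3

/-- mirror image of `FF_near`, then exchange `e s` and `e (s-1)` -/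
theorem GG_near (hE : M.E = univ) (ht : 2 ≤ t) (h : MinPair M t P Q) (hc : Cyc M P Q m e)
    {j : ZMod m} {g : E} (hg : g ∈ GG M P Q e j) (s : ZMod m) (hs : s ≠ j)
    (h1 : P (e s) = P (e j)) :
    e (s - 1) ∈ M.closure (insert (e s) (com P Q (P (e j)) \ {g})) := by
  rw [Cyc.GG_eq h.hP h.hQ hc] at hg
  have hn : Q (e (j - 1)) = P (e j) := by rw [hc.next, sub_add_cancel]
  have hn' : Q (e (s - 1)) = P (e s) := by rw [hc.next, sub_add_cancel]
  have ha : e (-(1 - j)) = e (j - 1) := congrArg e (neg_sub 1 j)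
  have hb : e (-(1 - s)) = e (s - 1) := congrArg e (neg_sub 1 s)
  have hd : e (-(1 - s - 1)) = e s := congrArg e (by ring)
  have h3 := FF_near hE ht h.symm (hc.symm h.hP h.hQ) hg (1 - s)
    (fun h4 => hs (sub_right_injective h4)) (by rw [ha, hb, hn, hn']; exact h1)
  rw [ha, hb, hd, hn, c7b_com_comm] at h3
  have h5 : e s ∉ M.closure (com P Q (P (e j)) \ {g}) := by
    intro h6
    apply hc.notMem_closure_com h.hP s
    rw [h1]
    exact M.closure_subset_closure sdiff_subset h6
  exact (Matroid.closure_exchange ⟨h3, h5⟩).1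

theorem GG_mem_closure (hE : M.E = univ) (ht : 2 ≤ t) (hm : 3 ≤ m) (h : MinPair M t P Q)
    (hc : Cyc M P Q m e) {j : ZMod m} {g : E} (hg : g ∈ GG M P Q e j) :
    g ∈ M.closure (cls P (P (e (j - 1))) \ {e (j - 1)}) := by
  rw [Cyc.GG_eq h.hP h.hQ hc] at hg
  have ha : e (-(1 - j)) = e (j - 1) := congrArg e (neg_sub 1 j)
  have h3 := FF_mem_closure hE ht hm h.symm (hc.symm h.hP h.hQ) hg
  rwa [ha] at h3

/-- by `FF_mem_closure` -/
theorem FF_disjoint_GG (hE : M.E = univ) (ht : 2 ≤ t) (hm : 3 ≤ m) (h : MinPair M t P Q)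
    (hc : Cyc M P Q m e) (j : ZMod m) : Disjoint (FF M P Q e j) (GG M P Q e j) := by
  rw [Set.disjoint_left]
  intro x hx hx'
  exact hx'.2.2 (FF_mem_closure hE ht hm h hc hx)

/-- by `FF_near`, `GG_near` and the second clauses of `FF`, `GG` -/
theorem FG_disjoint_FG (hE : M.E = univ) (ht : 2 ≤ t) (h : MinPair M t P Q)
    (hc : Cyc M P Q m e) {j s : ZMod m} (hjs : s ≠ j) (h1 : P (e s) = P (e j)) :
    Disjoint (FF M P Q e j ∪ GG M P Q e j) (FF M P Q e s ∪ GG M P Q e s) := by
  rw [Set.disjoint_left]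
  intro x hx hx'
  have h2 : e (s - 1) ∈ M.closure (insert (e s) (com P Q (P (e j)) \ {x})) := by
    rcases hx with hx | hx
    · exact FF_near hE ht h hc hx s hjs h1
    · exact GG_near hE ht h hc hx s hjs h1
  have h3 : e (s - 1) ∉ M.closure (insert (e s) (com P Q (P (e s)) \ {x})) := by
    rcases hx' with hx' | hx'
    · exact hx'.2.1
    · exact hx'.2.1
  rw [h1] at h3
  exact h3 h2

end Pool.Agent.MP_d4f4ab_ag
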