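import Pool.Agent.MP_d4f4ab_ag.Defs
import Pool.Agent.MP_d4f4ab_ag.C7

/-! [WH-C8a] counting. -/

open Set

namespace Pool.Agent.MP_d4f4ab_ag

variable {E C : Type*} [Fintype E] [DecidableEq E] [DecidableEq C] {M : Matroid E}
  {P Q : E → C} {m : ℕ} {e : ZMod m → E} {t : ℕ}

omit [Fintype E] [DecidableEq E] in
/-- removing one by one elements which are not needed to span `x` inside an independent set -/
theorem mem_closure_diff_C8a {M : Matroid E} {I F : Set E} (hI : M.Indep I) {x : E}
    (hx : x ∈ M.closure I) (h : ∀ f ∈ F, x ∈ M.closure (I \ {f})) : x ∈ M.closure (I \ F) := by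
  rcases F.eq_empty_or_nonempty with rfl | hF
  · simpa using hx
  · have : Nonempty F := hF.to_subtype
    have h1 := hI.closure_iInter_eq_biInter_closure_of_forall_subset
      (Js := fun f : F => I \ {(f : E)}) (fun f => sdiff_subset)
    have h2 : (⋂ f : F, I \ {(f : E)}) = I \ F := by
      ext y
      simp only [mem_iInter, mem_sdiff, mem_singleton_iff, Subtype.forall]
      constructor
      · intro hy
        obtain ⟨f, hf⟩ := hF
        exact ⟨(hy f hf).1, fun hyF => (hy y hyF).2 rfl⟩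
      · rintro ⟨h1, h2⟩ f hf
        exact ⟨h1, fun h3 => h2 (h3 ▸ hf)⟩
    rw [← h2, h1]
    simp only [mem_iInter, Subtype.forall]
    exact h

/-- the elements `e l` without colour `c` are in the closure of `com P Q c` minus all `FF j`, `GG j` -/
theorem mem_closure_core (hE : M.E = univ) (ht : 2 ≤ t) (h : MinPair M t P Q)
    (hc : Cyc M P Q m e) (c : C) (l : ZMod m) (h1 : c ≠ P (e l)) (h2 : c ≠ Q (e l)) :
    e l ∈ M.closure
      (com P Q c \ ⋃ j : {j : ZMod m // P (e j) = c}, (FF M P Q e j ∪ GG M P Q e j)) := by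
  have hI : M.Indep (com P Q c) := (h.hP c).indep.subset inter_subset_left
  refine mem_closure_diff_C8a hI (hc.far l c h1 h2) ?_
  intro f hf
  rw [mem_iUnion] at hf
  obtain ⟨⟨j, hj⟩, hf⟩ := hf
  subst hj
  rcases hf with hf | hf
  · exact FF_far hE ht h hc hf l h1 h2
  · exact GG_far hE ht h hc hf l h1 h2

/-- Proof. Let `k = #{j | P (e j) = c} > 0`, `T = {l | P (e l) ≠ c ∧ Q (e l) ≠ c}`. Since
`Q (e l) = P (e (l+1))` and `P (e l) ≠ Q (e l)`, `#T = m - 2 k`. `cls P c` is the disjoint union of `com P Q c`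
and the `k` elements `e j` with `P (e j) = c`. The sets `FF j`, `GG j` (`P (e j) = c`) are `2 k` nonempty
pairwise disjoint subsets of `com P Q c`, so `com P Q c \ ⋃ ...` has at most `r - 3 k` elements, where
`r = (cls P c).ncard`. By `mem_closure_core` the independent set `e '' T` (`Cyc.indep`, `T ≠ univ`) is in its
closure, so `m - 2 k ≤ r - 3 k`. -/
theorem count (hE : M.E = univ) (ht : 2 ≤ t) (hm : 3 ≤ m) (h : MinPair M t P Q)
    (hc : Cyc M P Q m e) (c : C) (hk : ∃ j, P (e j) = c) :
    m + Nat.card {j : ZMod m // P (e j) = c} ≤ (cls P c).ncard := by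
  classical
  have : NeZero m := ⟨by omega⟩
  set J : Set (ZMod m) := {j | P (e j) = c} with hJ
  set J' : Set (ZMod m) := {j | Q (e j) = c} with hJ'
  set T : Set (ZMod m) := {l | c ≠ P (e l) ∧ c ≠ Q (e l)} with hT
  set X : Set E := ⋃ j : {j : ZMod m // P (e j) = c}, (FF M P Q e j ∪ GG M P Q e j) with hX
  have hcard : Nat.card {j : ZMod m // P (e j) = c} = J.ncard := rfl
  rw [hcard]
  -- `#J' = #J`
  have hJJ' : J'.ncard = J.ncard := by
    have : J = (fun i => i + 1) '' J' := by
      ext j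
      simp only [hJ, hJ', mem_image, mem_ofPred_eq]
      constructor
      · intro hj
        exact ⟨j - 1, by rw [hc.next]; simpa using hj, by ring⟩
      · rintro ⟨i, hi, rfl⟩
        rw [← hc.next]; exact hi
    rw [this, ncard_image_of_injective _ (add_left_injective 1)]
  have hdisj : Disjoint J J' := by
    rw [Set.disjoint_left]
    intro j h1 h2
    exact (hc.range (e j)).2 ⟨j, rfl⟩ (h1.trans h2.symm)
  have hTc : T = (J ∪ J')ᶜ := by
    ext l
    simp only [hT, hJ, hJ', mem_ofPred_eq, mem_compl_iff, mem_union, not_or]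
    exact ⟨fun h => ⟨h.1 ∘ Eq.symm, h.2 ∘ Eq.symm⟩, fun h => ⟨h.1 ∘ Eq.symm, h.2 ∘ Eq.symm⟩⟩
  have hTcard : T.ncard + 2 * J.ncard = m := by
    have h1 := ncard_add_ncard_compl (J ∪ J')
    rw [Nat.card_zmod, ncard_union_eq hdisj, hJJ', ← hTc] at h1
    omega
  -- `cls P c`
  have hcls : (cls P c).ncard = (com P Q c).ncard + J.ncard := by
    have h1 : cls P c = com P Q c ∪ e '' J := by
      ext x
      simp only [cls, com, hJ, mem_ofPred_eq, mem_union, mem_inter_iff, mem_image]
      constructor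
      · intro hx
        by_cases hq : Q x = c
        · exact Or.inl ⟨hx, hq⟩
        · right
          obtain ⟨j, rfl⟩ := (hc.range x).1 (by rw [hx]; exact Ne.symm hq)
          exact ⟨j, hx, rfl⟩
      · rintro (⟨hx, _⟩ | ⟨j, hj, rfl⟩)
        · exact hx
        · exact hj
    have h2 : Disjoint (com P Q c) (e '' J) := by
      rw [Set.disjoint_left]
      rintro _ ⟨hx1, hx2⟩ ⟨j, hj, rfl⟩
      exact (hc.range (e j)).2 ⟨j, rfl⟩ ((show P (e j) = c from hx1).trans (show Q (e j) = c from hx2).symm)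
    rw [h1, ncard_union_eq h2, ncard_image_of_injective _ hc.inj]
  -- `X`
  have hXcom : X ⊆ com P Q c := by
    rw [hX]
    refine iUnion_subset ?_
    rintro ⟨j, rfl⟩
    exact union_subset (fun f hf => hf.1) (fun f hf => hf.1)
  have hXcard : 2 * J.ncard ≤ X.ncard := by
    choose f hf using fun j => Cyc.FF_nonempty hm h.hP h.hQ hc j
    choose g hg using fun j => Cyc.GG_nonempty hm h.hP h.hQ hc j
    let φ : J × Bool → X := fun p => ⟨if p.2 then f p.1 else g p.1, by
      rw [hX, mem_iUnion]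
      refine ⟨p.1, ?_⟩
      split_ifs
      · exact Or.inl (hf _)
      · exact Or.inr (hg _)⟩
    have hφ : ∀ p : J × Bool, (φ p : E) ∈ FF M P Q e p.1 ∪ GG M P Q e p.1 := by
      rintro ⟨j, b⟩
      show (if b then f j else g j) ∈ _
      split_ifs
      · exact Or.inl (hf _)
      · exact Or.inr (hg _)
    have hinj : Function.Injective φ := by
      rintro ⟨⟨i, hi⟩, b⟩ ⟨⟨j, hj⟩, b'⟩ hij
      have hij' : (φ (⟨i, hi⟩, b) : E) = φ (⟨j, hj⟩, b') := by rw [hij]
      have e1 : i = j := by
        by_contra hne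
        have h1 := hφ (⟨i, hi⟩, b)
        have h2 := hφ (⟨j, hj⟩, b')
        rw [hij'] at h1
        exact Set.disjoint_left.1 (FG_disjoint_FG hE ht h hc hne (hi.trans hj.symm)) h2 h1
      subst e1
      have e2 : b = b' := by
        have h3 : (if b then f i else g i) = (if b' then f i else g i) := hij'
        cases b <;> cases b'
        · rfl
        · exfalso
          have h4 : g i = f i := by simpa using h3
          exact Set.disjoint_left.1 (FF_disjoint_GG hE ht hm h hc i) (hf i) (h4 ▸ hg i)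
        · exfalso
          have h4 : f i = g i := by simpa using h3
          exact Set.disjoint_left.1 (FF_disjoint_GG hE ht hm h hc i) (hf i) (h4 ▸ hg i)
        · rfl
      subst e2
      rfl
    have h1 := Nat.card_le_card_of_injective φ hinj
    rw [Nat.card_prod, Nat.card_eq_fintype_card (α := Bool), Fintype.card_bool] at h1
    have h2 : Nat.card J = J.ncard := rfl
    have h3 : Nat.card X = X.ncard := rfl
    omega
  have hTne : T ≠ univ := by
    obtain ⟨j, hj⟩ := hk
    intro h1
    have : j ∈ T := h1 ▸ mem_univ j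
    exact this.1 hj.symm
  have hind : M.Indep (e '' T) := hc.indep h.hP h.hQ T hTne
  have hle : (e '' T).ncard ≤ (com P Q c \ X).ncard := by
    have h1 : e '' T ⊆ M.closure (com P Q c \ X) := by
      rintro _ ⟨l, hl, rfl⟩
      exact mem_closure_core hE ht h hc c l hl.1 hl.2
    have h2 := hind.encard_le_eRk_of_subset h1
    rw [Matroid.eRk_closure_eq] at h2
    have h3 := h2.trans (M.eRk_le_encard _)
    rw [← (Set.toFinite (e '' T)).cast_ncard_eq, ← (Set.toFinite (com P Q c \ X)).cast_ncard_eq] at h3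
    exact_mod_cast h3
  rw [ncard_image_of_injective _ hc.inj, ncard_sdiff hXcom] at hle
  have := ncard_le_ncard hXcom
  omega

/-- `T` = the set of all colours `P (e j)`; if it had at most `t` elements, `P` and `Q` would be one move
apart. -/
theorem visited (h : MinPair M t P Q) (hc : Cyc M P Q m e) :
    ∃ T : Finset C, t < T.card ∧ ∀ c ∈ T, ∃ j, P (e j) = c := by
  refine ⟨(Finset.univ.filter (fun x => P x ≠ Q x)).image P, ?_, ?_⟩
  · by_contra hlt
    push Not at hlt
    apply h.nconn
    refine Relation.ReflTransGen.single ⟨h.hP, h.hQ, _, hlt, ?_⟩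
    intro c hcT
    ext x
    simp only [cls, mem_ofPred_eq]
    constructor
    · intro hx
      by_contra hq
      apply hcT
      rw [Finset.mem_image]
      refine ⟨x, ?_, hx⟩
      simp only [Finset.mem_filter, Finset.mem_univ, true_and]
      rw [hx]
      exact fun h' => hq h'.symm
    · intro hx
      by_contra hq
      have hne : P x ≠ Q x := by
        rw [hx]
        exact hq
      obtain ⟨j, rfl⟩ := (hc.range x).1 hne
      apply hcT
      rw [Finset.mem_image]
      refine ⟨e (j + 1), ?_, ?_⟩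
      · simp only [Finset.mem_filter, Finset.mem_univ, true_and]
        exact (hc.range _).2 ⟨j + 1, rfl⟩
      · rw [← hc.next j, hx]
  · intro c hcT
    rw [Finset.mem_image] at hcT
    obtain ⟨x, hx, rfl⟩ := hcT
    simp only [Finset.mem_filter, Finset.mem_univ, true_and] at hx
    obtain ⟨j, rfl⟩ := (hc.range x).1 hx
    exact ⟨j, rfl⟩

/-- Main theorem on colourings, I. Otherwise take a minimal pair and its cyclic structure
(`exists_cyc`, `m = hammingDist P Q`); `visited` gives `t + 1 ≤ #T ≤ m`, and `count` gives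
`m + 1 ≤ r ≤ t + 1`. -/
theorem core1 {E C : Type*} [Fintype E] (M : Matroid E) (hE : M.E = univ)
    {t : ℕ} (ht : 2 ≤ t) (hr : ∀ B, M.IsBase B → B.ncard ≤ t + 1) (P Q : E → C)
    (hP : Valid M P) (hQ : Valid M Q) : Conn M t P Q := by
  classical
  by_contra hn
  have hex : ∃ d : ℕ, ∃ P' Q' : E → C, Valid M P' ∧ Valid M Q' ∧ ¬ Conn M t P' Q' ∧
      hammingDist P' Q' = d := ⟨_, P, Q, hP, hQ, hn, rfl⟩
  obtain ⟨P₀, Q₀, hP₀, hQ₀, hn₀, hd₀⟩ := Nat.find_spec hex
  have hmin : MinPair M t P₀ Q₀ := by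
    refine ⟨hP₀, hQ₀, hn₀, ?_⟩
    intro P' Q' hP' hQ' hn'
    rw [hd₀]
    exact Nat.find_min' hex ⟨P', Q', hP', hQ', hn', rfl⟩
  obtain ⟨e, hc⟩ := exists_cyc M hE hmin
  obtain ⟨T, hT, hTe⟩ := visited hmin hc
  have hne : P₀ ≠ Q₀ := by
    rintro rfl
    exact hn₀ Relation.ReflTransGen.refl
  have hpos : 0 < hammingDist P₀ Q₀ := hammingDist_pos.2 hne
  haveI : NeZero (hammingDist P₀ Q₀) := ⟨hpos.ne'⟩
  have hTm : T.card ≤ hammingDist P₀ Q₀ := by
    have hsub : T ⊆ (Finset.univ : Finset (ZMod (hammingDist P₀ Q₀))).image (fun j => P₀ (e j)) := by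
      intro c hcT
      obtain ⟨j, hj⟩ := hTe c hcT
      exact Finset.mem_image.2 ⟨j, Finset.mem_univ _, hj⟩
    calc T.card ≤ _ := Finset.card_le_card hsub
      _ ≤ _ := Finset.card_image_le
      _ = _ := by rw [Finset.card_univ, ZMod.card]
  have hk := count hE ht (by omega) hmin hc (P₀ (e 0)) ⟨0, rfl⟩
  have h1 : (cls P₀ (P₀ (e 0))).ncard ≤ t + 1 := hr _ (hP₀ _)
  have h2 : 0 < Nat.card {j : ZMod (hammingDist P₀ Q₀) // P₀ (e j) = P₀ (e 0)} := by
    haveI : Nonempty {j : ZMod (hammingDist P₀ Q₀) // P₀ (e j) = P₀ (e 0)} := ⟨⟨0, rfl⟩⟩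
    exact Nat.card_pos
  omega

end Pool.Agent.MP_d4f4ab_ag
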