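import Mathlib

/-!
# MP_d4f4ab_ag: toric ideals of matroids, definitions
-/

open Set

namespace Pool.Agent.MP_d4f4ab_ag

/-! ### Public definitions -/

/-- The (finite) bases of a matroid, as finite sets. -/
abbrev BaseOf {α : Type*} (M : Matroid α) : Type _ := {B : Finset α // M.IsBase (B : Set α)}

/-- The homomorphism `K[y_B : B a base] → K[x_e]`, `y_B ↦ ∏_{e ∈ B} x_e`. -/
noncomputable def toricMap (K : Type*) [Field K] {α : Type*} (M : Matroid α) :
    MvPolynomial (BaseOf M) K →ₐ[K] MvPolynomial α K :=
  MvPolynomial.aeval fun B => ∏ e ∈ B.1, MvPolynomial.X e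

/-- The toric ideal of a matroid. -/
noncomputable def toricIdeal (K : Type*) [Field K] {α : Type*} (M : Matroid α) :
    Ideal (MvPolynomial (BaseOf M) K) :=
  RingHom.ker (toricMap K M)

/-! ### Internal definitions: partitions into bases as colourings -/

/-- colour class -/
def cls {E C : Type*} (P : E → C) (c : C) : Set E := {e | P e = c}

/-- all colour classes are bases -/
def Valid {E C : Type*} (M : Matroid E) (P : E → C) : Prop := ∀ c, M.IsBase (cls P c)

/-- `P` and `Q` have the same colour classes outside a set of at most `t` colours. -/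
def Move {E C : Type*} (M : Matroid E) (t : ℕ) (P Q : E → C) : Prop :=
  Valid M P ∧ Valid M Q ∧ ∃ T : Finset C, T.card ≤ t ∧ ∀ c ∉ T, cls P c = cls Q c

/-- connected by moves -/
def Conn {E C : Type*} (M : Matroid E) (t : ℕ) : (E → C) → (E → C) → Prop :=
  Relation.ReflTransGen (Move M t)

/-- a non-connected pair of colourings at minimal Hamming distance -/
structure MinPair {E C : Type*} [Fintype E] [DecidableEq C] (M : Matroid E) (t : ℕ)
    (P Q : E → C) : Prop where
  hP : Valid M P
  hQ : Valid M Q
  nconn : ¬ Conn M t P Q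
  min : ∀ P' Q' : E → C, Valid M P' → Valid M Q' → ¬ Conn M t P' Q' →
    hammingDist P Q ≤ hammingDist P' Q'

/-- common part of the two colour classes -/
def com {E C : Type*} (P Q : E → C) (c : C) : Set E := cls P c ∩ cls Q c

/-- `P` and `Q` differ exactly in the elements `e i` (`i : ZMod m`) and `Q` arises from `P` by a
cyclic exchange along `e` without short cuts. -/
structure Cyc {E C : Type*} (M : Matroid E) (P Q : E → C) (m : ℕ) (e : ZMod m → E) : Prop where
  inj : Function.Injective e
  range : ∀ x, P x ≠ Q x ↔ x ∈ Set.range e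
  next : ∀ i, Q (e i) = P (e (i + 1))
  far : ∀ i c, c ≠ P (e i) → c ≠ Q (e i) → e i ∈ M.closure (com P Q c)
  near : ∀ i, e i ∈ M.closure (insert (e (i + 1)) (com P Q (Q (e i))))

/-- the elements of the circuit through `e (j-1)`, `e j` in the common part of the class
`P (e j) = Q (e (j-1))` which are outside the hyperplane spanned by `P`-class of `e (j-1)`
minus `e (j-1)` -/
def FF {E C : Type*} (M : Matroid E) (P Q : E → C) {m : ℕ} (e : ZMod m → E) (j : ZMod m) :
    Set E :=
  {f | f ∈ com P Q (P (e j)) ∧ e (j - 1) ∉ M.closure (insert (e j) (com P Q (P (e j)) \ {f})) ∧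
    f ∉ M.closure (cls P (P (e (j - 1))) \ {e (j - 1)})}

/-- mirror image of `FF` -/
def GG {E C : Type*} (M : Matroid E) (P Q : E → C) {m : ℕ} (e : ZMod m → E) (j : ZMod m) :
    Set E :=
  {g | g ∈ com P Q (P (e j)) ∧ e (j - 1) ∉ M.closure (insert (e j) (com P Q (P (e j)) \ {g})) ∧
    g ∉ M.closure (cls Q (Q (e j)) \ {e j})}

/-! ### Internal definitions: families of bases -/

/-- two families of bases with the same multiset union -/
def SameSum {α : Type*} {M : Matroid α} {d : ℕ} (P Q : Fin d → BaseOf M) : Prop :=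
  ∀ e : α, Nat.card {i // e ∈ (P i).1} = Nat.card {i // e ∈ (Q i).1}

/-- a step between families: same sum, different at at most `t` places -/
def FMove {α : Type*} {M : Matroid α} (t : ℕ) {d : ℕ} (P Q : Fin d → BaseOf M) : Prop :=
  SameSum P Q ∧ ∃ T : Finset (Fin d), T.card ≤ t ∧ ∀ i ∉ T, P i = Q i

/-- connected by steps -/
def FConn {α : Type*} {M : Matroid α} (t : ℕ) {d : ℕ} :
    (Fin d → BaseOf M) → (Fin d → BaseOf M) → Prop :=
  Relation.ReflTransGen (FMove t)

end Pool.Agent.MP_d4f4ab_ag
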