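import Pool.Agent.MP_d4f4ab_ag.R4
import Pool.Agent.MP_d4f4ab_ag.A2
import Pool.Agent.MP_d4f4ab_ag.A4

open Set

universe u

namespace Pool.Agent.MP_d4f4ab_ag

theorem fconn_general {α : Type u} (M : Matroid α) [M.Finite] {t : ℕ} (ht : 2 ≤ t)
    (hr : M.eRank ≤ t + 1 ∨ M✶.eRank ≤ t + 1) {d : ℕ} (P Q : Fin d → BaseOf M)
    (h : SameSum P Q) : FConn t P Q := by
  have key : ∀ (N : Matroid α) [N.Finite], N.eRank ≤ t + 1 →
      ∀ P Q : Fin d → BaseOf N, SameSum P Q → FConn t P Q := by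
    intro N _ hN P Q hPQ
    refine fconn_of_core N (r := t + 1) ?_ ?_ ?_ P Q hPQ
    · intro B hB
      have h1 := hB.encard_eq_eRank
      have h2 : B.encard ≤ ((t + 1 : ℕ) : ℕ∞) := by rw [h1]; exact_mod_cast hN
      exact Set.encard_le_coe_iff_finite_ncard_le.1 h2 |>.2
    · intro B hB
      exact hB.finite
    · intro E _ N' d' hE hr' p q hp hq
      exact core1 N' hE ht hr' p q hp hq
  rcases hr with hr | hr
  · exact key M hr P Q h
  · exact fconn_dual M (key M✶ hr) P Q h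

theorem fconn_four {α : Type u} (M : Matroid α) [M.Finite]
    (hr : M.eRank ≤ 4 ∨ M✶.eRank ≤ 4) {d : ℕ} (P Q : Fin d → BaseOf M)
    (h : SameSum P Q) : FConn 2 P Q := by
  have key : ∀ (N : Matroid α) [N.Finite], N.eRank ≤ 4 →
      ∀ P Q : Fin d → BaseOf N, SameSum P Q → FConn 2 P Q := by
    intro N _ hN P Q hPQ
    refine fconn_of_core N (r := 4) ?_ ?_ ?_ P Q hPQ
    · intro B hB
      have h1 := hB.encard_eq_eRank
      have h2 : B.encard ≤ ((4 : ℕ) : ℕ∞) := by rw [h1]; exact_mod_cast hN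
      exact Set.encard_le_coe_iff_finite_ncard_le.1 h2 |>.2
    · intro B hB
      exact hB.finite
    · intro E _ N' d' hE hr' p q hp hq
      exact core2 N' hE hr' p q hp hq
  rcases hr with hr | hr
  · exact key M hr P Q h
  · exact fconn_dual M (key M✶ hr) P Q h

theorem main (K : Type*) [Field K] {α : Type u} (M : Matroid α) [M.Finite] [M.RankPos] :
    (∀ t : ℕ, 2 ≤ t → (M.eRank ≤ t + 1 ∨ M✶.eRank ≤ t + 1) →
      toricIdeal K M = Ideal.span
        {f : MvPolynomial (BaseOf M) K | f ∈ toricIdeal K M ∧ ∃ n ≤ t, f.IsHomogeneous n}) ∧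
    ((M.eRank ≤ 4 ∨ M✶.eRank ≤ 4) →
      toricIdeal K M = Ideal.span
        {f : MvPolynomial (BaseOf M) K | f ∈ toricIdeal K M ∧ f.IsHomogeneous 2}) := by
  refine ⟨fun t ht hr => le_antisymm ?_ ?_, fun hr => le_antisymm ?_ ?_⟩
  · exact toricIdeal_le K _ fun d P Q h => prod_sub_prod_mem K (fconn_general M ht hr P Q h)
  · exact Ideal.span_le.2 fun f hf => hf.1
  · exact toricIdeal_le K _ fun d P Q h => prod_sub_prod_mem_two K (fconn_four M hr P Q h)
  · exact Ideal.span_le.2 fun f hf => hf.1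

end Pool.Agent.MP_d4f4ab_ag
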