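import Pool.Agent.MP_d4f4ab_ag.Defs
import Pool.Agent.MP_d4f4ab_ag.C4

/-! [WH-R0] two kinds of connected colourings. -/

open Set

namespace Pool.Agent.MP_d4f4ab_ag

variable {E C : Type*} {M : Matroid E}

/-- exchange of an element of a base by a parallel element -/
theorem r0_exchange {B : Set E} (hB : M.IsBase B) {y z : E} (hy : y ∈ B) (hz : z ∉ B)
    (hzE : z ∈ M.E) (hyz : y ∈ M.closure {z}) : M.IsBase (insert z (B \ {y})) := by
  have hI : M.Indep (B \ {y}) := hB.indep.subset sdiff_subset
  have h1 : z ∉ M.closure (B \ {y}) := by
    intro h2
    have h3 : M.closure {z} ⊆ M.closure (B \ {y}) :=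
      M.closure_subset_closure_of_subset_closure (by
        intro x hx
        rw [mem_singleton_iff] at hx
        rw [hx]
        exact h2)
    exact hB.indep.notMem_closure_sdiff_of_mem hy (h3 hyz)
  have h4 : M.Indep (insert z (B \ {y})) := by
    rw [hI.notMem_closure_iff hzE] at h1
    exact h1.1
  exact hB.exchange_isBase_of_indep hz h4

/-- Swapping two parallel elements. (Every element of the base `cls R (R y)` is a nonloop, so
`y ∈ cl {z}` gives `z ∈ cl {y}`. If `R y = R z` then `y = z`. Otherwise two classes change, by an
exchange of parallel elements.) -/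
theorem parallel_swap [DecidableEq E] {R : E → C} (hR : Valid M R) {y z : E}
    (hy : y ∈ M.closure {z}) :
    Valid M (R ∘ Equiv.swap y z) ∧ Conn M 2 R (R ∘ Equiv.swap y z) := by
  classical
  by_cases hc : R y = R z
  · have h1 : R ∘ Equiv.swap y z = R := by
      funext x
      rw [Function.comp_apply]
      rcases eq_or_ne x y with rfl | hxy
      · rw [Equiv.swap_apply_left, hc]
      · rcases eq_or_ne x z with rfl | hxz
        · rw [Equiv.swap_apply_right, hc]
        · rw [Equiv.swap_apply_of_ne_of_ne hxy hxz]
    rw [h1]
    exact ⟨hR, Relation.ReflTransGen.refl⟩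
  · have hne : y ≠ z := by rintro rfl; exact hc rfl
    have hyB : y ∈ cls R (R y) := rfl
    have hzB : z ∈ cls R (R z) := rfl
    have hyE : y ∈ M.E := (hR (R y)).subset_ground hyB
    have hzE : z ∈ M.E := (hR (R z)).subset_ground hzB
    have hy0 : y ∉ M.closure ∅ := by
      intro h
      exact (hR (R y)).indep.notMem_closure_sdiff_of_mem hyB
        (M.closure_subset_closure (empty_subset _) h)
    have hz : z ∈ M.closure {y} := by
      have h1 : y ∈ M.closure (insert z ∅) \ M.closure ∅ := ⟨by
        rw [insert_empty_eq]; exact hy, hy0⟩
      have h2 := (Matroid.closure_exchange h1).1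
      rwa [insert_empty_eq] at h2
    have e1 : cls (R ∘ Equiv.swap y z) (R y) = insert z (cls R (R y) \ {y}) := by
      ext x
      simp only [cls, mem_ofPred_eq, Function.comp_apply, mem_insert_iff, mem_sdiff,
        mem_singleton_iff]
      rcases eq_or_ne x y with rfl | hxy
      · rw [Equiv.swap_apply_left]
        constructor
        · intro h; exact absurd h.symm hc
        · rintro (h | h)
          · exact absurd h hne
          · exact absurd rfl h.2
      · rcases eq_or_ne x z with rfl | hxz
        · rw [Equiv.swap_apply_right]
          exact ⟨fun _ => Or.inl rfl, fun _ => rfl⟩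
        · rw [Equiv.swap_apply_of_ne_of_ne hxy hxz]
          constructor
          · intro h; exact Or.inr ⟨h, hxy⟩
          · rintro (h | h)
            · exact absurd h hxz
            · exact h.1
    have e2 : cls (R ∘ Equiv.swap y z) (R z) = insert y (cls R (R z) \ {z}) := by
      ext x
      simp only [cls, mem_ofPred_eq, Function.comp_apply, mem_insert_iff, mem_sdiff,
        mem_singleton_iff]
      rcases eq_or_ne x z with rfl | hxz
      · rw [Equiv.swap_apply_right]
        constructor
        · intro h; exact absurd h hc
        · rintro (h | h)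
          · exact absurd h.symm hne
          · exact absurd rfl h.2
      · rcases eq_or_ne x y with rfl | hxy
        · rw [Equiv.swap_apply_left]
          exact ⟨fun _ => Or.inl rfl, fun _ => rfl⟩
        · rw [Equiv.swap_apply_of_ne_of_ne hxy hxz]
          constructor
          · intro h; exact Or.inr ⟨h, hxz⟩
          · rintro (h | h)
            · exact absurd h hxy
            · exact h.1
    have e3 : ∀ c, c ≠ R y → c ≠ R z → cls (R ∘ Equiv.swap y z) c = cls R c := by
      intro c h1 h2
      ext x
      simp only [cls, mem_ofPred_eq, Function.comp_apply]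
      rcases eq_or_ne x y with rfl | hxy
      · rw [Equiv.swap_apply_left]
        exact ⟨fun h => absurd h.symm h2, fun h => absurd h.symm h1⟩
      · rcases eq_or_ne x z with rfl | hxz
        · rw [Equiv.swap_apply_right]
          exact ⟨fun h => absurd h.symm h1, fun h => absurd h.symm h2⟩
        · rw [Equiv.swap_apply_of_ne_of_ne hxy hxz]
    have hzn : z ∉ cls R (R y) := fun h => hc (show R z = R y from h).symm
    have hyn : y ∉ cls R (R z) := fun h => hc (show R y = R z from h)
    have hV : Valid M (R ∘ Equiv.swap y z) := by
      intro c
      by_cases h1 : c = R y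
      · rw [h1, e1]
        exact r0_exchange (hR _) hyB hzn hzE hy
      · by_cases h2 : c = R z
        · rw [h2, e2]
          exact r0_exchange (hR _) hzB hyn hyE hz
        · rw [e3 c h1 h2]
          exact hR c
    refine ⟨hV, Relation.ReflTransGen.single ⟨hR, hV, {R y, R z}, Finset.card_le_two, ?_⟩⟩
    intro c hc'
    rw [Finset.mem_insert, Finset.mem_singleton, not_or] at hc'
    exact (e3 c hc'.1 hc'.2).symm

/-- Two colourings with the same classes outside three colours and with a common class are
connected. (If `a = b`, one move with `T = S.erase a`. If `a ≠ b`, first exchange the names of the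
colours `a` and `b` in `R'`; this is a move with `T = {a, b}`.) -/
theorem share {R R' : E → C} (hR : Valid M R) (hR' : Valid M R') (S : Finset C)
    (hS : S.card ≤ 3) (hout : ∀ c ∉ S, cls R c = cls R' c) {a b : C} (ha : a ∈ S) (hb : b ∈ S)
    (hab : cls R a = cls R' b) : Conn M 2 R R' := by
  classical
  have key : ∀ R' : E → C, Valid M R' → (∀ c ∉ S, cls R c = cls R' c) → cls R a = cls R' a →
      Move M 2 R R' := by
    intro R' hR' hout haa
    refine ⟨hR, hR', S.erase a, ?_, ?_⟩
    · rw [Finset.card_erase_of_mem ha]
      omega
    · intro c hc
      rw [Finset.mem_erase, not_and_or, not_not] at hc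
      rcases hc with rfl | hc
      · exact haa
      · exact hout c hc
  by_cases hne : a = b
  · subst hne
    exact Relation.ReflTransGen.single (key R' hR' hout hab)
  · have hcls : ∀ c, cls (Equiv.swap a b ∘ R') c = cls R' (Equiv.swap a b c) := by
      intro c
      ext x
      simp only [cls, mem_ofPred_eq, Function.comp_apply]
      constructor
      · intro h; rw [← h, Equiv.swap_apply_self]
      · intro h; rw [h, Equiv.swap_apply_self]
    have hV : Valid M (Equiv.swap a b ∘ R') := by
      intro c
      rw [hcls]
      exact hR' _
    have h1 : Move M 2 R (Equiv.swap a b ∘ R') := by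
      apply key _ hV
      · intro c hc
        rw [hcls, Equiv.swap_apply_of_ne_of_ne (by rintro rfl; exact hc ha)
          (by rintro rfl; exact hc hb)]
        exact hout c hc
      · rw [hcls, Equiv.swap_apply_left]
        exact hab
    have h2 : Move M 2 (Equiv.swap a b ∘ R') R' := by
      refine ⟨hV, hR', {a, b}, Finset.card_le_two, ?_⟩
      intro c hc
      rw [Finset.mem_insert, Finset.mem_singleton, not_or] at hc
      rw [hcls, Equiv.swap_apply_of_ne_of_ne hc.1 hc.2]
    exact (Relation.ReflTransGen.single h1).tail h2

end Pool.Agent.MP_d4f4ab_ag
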