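import Pool.Agent.MP_d4f4ab_ag.Defs
import Pool.Agent.MP_d4f4ab_ag.C8

/-! [WH-R1] minimal pairs in rank four. -/

open Set

namespace Pool.Agent.MP_d4f4ab_ag

/-- the configuration of a minimal pair in rank four -/
structure Cfg {E C : Type*} [DecidableEq E] (M : Matroid E) (P Q : E → C)
    (e f g x : ZMod 3 → E) : Prop where
  hP : Valid M P
  hQ : Valid M Q
  nconn : ¬ Conn M 2 P Q
  cyc : Cyc M P Q 3 e
  colinj : Function.Injective (fun i => P (e i))
  com_eq : ∀ i, com P Q (P (e i)) = {f i, g i, x i}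
  fg : ∀ i, f i ≠ g i
  fx : ∀ i, f i ≠ x i
  gx : ∀ i, g i ≠ x i
  f1 : ∀ i, f i ∉ M.closure {f (i - 1), g (i - 1), x (i - 1)}
  f2 : ∀ i, f i ∈ M.closure {f (i + 1), g (i + 1), x (i + 1)}
  g1 : ∀ i, g i ∉ M.closure {f (i + 1), g (i + 1), x (i + 1)}
  g2 : ∀ i, g i ∈ M.closure {f (i - 1), g (i - 1), x (i - 1)}
  par : ∀ i, x i ∈ M.closure {e (i + 1)}
  swF : ∀ i, Valid M (P ∘ Equiv.swap (e (i - 1)) (f i)) ∧
    Conn M 2 P (P ∘ Equiv.swap (e (i - 1)) (f i))
  swG : ∀ i, Valid M (Q ∘ Equiv.swap (e i) (g i)) ∧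
    Conn M 2 Q (Q ∘ Equiv.swap (e i) (g i))

/-- Proof. `exists_cyc` gives a cyclic structure with `m = hammingDist P Q` (generalise `m`), `visited`
a set `T` of at least three colours of the form `P (e j)`, so `3 ≤ m`; `count` gives `m + 1 ≤ 4`. So `m = 3`
(`subst`), the colours `P (e i)` are distinct, `com P Q (P (e i))` (which is `cls P (P (e i)) \ {e i}`) has
three elements, and contains the disjoint nonempty sets `FF i`, `GG i`. By `mem_closure_core`
(`l = i + 1`, `c = P (e i)`; only `j = i` occurs in the union) `e (i+1)`, which is not a loop, is in the closure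
of `com \ (FF i ∪ GG i)`; so this set is nonempty and `FF i = {f i}`, `GG i = {g i}`, and the rest is `{x i}`.
`par` by exchange. `f1`: definition of `FF`, since `cls P (P (e (i-1))) \ {e (i-1)} = com ..`.
`f2`: `FF_mem_closure`, since `Q (e i) = P (e (i+1))` and `cls Q (Q (e i)) \ {e i} = com P Q (P (e (i+1)))`.
`g1`: definition of `GG`, `g2`: `GG_mem_closure`. `swF`: `swap_minPair`. `swG`: `swap_minPair` for the mirror
image `(Q, P, i ↦ e (-i))` at `1 - i` (`Cyc.symm`, `Cyc.GG_eq`, `MinPair.symm`). -/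
theorem exists_cfg {E C : Type*} [Fintype E] [DecidableEq E] [DecidableEq C] {M : Matroid E}
    (hE : M.E = univ) (hr : ∀ B, M.IsBase B → B.ncard = 4) {P Q : E → C}
    (h : MinPair M 2 P Q) : ∃ e f g x : ZMod 3 → E, Cfg M P Q e f g x := by
  classical
  obtain ⟨e, he⟩ := exists_cyc M hE h
  generalize hammingDist P Q = m at e he
  -- `m ≠ 0`
  have hm0 : m ≠ 0 := by
    rintro rfl
    exact not_injective_infinite_finite (e : ℤ → E) he.inj
  have : NeZero m := ⟨hm0⟩
  -- `3 ≤ m`
  obtain ⟨T, hT, hT'⟩ := visited h he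
  have hm3 : 3 ≤ m := by
    have h1 : T ⊆ Finset.univ.image (fun j : ZMod m => P (e j)) := by
      intro c hc
      obtain ⟨j, hj⟩ := hT' c hc
      exact Finset.mem_image.2 ⟨j, Finset.mem_univ _, hj⟩
    have h2 := (Finset.card_le_card h1).trans Finset.card_image_le
    rw [Finset.card_univ, ZMod.card] at h2
    omega
  have hcount : ∀ i : ZMod m, m + Nat.card {j : ZMod m // P (e j) = P (e i)} ≤ 4 := by
    intro i
    have := count hE le_rfl hm3 h he (P (e i)) ⟨i, rfl⟩
    rwa [hr _ (h.hP _)] at this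
  have hcard1 : ∀ i : ZMod m, 1 ≤ Nat.card {j : ZMod m // P (e j) = P (e i)} := by
    intro i
    have : Nonempty {j : ZMod m // P (e j) = P (e i)} := ⟨⟨i, rfl⟩⟩
    exact Nat.card_pos
  have hm : m = 3 := by
    have := hcount 0
    have := hcard1 0
    omega
  subst hm
  have colinj : Function.Injective (fun i => P (e i)) := by
    intro i j hij
    have hij' : P (e i) = P (e j) := hij
    have h1 : Nat.card {k : ZMod 3 // P (e k) = P (e j)} ≤ 1 := by
      have := hcount j; omega
    have hsub : Subsingleton {k : ZMod 3 // P (e k) = P (e j)} := by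
      rcases Nat.lt_or_ge (Nat.card {k : ZMod 3 // P (e k) = P (e j)}) 1 with hlt | hge
      · have := hcard1 j; omega
      · exact (Nat.card_eq_one_iff_unique.1 (le_antisymm h1 hge)).1
    have := hsub.elim ⟨i, hij'⟩ ⟨j, rfl⟩
    exact congrArg Subtype.val this
  have hne1 : ∀ i : ZMod 3, i + 1 ≠ i := by decide
  have hne2 : ∀ i : ZMod 3, i + 1 + 1 ≠ i := by decide
  -- the class of `e i`
  have clsPd : ∀ i, cls P (P (e i)) \ {e i} = com P Q (P (e i)) := by
    intro i
    ext y
    simp only [cls, com, mem_sdiff, mem_ofPred_eq, mem_singleton_iff, mem_inter_iff]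
    constructor
    · rintro ⟨h1, h2⟩
      refine ⟨h1, ?_⟩
      by_contra h3
      have h4 : P y ≠ Q y := fun h5 => h3 (h5 ▸ h1)
      obtain ⟨j, rfl⟩ := (he.range y).1 h4
      exact h2 (congrArg e (colinj h1))
    · rintro ⟨h1, h2⟩
      refine ⟨h1, ?_⟩
      rintro rfl
      rw [he.next] at h2
      exact hne1 i (colinj h2)
  have clsQd : ∀ i, cls Q (Q (e i)) \ {e i} = com P Q (P (e (i + 1))) := by
    intro i
    ext y
    simp only [cls, com, mem_sdiff, mem_ofPred_eq, mem_singleton_iff, mem_inter_iff]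
    rw [he.next i]
    constructor
    · rintro ⟨h1, h2⟩
      refine ⟨?_, h1⟩
      by_contra h3
      have h4 : P y ≠ Q y := fun h5 => h3 (h5.trans h1)
      obtain ⟨j, rfl⟩ := (he.range y).1 h4
      rw [he.next] at h1
      have : j + 1 = i + 1 := colinj h1
      exact h2 (congrArg e (add_right_cancel this))
    · rintro ⟨h1, h2⟩
      refine ⟨h2, ?_⟩
      rintro rfl
      exact hne1 i (colinj h1).symm
  have comcard : ∀ i, (com P Q (P (e i))).ncard = 3 := by
    intro i
    have h1 : (cls P (P (e i))).ncard = 4 := hr _ (h.hP _)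
    have h2 := Set.ncard_sdiff_singleton_add_one (s := cls P (P (e i))) (a := e i) rfl
      (Set.toFinite _)
    rw [clsPd] at h2
    omega
  have hFFsub : ∀ i, FF M P Q e i ⊆ com P Q (P (e i)) := fun i y hy => hy.1
  have hGGsub : ∀ i, GG M P Q e i ⊆ com P Q (P (e i)) := fun i y hy => hy.1
  have hdisj : ∀ i, Disjoint (FF M P Q e i) (GG M P Q e i) := fun i =>
    FF_disjoint_GG hE le_rfl le_rfl h he i
  have hFFne : ∀ i, (FF M P Q e i).Nonempty := fun i => Cyc.FF_nonempty le_rfl h.hP h.hQ he i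
  have hGGne : ∀ i, (GG M P Q e i).Nonempty := fun i => Cyc.GG_nonempty le_rfl h.hP h.hQ he i
  have hcore : ∀ i, e (i + 1) ∈ M.closure (com P Q (P (e i)) \ (FF M P Q e i ∪ GG M P Q e i)) := by
    intro i
    have h1 := mem_closure_core hE le_rfl h he (P (e i)) (i + 1)
      (fun h => hne1 i (colinj h).symm) (by
        rw [he.next]
        exact fun h => hne2 i (colinj h).symm)
    refine M.closure_subset_closure ?_ h1
    refine Set.sdiff_subset_sdiff_right ?_
    exact Set.subset_iUnion (fun j : {j : ZMod 3 // P (e j) = P (e i)} =>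
      FF M P Q e j ∪ GG M P Q e j) ⟨i, rfl⟩
  have hnl : ∀ i, e i ∉ M.closure ∅ := by
    intro i h1
    have h2 : M.Indep (cls P (P (e i))) := (h.hP _).indep
    exact h2.notMem_closure_sdiff_of_mem (show e i ∈ cls P (P (e i)) from rfl)
      (M.closure_subset_closure (Set.empty_subset _) h1)
  have hrest : ∀ i, (com P Q (P (e i)) \ (FF M P Q e i ∪ GG M P Q e i)).Nonempty := by
    intro i
    by_contra h1
    rw [Set.not_nonempty_iff_eq_empty] at h1
    have h2 := hcore i
    rw [h1] at h2
    exact hnl _ h2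
  have hall : ∀ i, ∃ f g x : E, FF M P Q e i = {f} ∧ GG M P Q e i = {g} ∧
      com P Q (P (e i)) \ (FF M P Q e i ∪ GG M P Q e i) = {x} ∧
      com P Q (P (e i)) = {f, g, x} ∧ f ≠ g ∧ f ≠ x ∧ g ≠ x := by
    intro i
    have c1 : 1 ≤ (FF M P Q e i).ncard := (Set.ncard_pos (Set.toFinite _)).2 (hFFne i)
    have c2 : 1 ≤ (GG M P Q e i).ncard := (Set.ncard_pos (Set.toFinite _)).2 (hGGne i)
    have c3 : 1 ≤ (com P Q (P (e i)) \ (FF M P Q e i ∪ GG M P Q e i)).ncard :=
      (Set.ncard_pos (Set.toFinite _)).2 (hrest i)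
    have c4 : (FF M P Q e i ∪ GG M P Q e i).ncard = (FF M P Q e i).ncard + (GG M P Q e i).ncard :=
      Set.ncard_union_eq (hdisj i) (Set.toFinite _) (Set.toFinite _)
    have c5 : (com P Q (P (e i)) \ (FF M P Q e i ∪ GG M P Q e i)).ncard +
        (FF M P Q e i ∪ GG M P Q e i).ncard = (com P Q (P (e i))).ncard :=
      Set.ncard_sdiff_add_ncard_of_subset (Set.union_subset (hFFsub i) (hGGsub i)) (Set.toFinite _)
    have c6 := comcard i
    obtain ⟨f, hf⟩ := Set.ncard_eq_one.1 (show (FF M P Q e i).ncard = 1 by omega)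
    obtain ⟨g, hg⟩ := Set.ncard_eq_one.1 (show (GG M P Q e i).ncard = 1 by omega)
    obtain ⟨x, hx⟩ := Set.ncard_eq_one.1
      (show (com P Q (P (e i)) \ (FF M P Q e i ∪ GG M P Q e i)).ncard = 1 by omega)
    have hfm : f ∈ FF M P Q e i := hf ▸ Set.mem_singleton f
    have hgm : g ∈ GG M P Q e i := hg ▸ Set.mem_singleton g
    have hxm : x ∈ com P Q (P (e i)) \ (FF M P Q e i ∪ GG M P Q e i) := hx ▸ Set.mem_singleton x
    refine ⟨f, g, x, hf, hg, hx, ?_, ?_, ?_, ?_⟩
    · have h1 : com P Q (P (e i)) = (FF M P Q e i ∪ GG M P Q e i) ∪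
          (com P Q (P (e i)) \ (FF M P Q e i ∪ GG M P Q e i)) :=
        (Set.union_sdiff_cancel (Set.union_subset (hFFsub i) (hGGsub i))).symm
      calc com P Q (P (e i)) = (FF M P Q e i ∪ GG M P Q e i) ∪
          (com P Q (P (e i)) \ (FF M P Q e i ∪ GG M P Q e i)) := h1
        _ = ({f} ∪ {g}) ∪ {x} := by rw [hx, hf, hg]
        _ = {f, g, x} := by ext y; simp; tauto
    · rintro rfl
      exact Set.disjoint_left.1 (hdisj i) hfm hgm
    · rintro rfl
      exact hxm.2 (Or.inl hfm)
    · rintro rfl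
      exact hxm.2 (Or.inr hgm)
  choose f g x hf hg hx hcom hfg hfx hgx using hall
  have hfm : ∀ i, f i ∈ FF M P Q e i := fun i => (hf i) ▸ Set.mem_singleton (f i)
  have hgm : ∀ i, g i ∈ GG M P Q e i := fun i => (hg i) ▸ Set.mem_singleton (g i)
  refine ⟨e, f, g, x, ?_⟩
  exact
    { hP := h.hP
      hQ := h.hQ
      nconn := h.nconn
      cyc := he
      colinj := colinj
      com_eq := hcom
      fg := hfg
      fx := hfx
      gx := hgx
      f1 := by
        intro i
        have h1 := (hfm i).2.2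
        rwa [clsPd, hcom] at h1
      f2 := by
        intro i
        have h1 := FF_mem_closure hE le_rfl le_rfl h he (hfm i)
        rwa [clsQd, hcom] at h1
      g1 := by
        intro i
        have h1 := (hgm i).2.2
        rwa [clsQd, hcom] at h1
      g2 := by
        intro i
        have h1 := GG_mem_closure hE le_rfl le_rfl h he (hgm i)
        rwa [clsPd, hcom] at h1
      par := by
        intro i
        have h1 := hcore i
        rw [hx] at h1
        have h2 := M.closure_exchange (X := ∅) (e := e (i + 1)) (f := x i) (by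
          simpa using ⟨h1, hnl _⟩)
        simpa using h2.1
      swF := by
        intro i
        have h1 := swap_minPair le_rfl h he (hfm i)
        exact ⟨h1.1, h1.2.1⟩
      swG := by
        intro i
        have h1 : g i ∈ FF M Q P (fun i => e (-i)) (1 - i) := by
          rw [← Cyc.GG_eq h.hP h.hQ he i]; exact hgm i
        have h2 := swap_minPair le_rfl (MinPair.symm h) (he.symm h.hP h.hQ) h1
        have h3 : -(1 - i - 1) = i := by ring
        simp only [h3] at h2
        exact ⟨h2.1, h2.2.1⟩ }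

end Pool.Agent.MP_d4f4ab_ag
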