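import Pool.Agent.MP_d4f4ab_ag.Defs
import Pool.Agent.MP_d4f4ab_ag.R0
import Pool.Agent.MP_d4f4ab_ag.R1

/-! [WH-R2] red and blue blocks in the rank four configuration. Here the colour classes other than
`P (e 0), P (e 1), P (e 2)` never change. By `com_eq` and `Cyc`: `cls P (P (e i)) = {f i, g i, x i, e i}`,
`cls Q (P (e i)) = {f i, g i, x i, e (i-1)}`, and the twelve elements `e i, f i, g i, x i` are distinct. -/

open Set

namespace Pool.Agent.MP_d4f4ab_ag

variable {E C : Type*} [DecidableEq E] {M : Matroid E} {P Q : E → C} {e f g x : ZMod 3 → E}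

/-! auxiliary facts -/

theorem r2_range {α : Type*} (h : ZMod 3 → α) : ({h 0, h 1, h 2} : Set α) = Set.range h := by
  ext w
  simp only [mem_insert_iff, mem_singleton_iff, mem_range]
  constructor
  · rintro (rfl | rfl | rfl)
    · exact ⟨0, rfl⟩
    · exact ⟨1, rfl⟩
    · exact ⟨2, rfl⟩
  · rintro ⟨k, rfl⟩
    have : ∀ k : ZMod 3, k = 0 ∨ k = 1 ∨ k = 2 := by decide
    rcases this k with rfl | rfl | rfl
    · exact Or.inl rfl
    · exact Or.inr (Or.inl rfl)
    · exact Or.inr (Or.inr rfl)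

theorem r2_four {α : Type*} (h : ZMod 3 → α) (a : α) :
    ({h 0, h 1, h 2, a} : Set α) = insert a (Set.range h) := by
  rw [← r2_range]
  ext w
  simp only [mem_insert_iff, mem_singleton_iff]
  tauto

theorem r2_range' {α : Type*} (h : ZMod 3 → α) (i : ZMod 3) :
    Set.range h = {h i, h (i + 1), h (i - 1)} := by
  ext w
  simp only [mem_insert_iff, mem_singleton_iff, mem_range]
  constructor
  · rintro ⟨k, rfl⟩
    have : ∀ i k : ZMod 3, k = i ∨ k = i + 1 ∨ k = i - 1 := by decide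
    rcases this i k with rfl | rfl | rfl
    · exact Or.inl rfl
    · exact Or.inr (Or.inl rfl)
    · exact Or.inr (Or.inr rfl)
  · rintro (rfl | rfl | rfl)
    · exact ⟨i, rfl⟩
    · exact ⟨i + 1, rfl⟩
    · exact ⟨i - 1, rfl⟩

theorem r2_ne1 (i : ZMod 3) : i + 1 ≠ i := by revert i; decide
theorem r2_ne2 (i : ZMod 3) : i - 1 ≠ i := by revert i; decide
theorem r2_ne3 (i : ZMod 3) : i - 1 ≠ i + 1 := by revert i; decide
theorem r2_ne4 (i : ZMod 3) : i + 1 + 1 ≠ i := by revert i; decide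
theorem r2_add2 (i : ZMod 3) : i + 1 + 1 = i - 1 := by revert i; decide

theorem r2_out {R : E → C} {y z : E} {c : C} (hy : R y ≠ c) (hz : R z ≠ c) :
    cls (R ∘ Equiv.swap y z) c = cls R c := by
  ext w
  simp only [cls, mem_setOf_eq, Function.comp]
  by_cases h1 : w = y
  · subst h1
    rw [Equiv.swap_apply_left]
    exact ⟨fun h => absurd h hz, fun h => absurd h hy⟩
  · by_cases h2 : w = z
    · subst h2
      rw [Equiv.swap_apply_right]
      exact ⟨fun h => absurd h hy, fun h => absurd h hz⟩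
    · rw [Equiv.swap_apply_of_ne_of_ne h1 h2]

theorem r2_in {R : E → C} {y z : E} {c : C} {A : Set E} (hc : cls R c = insert y A)
    (hy : y ∉ A) (hz : R z ≠ c) : cls (R ∘ Equiv.swap y z) c = insert z A := by
  have hyc : R y = c := by
    have : y ∈ cls R c := by rw [hc]; exact mem_insert y A
    exact this
  have hzA : z ∉ insert y A := by
    rw [← hc]; exact hz
  ext w
  have hw : w ∈ cls (R ∘ Equiv.swap y z) c ↔ Equiv.swap y z w ∈ cls R c := Iff.rfl
  rw [hw, hc]
  by_cases h1 : w = y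
  · subst h1
    rw [Equiv.swap_apply_left]
    constructor
    · exact fun h => absurd h hzA
    · rintro (h | h)
      · rw [← h, hyc] at hz
        exact absurd rfl hz
      · exact absurd h hy
  · by_cases h2 : w = z
    · subst h2
      rw [Equiv.swap_apply_right]
      exact ⟨fun _ => mem_insert _ _, fun _ => mem_insert _ _⟩
    · rw [Equiv.swap_apply_of_ne_of_ne h1 h2]
      simp only [mem_insert_iff, h1, h2, false_or]

theorem r2_conn_symm {t : ℕ} {R R' : E → C} (h : Conn M t R R') : Conn M t R' R := by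
  have hs : Std.Symm (Move M t : (E → C) → (E → C) → Prop) :=
    ⟨by
      rintro a b ⟨h1, h2, T, hT, h3⟩
      exact ⟨h2, h1, T, hT, fun c hc => (h3 c hc).symm⟩⟩
  induction h with
  | refl => exact Relation.ReflTransGen.refl
  | tail _ hbc ih => exact Relation.ReflTransGen.head (hs.symm _ _ hbc) ih

theorem Cfg.r2_Pf (h : Cfg M P Q e f g x) (i : ZMod 3) : P (f i) = P (e i) ∧ Q (f i) = P (e i) := by
  have : f i ∈ com P Q (P (e i)) := by rw [h.com_eq]; simp
  exact this

theorem Cfg.r2_Pg (h : Cfg M P Q e f g x) (i : ZMod 3) : P (g i) = P (e i) ∧ Q (g i) = P (e i) := by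
  have : g i ∈ com P Q (P (e i)) := by rw [h.com_eq]; simp
  exact this

theorem Cfg.r2_Px (h : Cfg M P Q e f g x) (i : ZMod 3) : P (x i) = P (e i) ∧ Q (x i) = P (e i) := by
  have : x i ∈ com P Q (P (e i)) := by rw [h.com_eq]; simp
  exact this

theorem Cfg.r2_Pe (h : Cfg M P Q e f g x) {i j : ZMod 3} (hij : i ≠ j) : P (e i) ≠ P (e j) :=
  fun h1 => hij (h.colinj h1)

theorem Cfg.r2_PQe (h : Cfg M P Q e f g x) (i : ZMod 3) : P (e i) ≠ Q (e i) :=
  (h.cyc.range (e i)).2 ⟨i, rfl⟩

theorem Cfg.r2_ef (h : Cfg M P Q e f g x) (i j : ZMod 3) : e i ≠ f j := by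
  intro h1
  apply h.r2_PQe i
  rw [h1, (h.r2_Pf j).1, (h.r2_Pf j).2]

theorem Cfg.r2_eg (h : Cfg M P Q e f g x) (i j : ZMod 3) : e i ≠ g j := by
  intro h1
  apply h.r2_PQe i
  rw [h1, (h.r2_Pg j).1, (h.r2_Pg j).2]

theorem Cfg.r2_ex (h : Cfg M P Q e f g x) (i j : ZMod 3) : e i ≠ x j := by
  intro h1
  apply h.r2_PQe i
  rw [h1, (h.r2_Px j).1, (h.r2_Px j).2]

theorem Cfg.r2_ee (h : Cfg M P Q e f g x) {i j : ZMod 3} (hij : i ≠ j) : e i ≠ e j :=
  fun h1 => hij (h.cyc.inj h1)

theorem Cfg.r2_fg (h : Cfg M P Q e f g x) (i j : ZMod 3) : f i ≠ g j := by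
  intro h1
  have h2 : P (e i) = P (e j) := by rw [← (h.r2_Pf i).1, h1, (h.r2_Pg j).1]
  have h3 := h.colinj h2
  subst h3
  exact h.fg i h1

theorem Cfg.r2_fx (h : Cfg M P Q e f g x) (i j : ZMod 3) : f i ≠ x j := by
  intro h1
  have h2 : P (e i) = P (e j) := by rw [← (h.r2_Pf i).1, h1, (h.r2_Px j).1]
  have h3 := h.colinj h2
  subst h3
  exact h.fx i h1

theorem Cfg.r2_gx (h : Cfg M P Q e f g x) (i j : ZMod 3) : g i ≠ x j := by
  intro h1
  have h2 : P (e i) = P (e j) := by rw [← (h.r2_Pg i).1, h1, (h.r2_Px j).1]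
  have h3 := h.colinj h2
  subst h3
  exact h.gx i h1

theorem Cfg.r2_ff (h : Cfg M P Q e f g x) {i j : ZMod 3} (h1 : f i = f j) : i = j := by
  apply h.colinj
  change P (e i) = P (e j)
  rw [← (h.r2_Pf i).1, h1, (h.r2_Pf j).1]

theorem Cfg.r2_gg (h : Cfg M P Q e f g x) {i j : ZMod 3} (h1 : g i = g j) : i = j := by
  apply h.colinj
  change P (e i) = P (e j)
  rw [← (h.r2_Pg i).1, h1, (h.r2_Pg j).1]

theorem Cfg.r2_xx (h : Cfg M P Q e f g x) {i j : ZMod 3} (h1 : x i = x j) : i = j := by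
  apply h.colinj
  change P (e i) = P (e j)
  rw [← (h.r2_Px i).1, h1, (h.r2_Px j).1]

theorem Cfg.clsP (h : Cfg M P Q e f g x) (i : ZMod 3) :
    cls P (P (e i)) = {f i, g i, x i, e i} := by
  ext y
  constructor
  · intro hy
    have hy' : P y = P (e i) := hy
    by_cases hq : P y = Q y
    · have h1 : y ∈ com P Q (P (e i)) := ⟨hy', hq.symm.trans hy'⟩
      rw [h.com_eq] at h1
      simp only [mem_insert_iff, mem_singleton_iff] at h1 ⊢
      tauto
    · obtain ⟨j, rfl⟩ := (h.cyc.range y).1 hq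
      have := h.colinj hy'
      subst this
      simp
  · simp only [mem_insert_iff, mem_singleton_iff]
    rintro (rfl | rfl | rfl | rfl)
    · exact (h.r2_Pf i).1
    · exact (h.r2_Pg i).1
    · exact (h.r2_Px i).1
    · rfl

theorem Cfg.clsQ (h : Cfg M P Q e f g x) (i : ZMod 3) :
    cls Q (P (e i)) = {f i, g i, x i, e (i - 1)} := by
  ext y
  constructor
  · intro hy
    have hy' : Q y = P (e i) := hy
    by_cases hq : P y = Q y
    · have h1 : y ∈ com P Q (P (e i)) := ⟨hq.trans hy', hy'⟩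
      rw [h.com_eq] at h1
      simp only [mem_insert_iff, mem_singleton_iff] at h1 ⊢
      tauto
    · obtain ⟨j, rfl⟩ := (h.cyc.range y).1 hq
      rw [h.cyc.next] at hy'
      have h2 := h.colinj hy'
      have h3 : j = i - 1 := by rw [← h2]; ring
      subst h3
      simp
  · simp only [mem_insert_iff, mem_singleton_iff]
    rintro (rfl | rfl | rfl | rfl)
    · exact (h.r2_Pf i).2
    · exact (h.r2_Pg i).2
    · exact (h.r2_Px i).2
    · change Q (e (i - 1)) = P (e i)
      rw [h.cyc.next, sub_add_cancel]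

theorem Cfg.cls_out (h : Cfg M P Q e f g x) (c : C) (hc : ∀ j, c ≠ P (e j)) :
    cls Q c = cls P c := by
  ext y
  change Q y = c ↔ P y = c
  by_cases hq : P y = Q y
  · rw [hq]
  · obtain ⟨j, rfl⟩ := (h.cyc.range y).1 hq
    rw [h.cyc.next]
    exact ⟨fun h1 => absurd h1.symm (hc _), fun h1 => absurd h1.symm (hc _)⟩

/-- `P ∘ swap (e (i-1)) (f i)` has the class `{e (i-1), g i, x i, e i}` at colour `P (e i)`; swap the
parallel elements `x i` and `e (i+1)` (`parallel_swap`). -/
theorem Cfg.red (h : Cfg M P Q e f g x) (i : ZMod 3) :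
    ∃ R : E → C, Valid M R ∧ Conn M 2 P R ∧ (∀ c, (∀ j, c ≠ P (e j)) → cls R c = cls P c) ∧
      cls R (P (e i)) = {e 0, e 1, e 2, g i} := by
  obtain ⟨hV, hC⟩ := h.swF i
  set R0 : E → C := P ∘ Equiv.swap (e (i - 1)) (f i) with hR0
  have hx0 : R0 (x i) = P (e i) := by
    rw [hR0, Function.comp, Equiv.swap_apply_of_ne_of_ne (h.r2_ex _ _).symm (h.r2_fx _ _).symm]
    exact (h.r2_Px i).1
  have he0 : R0 (e (i + 1)) = P (e (i + 1)) := by
    rw [hR0, Function.comp, Equiv.swap_apply_of_ne_of_ne (h.r2_ee (r2_ne3 i).symm) (h.r2_ef _ _)]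
  have hcls0 : cls R0 (P (e i)) = insert (e (i - 1)) {g i, x i, e i} := by
    rw [hR0, Equiv.swap_comm]
    refine r2_in (h.clsP i) ?_ (h.r2_Pe (r2_ne2 i))
    simp only [mem_insert_iff, mem_singleton_iff, not_or]
    exact ⟨h.r2_fg _ _, h.r2_fx _ _, (h.r2_ef _ _).symm⟩
  obtain ⟨hV1, hC1⟩ := parallel_swap hV (h.par i)
  refine ⟨_, hV1, hC.trans hC1, ?_, ?_⟩
  · intro c hc
    rw [r2_out (by rw [hx0]; exact (hc i).symm) (by rw [he0]; exact (hc _).symm), hR0,
      r2_out (hc _).symm (by rw [(h.r2_Pf i).1]; exact (hc i).symm)]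
  · rw [r2_in (A := {e (i - 1), g i, e i}) (y := x i) (z := e (i + 1)), r2_four,
      r2_range' e i]
    · ext w
      simp only [mem_insert_iff, mem_singleton_iff]
      tauto
    · rw [hcls0]
      ext w
      simp only [mem_insert_iff, mem_singleton_iff]
      tauto
    · simp only [mem_insert_iff, mem_singleton_iff, not_or]
      exact ⟨(h.r2_ex _ _).symm, (h.r2_gx _ _).symm, (h.r2_ex _ _).symm⟩
    · rw [he0]
      exact h.r2_Pe (r2_ne1 i)

/-- `Q ∘ swap (e i) (g i)` has the class `{f i, e i, x i, e (i-1)}` at colour `P (e i)`; swap the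
parallel elements `x i` and `e (i+1)`. -/
theorem Cfg.blue (h : Cfg M P Q e f g x) (i : ZMod 3) :
    ∃ R : E → C, Valid M R ∧ Conn M 2 Q R ∧ (∀ c, (∀ j, c ≠ P (e j)) → cls R c = cls P c) ∧
      cls R (P (e i)) = {e 0, e 1, e 2, f i} := by
  obtain ⟨hV, hC⟩ := h.swG i
  set R0 : E → C := Q ∘ Equiv.swap (e i) (g i) with hR0
  have hx0 : R0 (x i) = P (e i) := by
    rw [hR0, Function.comp, Equiv.swap_apply_of_ne_of_ne (h.r2_ex _ _).symm (h.r2_gx _ _).symm]
    exact (h.r2_Px i).2
  have he0 : R0 (e (i + 1)) = P (e (i + 1 + 1)) := by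
    rw [hR0, Function.comp, Equiv.swap_apply_of_ne_of_ne (h.r2_ee (r2_ne1 i)) (h.r2_eg _ _),
      h.cyc.next]
  have hcls0 : cls R0 (P (e i)) = insert (e i) {f i, x i, e (i - 1)} := by
    rw [hR0, Equiv.swap_comm]
    refine r2_in (A := {f i, x i, e (i - 1)}) ?_ ?_ ?_
    · rw [h.clsQ i]
      ext w
      simp only [mem_insert_iff, mem_singleton_iff]
      tauto
    · simp only [mem_insert_iff, mem_singleton_iff, not_or]
      exact ⟨(h.r2_fg _ _).symm, h.r2_gx _ _, (h.r2_eg _ _).symm⟩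
    · rw [h.cyc.next]
      exact h.r2_Pe (r2_ne1 i)
  obtain ⟨hV1, hC1⟩ := parallel_swap hV (h.par i)
  refine ⟨_, hV1, hC.trans hC1, ?_, ?_⟩
  · intro c hc
    rw [r2_out (by rw [hx0]; exact (hc i).symm) (by rw [he0]; exact (hc _).symm), hR0,
      r2_out (by rw [h.cyc.next]; exact (hc _).symm) (by rw [(h.r2_Pg i).2]; exact (hc i).symm),
      h.cls_out c hc]
  · rw [r2_in (A := {e i, f i, e (i - 1)}) (y := x i) (z := e (i + 1)), r2_four,
      r2_range' e i]
    · ext w
      simp only [mem_insert_iff, mem_singleton_iff]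
      tauto
    · rw [hcls0]
      ext w
      simp only [mem_insert_iff, mem_singleton_iff]
      tauto
    · simp only [mem_insert_iff, mem_singleton_iff, not_or]
      exact ⟨(h.r2_ex _ _).symm, (h.r2_fx _ _).symm, (h.r2_ex _ _).symm⟩
    · rw [he0]
      exact h.r2_Pe (r2_ne4 i)

/-- `Q ∘ swap (e i) (g i)` has the class `{f i, e i, x i, e (i-1)}` at colour `P (e i)`; swap the
parallel elements `e i` and `x (i-1)`, and the parallel elements `e (i-1)` and `x (i+1)`. -/
theorem Cfg.blue' (h : Cfg M P Q e f g x) (i : ZMod 3) :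
    ∃ R : E → C, Valid M R ∧ Conn M 2 Q R ∧ (∀ c, (∀ j, c ≠ P (e j)) → cls R c = cls P c) ∧
      cls R (P (e i)) = {x 0, x 1, x 2, f i} := by
  obtain ⟨hV, hC⟩ := h.swG i
  set R0 : E → C := Q ∘ Equiv.swap (e i) (g i) with hR0
  have hx0 : ∀ k, R0 (x k) = P (e k) := by
    intro k
    rw [hR0, Function.comp, Equiv.swap_apply_of_ne_of_ne (h.r2_ex _ _).symm (h.r2_gx _ _).symm]
    exact (h.r2_Px k).2
  have he0 : R0 (e i) = P (e i) := by
    rw [hR0, Function.comp, Equiv.swap_apply_left]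
    exact (h.r2_Pg i).2
  have he1 : R0 (e (i - 1)) = P (e i) := by
    rw [hR0, Function.comp, Equiv.swap_apply_of_ne_of_ne (h.r2_ee (r2_ne2 i)) (h.r2_eg _ _),
      h.cyc.next, sub_add_cancel]
  have hcls0 : cls R0 (P (e i)) = insert (e i) {f i, x i, e (i - 1)} := by
    rw [hR0, Equiv.swap_comm]
    refine r2_in (A := {f i, x i, e (i - 1)}) ?_ ?_ ?_
    · rw [h.clsQ i]
      ext w
      simp only [mem_insert_iff, mem_singleton_iff]
      tauto
    · simp only [mem_insert_iff, mem_singleton_iff, not_or]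
      exact ⟨(h.r2_fg _ _).symm, h.r2_gx _ _, (h.r2_eg _ _).symm⟩
    · rw [h.cyc.next]
      exact h.r2_Pe (r2_ne1 i)
  have hp1 : x (i - 1) ∈ M.closure {e i} := by
    have := h.par (i - 1)
    rwa [sub_add_cancel] at this
  obtain ⟨hV1, hC1⟩ := parallel_swap hV hp1
  set R1 : E → C := R0 ∘ Equiv.swap (x (i - 1)) (e i) with hR1
  have hcls1 : cls R1 (P (e i)) = insert (x (i - 1)) {f i, x i, e (i - 1)} := by
    rw [hR1, Equiv.swap_comm]
    refine r2_in hcls0 ?_ ?_
    · simp only [mem_insert_iff, mem_singleton_iff, not_or]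
      exact ⟨h.r2_ef _ _, h.r2_ex _ _, h.r2_ee (r2_ne2 i).symm⟩
    · rw [hx0]
      exact h.r2_Pe (r2_ne2 i)
  have hp2 : x (i + 1) ∈ M.closure {e (i - 1)} := by
    have := h.par (i + 1)
    rwa [r2_add2] at this
  have hx1 : R1 (x (i + 1)) = P (e (i + 1)) := by
    rw [hR1, Function.comp, Equiv.swap_apply_of_ne_of_ne
      (fun h1 => r2_ne3 i (h.r2_xx h1).symm) (h.r2_ex _ _).symm]
    exact hx0 _
  have he2 : R1 (e (i - 1)) = P (e i) := by
    rw [hR1, Function.comp, Equiv.swap_apply_of_ne_of_ne (h.r2_ex _ _) (h.r2_ee (r2_ne2 i))]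
    exact he1
  obtain ⟨hV2, hC2⟩ := parallel_swap hV1 hp2
  refine ⟨_, hV2, (hC.trans hC1).trans hC2, ?_, ?_⟩
  · intro c hc
    rw [r2_out (by rw [hx1]; exact (hc _).symm) (by rw [he2]; exact (hc _).symm), hR1,
      r2_out (by rw [hx0]; exact (hc _).symm) (by rw [he0]; exact (hc _).symm), hR0,
      r2_out (by rw [h.cyc.next]; exact (hc _).symm) (by rw [(h.r2_Pg i).2]; exact (hc i).symm),
      h.cls_out c hc]
  · rw [Equiv.swap_comm, r2_in (A := {x (i - 1), f i, x i}) (y := e (i - 1)) (z := x (i + 1)),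
      r2_four, r2_range' x i]
    · ext w
      simp only [mem_insert_iff, mem_singleton_iff]
      tauto
    · rw [hcls1]
      ext w
      simp only [mem_insert_iff, mem_singleton_iff]
      tauto
    · simp only [mem_insert_iff, mem_singleton_iff, not_or]
      exact ⟨h.r2_ex _ _, h.r2_ef _ _, h.r2_ex _ _⟩
    · rw [hx1]
      exact h.r2_Pe (r2_ne1 i)

/-- Proof. If it is a base: let `a = P (e i)`, `b`, `b'` the two other colours among `P (e 0..2)`. Let `R`
be `P` except `R = a` on `{e 0, e 1, e 2, g i}`, `R = b` on `{x 0, x 1, x 2, f j}` and `R = b'` on the rest of the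
twelve elements. `R` is valid; by `share` it is connected with the colouring of `Cfg.red` at `i` and with the
colouring of `Cfg.blue'` at `j`, so `P` and `Q` are connected, contradiction. -/
theorem Cfg.not_isBase (h : Cfg M P Q e f g x) (i j : ZMod 3) :
    ¬ M.IsBase ({f 0, f 1, f 2, g 0, g 1, g 2} \ {g i, f j}) := by
  classical
  intro hB
  obtain ⟨Rr, hrV, hrC, hrO, hrc⟩ := h.red i
  obtain ⟨Rb, hbV, hbC, hbO, hbc⟩ := h.blue' j
  set A : Set E := {e 0, e 1, e 2, g i} with hA
  set X : Set E := {x 0, x 1, x 2, f j} with hX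
  set B : Set E := {f 0, f 1, f 2, g 0, g 1, g 2} \ {g i, f j} with hBdef
  have hA' : ∀ y, y ∈ A ↔ (∃ k, e k = y) ∨ y = g i := by
    intro y
    rw [hA, r2_four, mem_insert_iff, mem_range]
    tauto
  have hX' : ∀ y, y ∈ X ↔ (∃ k, x k = y) ∨ y = f j := by
    intro y
    rw [hX, r2_four, mem_insert_iff, mem_range]
    tauto
  have hB' : ∀ y, y ∈ B ↔ ((∃ k, f k = y) ∨ ∃ k, g k = y) ∧ y ≠ g i ∧ y ≠ f j := by
    intro y
    have e1 : ({f 0, f 1, f 2, g 0, g 1, g 2} : Set E) = Set.range f ∪ Set.range g := by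
      rw [← r2_range f, ← r2_range g]
      ext w
      simp only [mem_insert_iff, mem_singleton_iff, mem_union]
      tauto
    rw [hBdef, e1, mem_diff, mem_union, mem_range, mem_range, mem_insert_iff, mem_singleton_iff]
    tauto
  set a := P (e i) with ha
  set b := P (e (i + 1)) with hb
  set b' := P (e (i - 1)) with hb'
  have hab : a ≠ b := h.r2_Pe (r2_ne1 i).symm
  have hab' : a ≠ b' := h.r2_Pe (r2_ne2 i).symm
  have hbb' : b ≠ b' := h.r2_Pe (r2_ne3 i).symm
  -- disjointness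
  have hAX : ∀ y ∈ A, y ∉ X := by
    intro y hy hy'
    rcases (hA' y).1 hy with ⟨k, rfl⟩ | rfl
    · rcases (hX' _).1 hy' with ⟨l, h1⟩ | h1
      · exact h.r2_ex _ _ h1.symm
      · exact h.r2_ef _ _ h1
    · rcases (hX' _).1 hy' with ⟨l, h1⟩ | h1
      · exact h.r2_gx _ _ h1.symm
      · exact h.r2_fg _ _ h1.symm
  have hAB : ∀ y ∈ B, y ∉ A := by
    intro y hy hy'
    obtain ⟨h1, h2, h3⟩ := (hB' y).1 hy
    rcases (hA' y).1 hy' with ⟨k, rfl⟩ | h4
    · rcases h1 with ⟨l, h1⟩ | ⟨l, h1⟩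
      · exact h.r2_ef _ _ h1.symm
      · exact h.r2_eg _ _ h1.symm
    · exact h2 h4
  have hXB : ∀ y ∈ B, y ∉ X := by
    intro y hy hy'
    obtain ⟨h1, h2, h3⟩ := (hB' y).1 hy
    rcases (hX' y).1 hy' with ⟨k, rfl⟩ | h4
    · rcases h1 with ⟨l, h1⟩ | ⟨l, h1⟩
      · exact h.r2_fx _ _ h1
      · exact h.r2_gx _ _ h1
    · exact h3 h4
  -- the twelve elements
  have hcover : ∀ y k, P y = P (e k) → y ∈ A ∨ y ∈ X ∨ y ∈ B := by
    intro y k hy
    have h1 : y ∈ cls P (P (e k)) := hy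
    rw [h.clsP] at h1
    simp only [mem_insert_iff, mem_singleton_iff] at h1
    rcases h1 with rfl | rfl | rfl | rfl
    · by_cases h2 : f k = f j
      · exact Or.inr (Or.inl ((hX' _).2 (Or.inr h2)))
      · exact Or.inr (Or.inr ((hB' _).2 ⟨Or.inl ⟨k, rfl⟩, h.r2_fg _ _, h2⟩))
    · by_cases h2 : g k = g i
      · exact Or.inl ((hA' _).2 (Or.inr h2))
      · exact Or.inr (Or.inr ((hB' _).2 ⟨Or.inr ⟨k, rfl⟩, h2, (h.r2_fg _ _).symm⟩))
    · exact Or.inr (Or.inl ((hX' _).2 (Or.inl ⟨k, rfl⟩)))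
    · exact Or.inl ((hA' _).2 (Or.inl ⟨k, rfl⟩))
  have hPmem : ∀ y, (y ∈ A ∨ y ∈ X ∨ y ∈ B) → ∃ k, P y = P (e k) := by
    rintro y (hy | hy | hy)
    · rcases (hA' y).1 hy with ⟨k, rfl⟩ | rfl
      · exact ⟨k, rfl⟩
      · exact ⟨i, (h.r2_Pg i).1⟩
    · rcases (hX' y).1 hy with ⟨k, rfl⟩ | rfl
      · exact ⟨k, (h.r2_Px k).1⟩
      · exact ⟨j, (h.r2_Pf j).1⟩
    · rcases ((hB' y).1 hy).1 with ⟨k, rfl⟩ | ⟨k, rfl⟩
      · exact ⟨k, (h.r2_Pf k).1⟩
      · exact ⟨k, (h.r2_Pg k).1⟩
  let R : E → C := fun y => if y ∈ A then a else if y ∈ X then b else if y ∈ B then b' else P y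
  have hRa : cls R a = A := by
    ext y
    change R y = a ↔ y ∈ A
    constructor
    · intro hy
      by_contra hyA
      by_cases hyX : y ∈ X
      · simp only [R, if_neg hyA, if_pos hyX] at hy
        exact hab hy.symm
      · by_cases hyB : y ∈ B
        · simp only [R, if_neg hyA, if_neg hyX, if_pos hyB] at hy
          exact hab' hy.symm
        · simp only [R, if_neg hyA, if_neg hyX, if_neg hyB] at hy
          rcases hcover y i hy with h1 | h1 | h1
          · exact hyA h1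
          · exact hyX h1
          · exact hyB h1
    · intro hy
      simp only [R, if_pos hy]
  have hRb : cls R b = X := by
    ext y
    change R y = b ↔ y ∈ X
    constructor
    · intro hy
      by_contra hyX
      by_cases hyA : y ∈ A
      · simp only [R, if_pos hyA] at hy
        exact hab hy
      · by_cases hyB : y ∈ B
        · simp only [R, if_neg hyA, if_neg hyX, if_pos hyB] at hy
          exact hbb' hy.symm
        · simp only [R, if_neg hyA, if_neg hyX, if_neg hyB] at hy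
          rcases hcover y (i + 1) hy with h1 | h1 | h1
          · exact hyA h1
          · exact hyX h1
          · exact hyB h1
    · intro hy
      have hyA : y ∉ A := fun h1 => hAX y h1 hy
      simp only [R, if_neg hyA, if_pos hy]
  have hRb' : cls R b' = B := by
    ext y
    change R y = b' ↔ y ∈ B
    constructor
    · intro hy
      by_contra hyB
      by_cases hyA : y ∈ A
      · simp only [R, if_pos hyA] at hy
        exact hab' hy
      · by_cases hyX : y ∈ X
        · simp only [R, if_neg hyA, if_pos hyX] at hy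
          exact hbb' hy
        · simp only [R, if_neg hyA, if_neg hyX, if_neg hyB] at hy
          rcases hcover y (i - 1) hy with h1 | h1 | h1
          · exact hyA h1
          · exact hyX h1
          · exact hyB h1
    · intro hy
      simp only [R, if_neg (hAB y hy), if_neg (hXB y hy), if_pos hy]
  have hRO : ∀ c, (∀ k, c ≠ P (e k)) → cls R c = cls P c := by
    intro c hc
    ext y
    change R y = c ↔ P y = c
    by_cases hyT : y ∈ A ∨ y ∈ X ∨ y ∈ B
    · obtain ⟨k, hk⟩ := hPmem y hyT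
      have h1 : P y ≠ c := by rw [hk]; exact (hc k).symm
      have h2 : R y ≠ c := by
        simp only [R]
        split_ifs
        · exact (hc i).symm
        · exact (hc (i + 1)).symm
        · exact (hc (i - 1)).symm
        · exact h1
      exact ⟨fun h3 => absurd h3 h2, fun h3 => absurd h3 h1⟩
    · have hyA : y ∉ A := fun h1 => hyT (Or.inl h1)
      have hyX : y ∉ X := fun h1 => hyT (Or.inr (Or.inl h1))
      have hyB : y ∉ B := fun h1 => hyT (Or.inr (Or.inr h1))
      simp only [R, if_neg hyA, if_neg hyX, if_neg hyB]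
  have hcol : ∀ c : C, (∃ k, c = P (e k)) ↔ c = a ∨ c = b ∨ c = b' := by
    intro c
    constructor
    · rintro ⟨k, rfl⟩
      have : ∀ i k : ZMod 3, k = i ∨ k = i + 1 ∨ k = i - 1 := by decide
      rcases this i k with h1 | h1 | h1
      · left; rw [ha, h1]
      · right; left; rw [hb, h1]
      · right; right; rw [hb', h1]
    · rintro (h1 | h1 | h1)
      · exact ⟨_, h1⟩
      · exact ⟨_, h1⟩
      · exact ⟨_, h1⟩
  have hRV : Valid M R := by
    intro c
    by_cases hc : ∃ k, c = P (e k)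
    · rcases (hcol c).1 hc with rfl | rfl | rfl
      · rw [hRa, ← hrc]
        exact hrV _
      · rw [hRb, ← hbc]
        exact hbV _
      · rw [hRb']
        exact hB
    · rw [hRO c (fun k hk => hc ⟨k, hk⟩)]
      exact h.hP c
  let S : Finset C := {a, b, b'}
  have hScard : S.card ≤ 3 := Finset.card_le_three
  have hSmem : ∀ k, P (e k) ∈ S := by
    intro k
    have := (hcol (P (e k))).1 ⟨k, rfl⟩
    simp only [S, Finset.mem_insert, Finset.mem_singleton]
    exact this
  have hSout : ∀ c ∉ S, ∀ k, c ≠ P (e k) := by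
    intro c hc k hk
    exact hc (hk ▸ hSmem k)
  have c1 : Conn M 2 R Rr := share hRV hrV S hScard
    (fun c hc => by rw [hRO c (hSout c hc), hrO c (hSout c hc)]) (hSmem i) (hSmem i)
    (by rw [← ha, hRa]; exact hrc.symm)
  have c2 : Conn M 2 R Rb := share hRV hbV S hScard
    (fun c hc => by rw [hRO c (hSout c hc), hbO c (hSout c hc)]) (hSmem (i + 1)) (hSmem j)
    (by rw [← hb, hRb]; exact hbc.symm)
  exact h.nconn (((hrC.trans (r2_conn_symm c1)).trans c2).trans (r2_conn_symm hbC))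

end Pool.Agent.MP_d4f4ab_ag
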