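import Pool.Agent.MP_d4f4ab_ag.Defs

/-! [WH-R3] a lemma on matroids of rank four. -/

open Set

namespace Pool.Agent.MP_d4f4ab_ag

theorem r3_mem_of_dep {E : Type*} (M : Matroid E) {S T : Set E} {y : E} (hS : ¬ M.Indep S)
    (hT : M.Indep T) (hy : y ∈ M.E) (hsub : S ⊆ insert y T) : y ∈ M.closure T := by
  by_contra h
  rw [hT.notMem_closure_iff hy] at h
  exact hS (h.1.subset hsub)

theorem r3_key {E : Type*} (M : Matroid E) {a b c d y : E}
    (hy : y ∈ M.closure (insert c {a, b})) (hy' : y ∈ M.closure (insert d {a, b}))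
    (hd : d ∉ M.closure (insert c {a, b})) (hc : insert c {a, b} ⊆ M.E) :
    y ∈ M.closure {a, b} := by
  by_contra h
  have h1 : d ∈ M.closure (insert y {a, b}) := M.mem_closure_insert h hy'
  apply hd
  have h2 : insert y {a, b} ⊆ M.closure (insert c {a, b}) := by
    intro z hz
    rcases hz with rfl | hz
    · exact hy
    · exact M.subset_closure _ hc (Or.inr hz)
  exact M.closure_subset_closure_of_subset_closure h2 h1

/-- Proof. Indices mod 3, `D i = {f i, g i}`, `H i = cl {f i, g i, x i}`. The hypothesis `dep` says: for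
distinct `k, l`, `D k ∪ D l` is dependent (take `i = j` the third index), and for the third index `k` of
`i ≠ j`, `D k ∪ {f i, g j}` is dependent. All sets here have four elements.
`insert (f 1) (D 0)` is independent by `f1` and `hX`; hence `g 1` and `g 2` are in
`π := cl (insert (f 1) (D 0))` (`D 0 ∪ D 1` and `D 0 ∪ {f 1, g 2}` are dependent).
`insert (g 2) (D 0)` is independent by `g1`; its closure is `π` as well (it is contained in `π`, both have rank
three), and `D 0 ∪ D 2` is dependent, so `f 2 ∈ π`. So all six elements are in `π`, which has rank three.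
For every `i`, `f (i+1) ∉ H i`, so `H i ∩ π` has rank at most two and so equals `cl (D i)`; by `g2` and `f2`,
`g (i+1) ∈ cl (D i)` and `f (i-1) ∈ cl (D i)`. So `f 0` and `g 1` are both in `cl (D 0) ∩ cl (D 1)`, which has
rank at most one since `f 1 ∉ cl (D 0)`. (`f 0`, `g 1` are nonloops.) -/
theorem geo {E : Type*} (M : Matroid E) (f g x : ZMod 3 → E)
    (hX : ∀ i, M.Indep {f i, g i, x i})
    (fg : ∀ i, f i ≠ g i) (fx : ∀ i, f i ≠ x i) (gx : ∀ i, g i ≠ x i)
    (hfinj : Function.Injective f) (hginj : Function.Injective g) (hfg : ∀ i j, f i ≠ g j)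
    (f1 : ∀ i, f i ∉ M.closure {f (i - 1), g (i - 1), x (i - 1)})
    (f2 : ∀ i, f i ∈ M.closure {f (i + 1), g (i + 1), x (i + 1)})
    (g1 : ∀ i, g i ∉ M.closure {f (i + 1), g (i + 1), x (i + 1)})
    (g2 : ∀ i, g i ∈ M.closure {f (i - 1), g (i - 1), x (i - 1)})
    (dep : ∀ i j, ¬ M.Indep ({f 0, f 1, f 2, g 0, g 1, g 2} \ {g i, f j})) :
    f 0 ∈ M.closure {g 1} := by
  have hfE : ∀ i, f i ∈ M.E := fun i => (hX i).subset_ground (by simp)
  have hgE : ∀ i, g i ∈ M.E := fun i => (hX i).subset_ground (by simp)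
  have hperm : ∀ i, ({f i, g i, x i} : Set E) = insert (x i) {f i, g i} := by
    intro i
    ext z
    simp only [mem_insert_iff, mem_singleton_iff]
    tauto
  have hXE : ∀ i, insert (x i) {f i, g i} ⊆ M.E := fun i => by
    rw [← hperm i]; exact (hX i).subset_ground
  have hmono : ∀ i, M.closure {f i, g i} ⊆ M.closure {f i, g i, x i} := fun i =>
    M.closure_subset_closure (by
      intro z hz
      simp only [mem_insert_iff, mem_singleton_iff] at hz ⊢
      tauto)
  have hD : ∀ i, M.Indep {f i, g i} := fun i => (hX i).subset (by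
      intro z hz
      simp only [mem_insert_iff, mem_singleton_iff] at hz ⊢
      tauto)
  -- `g 1 ∈ cl (D 0)`
  have e10 : (1 : ZMod 3) - 1 = 0 := by decide
  have e21 : (2 : ZMod 3) - 1 = 1 := by decide
  have e01 : (0 : ZMod 3) + 1 = 1 := by decide
  have hf1 : f 1 ∉ M.closure {f 0, g 0, x 0} := by
    have := f1 1
    rwa [e10] at this
  have hf21 : f 2 ∉ M.closure {f 1, g 1, x 1} := by
    have := f1 2
    rwa [e21] at this
  have hg1m : g 1 ∈ M.closure {f 0, g 0, x 0} := by
    have := g2 1
    rwa [e10] at this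
  have hf0m : f 0 ∈ M.closure {f 1, g 1, x 1} := by
    have := f2 0
    rwa [e01] at this
  have hg0n : g 0 ∉ M.closure {f 1, g 1, x 1} := by
    have := g1 0
    rwa [e01] at this
  have hf1D : f 1 ∉ M.closure {f 0, g 0} := fun h => hf1 (hmono 0 h)
  have hf2D : f 2 ∉ M.closure {f 1, g 1} := fun h => hf21 (hmono 1 h)
  have hg0D : g 0 ∉ M.closure {f 1, g 1} := fun h => hg0n (hmono 1 h)
  have hT0 : M.Indep (insert (f 1) {f 0, g 0}) :=
    (((hD 0).notMem_closure_iff (hfE 1)).1 hf1D).1
  have hT1 : M.Indep (insert (f 2) {f 1, g 1}) :=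
    (((hD 1).notMem_closure_iff (hfE 2)).1 hf2D).1
  have hT1' : M.Indep (insert (g 0) {f 1, g 1}) :=
    (((hD 1).notMem_closure_iff (hgE 0)).1 hg0D).1
  have hg1D : g 1 ∈ M.closure {f 0, g 0} := by
    have h1 : g 1 ∈ M.closure (insert (f 1) {f 0, g 0}) := by
      refine r3_mem_of_dep M (dep 2 2) hT0 (hgE 1) ?_
      intro z hz
      simp only [mem_diff, mem_insert_iff, mem_singleton_iff] at hz ⊢
      tauto
    rw [hperm 0] at hg1m hf1
    exact r3_key M hg1m h1 hf1 (hXE 0)
  have hf0D : f 0 ∈ M.closure {f 1, g 1} := by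
    have h0 : g 0 ∈ M.closure (insert (f 2) {f 1, g 1}) := by
      refine r3_mem_of_dep M (dep 2 0) hT1 (hgE 0) ?_
      intro z hz
      simp only [mem_diff, mem_insert_iff, mem_singleton_iff] at hz ⊢
      tauto
    have h1 : f 0 ∈ M.closure (insert (g 0) {f 1, g 1}) := by
      refine r3_mem_of_dep M (dep 2 2) hT1' (hfE 0) ?_
      intro z hz
      simp only [mem_diff, mem_insert_iff, mem_singleton_iff] at hz ⊢
      tauto
    have h2 : f 0 ∈ M.closure (insert (f 2) {f 1, g 1}) := by
      refine M.closure_subset_closure_of_subset_closure ?_ h1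
      intro z hz
      rcases hz with rfl | hz
      · exact h0
      · exact M.subset_closure _ hT1.subset_ground (Or.inr hz)
    rw [hperm 1] at hf0m hf21
    exact r3_key M hf0m h2 hf21 (hXE 1)
  by_contra h
  have h3 : f 1 ∈ M.closure (insert (f 0) {g 1}) := M.mem_closure_insert h hf0D
  apply hf1D
  refine M.closure_subset_closure_of_subset_closure ?_ h3
  intro z hz
  rcases hz with rfl | hz
  · exact M.subset_closure _ (hD 0).subset_ground (by simp)
  · rw [mem_singleton_iff] at hz
    rw [hz]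
    exact hg1D

end Pool.Agent.MP_d4f4ab_ag
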