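import Pool.Agent.MP_d4f4ab_ag.Defs
import Pool.Agent.MP_d4f4ab_ag.R2
import Pool.Agent.MP_d4f4ab_ag.R3

/-! [WH-R4] the second main theorem on colourings (rank four). -/

open Set

namespace Pool.Agent.MP_d4f4ab_ag

namespace R4_aux

theorem zmod3 {p : ZMod 3 → Prop} : (∀ i, p i) ↔ p 0 ∧ p 1 ∧ p 2 := by
  constructor
  · intro h; exact ⟨h 0, h 1, h 2⟩
  · rintro ⟨h0, h1, h2⟩ i
    fin_cases i
    · exact h0
    · exact h1
    · exact h2

theorem six_eq {E : Type*} (f g : ZMod 3 → E) :
    ({f 0, f 1, f 2, g 0, g 1, g 2} : Set E) = Set.range f ∪ Set.range g := by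
  ext y
  simp only [mem_insert_iff, mem_singleton_iff, mem_union, mem_range]
  constructor
  · rintro (h | h | h | h | h | h)
    · exact Or.inl ⟨0, h.symm⟩
    · exact Or.inl ⟨1, h.symm⟩
    · exact Or.inl ⟨2, h.symm⟩
    · exact Or.inr ⟨0, h.symm⟩
    · exact Or.inr ⟨1, h.symm⟩
    · exact Or.inr ⟨2, h.symm⟩
  · rintro (⟨i, rfl⟩ | ⟨i, rfl⟩)
    · revert i; rw [zmod3]; simp
    · revert i; rw [zmod3]; simp

theorem ncard_four {E : Type*} (f g : ZMod 3 → E) (hf : Function.Injective f)
    (hg : Function.Injective g) (hfg : ∀ i j, f i ≠ g j) (i j : ZMod 3) :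
    (({f 0, f 1, f 2, g 0, g 1, g 2} : Set E) \ {g i, f j}).ncard = 4 := by
  have hr : ∀ h : ZMod 3 → E, Function.Injective h → (Set.range h).ncard = 3 := by
    intro h hh
    rw [← Set.image_univ, Set.ncard_image_of_injective _ hh, Set.ncard_univ, Nat.card_eq_fintype_card,
      ZMod.card]
  rw [six_eq]
  have h6 : (Set.range f ∪ Set.range g).ncard = 6 := by
    rw [Set.ncard_union_eq, hr f hf, hr g hg]
    · rw [Set.disjoint_left]
      rintro _ ⟨a, rfl⟩ ⟨b, hb⟩
      exact hfg a b hb.symm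
  rw [Set.ncard_sdiff, h6, Set.ncard_pair (hfg j i).symm]
  · rintro y (rfl | rfl)
    · exact Or.inr ⟨i, rfl⟩
    · exact Or.inl ⟨j, rfl⟩

end R4_aux

open R4_aux

/-- Proof. `geo` (with `Cfg.not_isBase`; an independent set with four elements is a base) gives
`f 0 ∈ cl {g 1}`. Let `A` be the colouring of `Cfg.red` at `1` and `Z` the one of `Cfg.blue` at `0`. By
`parallel_swap` `Z ∘ swap (f 0) (g 1)` is connected with `Z`, and its class at `P (e 0)` is
`{e 0, e 1, e 2, g 1}`, which is the class of `A` at `P (e 1)`. By `share`, `P` and `Q` are connected. -/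
theorem Cfg.false {E C : Type*} [Fintype E] [DecidableEq E] {M : Matroid E}
    (hr : ∀ B, M.IsBase B → B.ncard = 4) {P Q : E → C} {e f g x : ZMod 3 → E}
    (h : Cfg M P Q e f g x) : False := by
  classical
  -- colours
  have hmem : ∀ i, f i ∈ com P Q (P (e i)) ∧ g i ∈ com P Q (P (e i)) ∧
      x i ∈ com P Q (P (e i)) := by
    intro i
    rw [h.com_eq i]
    simp
  have hPf : ∀ i, P (f i) = P (e i) := fun i => (hmem i).1.1
  have hQf : ∀ i, Q (f i) = P (e i) := fun i => (hmem i).1.2
  have hPg : ∀ i, P (g i) = P (e i) := fun i => (hmem i).2.1.1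
  have hQg : ∀ i, Q (g i) = P (e i) := fun i => (hmem i).2.1.2
  have hPe : ∀ i, P (e i) ≠ Q (e i) := fun i => (h.cyc.range (e i)).2 ⟨i, rfl⟩
  have hfinj : Function.Injective f := by
    intro i j hij
    apply h.colinj
    show P (e i) = P (e j)
    rw [← hPf i, ← hPf j, hij]
  have hginj : Function.Injective g := by
    intro i j hij
    apply h.colinj
    show P (e i) = P (e j)
    rw [← hPg i, ← hPg j, hij]
  have hfg : ∀ i j, f i ≠ g j := by
    intro i j hij
    have h1 : i = j := by
      apply h.colinj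
      show P (e i) = P (e j)
      rw [← hPf i, ← hPg j, hij]
    subst h1
    exact h.fg i hij
  have hef : ∀ i j, e i ≠ f j := by
    intro i j hij
    apply hPe i
    rw [hij, hPf, hQf]
  have heg : ∀ i j, e i ≠ g j := by
    intro i j hij
    apply hPe i
    rw [hij, hPg, hQg]
  have hX : ∀ i, M.Indep {f i, g i, x i} := by
    intro i
    rw [← h.com_eq i]
    exact (h.hP (P (e i))).indep.subset inter_subset_left
  have hdep : ∀ i j, ¬ M.Indep ({f 0, f 1, f 2, g 0, g 1, g 2} \ {g i, f j}) := by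
    intro i j hI
    obtain ⟨B, hB, hIB⟩ := hI.exists_isBase_superset
    have h1 := ncard_four f g hfinj hginj hfg i j
    have h2 := hr B hB
    have h3 : ({f 0, f 1, f 2, g 0, g 1, g 2} \ {g i, f j} : Set E) = B :=
      Set.eq_of_subset_of_ncard_le hIB (by rw [h1, h2]) (Set.toFinite _)
    apply h.not_isBase i j
    rw [h3]
    exact hB
  have hpar := geo M f g x hX h.fg h.fx h.gx hfinj hginj hfg h.f1 h.f2 h.g1 h.g2 hdep
  obtain ⟨A, hA1, hA2, hA3, hA4⟩ := h.red 1
  obtain ⟨Z, hZ1, hZ2, hZ3, hZ4⟩ := h.blue 0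
  obtain ⟨hW1, hW2⟩ := parallel_swap hZ1 hpar
  have hcl : ∀ c, cls (Z ∘ Equiv.swap (f 0) (g 1)) c = {y | Equiv.swap (f 0) (g 1) y ∈ cls Z c} :=
    fun c => rfl
  have hab : cls A (P (e 1)) = cls (Z ∘ Equiv.swap (f 0) (g 1)) (P (e 0)) := by
    rw [hA4, hcl, hZ4]
    ext y
    simp only [mem_insert_iff, mem_singleton_iff, mem_ofPred_eq]
    by_cases h1 : y = f 0
    · subst h1
      rw [Equiv.swap_apply_left]
      constructor
      · rintro (h2 | h2 | h2 | h2)
        · exact absurd h2.symm (hef _ _)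
        · exact absurd h2.symm (hef _ _)
        · exact absurd h2.symm (hef _ _)
        · exact absurd h2 (hfg _ _)
      · rintro (h2 | h2 | h2 | h2)
        · exact absurd h2.symm (heg _ _)
        · exact absurd h2.symm (heg _ _)
        · exact absurd h2.symm (heg _ _)
        · exact absurd h2.symm (hfg _ _)
    · by_cases h2 : y = g 1
      · subst h2
        rw [Equiv.swap_apply_right]
        simp
      · rw [Equiv.swap_apply_of_ne_of_ne h1 h2]
        simp [h1, h2]
  have hout : ∀ c ∉ ({P (e 0), P (e 1), P (e 2)} : Finset C),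
      cls A c = cls (Z ∘ Equiv.swap (f 0) (g 1)) c := by
    intro c hc
    have hc' : ∀ j, c ≠ P (e j) := by
      rw [zmod3]
      simpa using hc
    rw [hA3 c hc', hcl, hZ3 c hc']
    ext y
    simp only [mem_ofPred_eq]
    by_cases h1 : y = f 0
    · subst h1
      rw [Equiv.swap_apply_left]
      constructor
      · intro h2
        exact absurd (h2 : P (f 0) = c).symm (by rw [hPf]; exact hc' 0)
      · intro h2
        exact absurd (h2 : P (g 1) = c).symm (by rw [hPg]; exact hc' 1)
    · by_cases h2 : y = g 1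
      · subst h2
        rw [Equiv.swap_apply_right]
        constructor
        · intro h2
          exact absurd (h2 : P (g 1) = c).symm (by rw [hPg]; exact hc' 1)
        · intro h2
          exact absurd (h2 : P (f 0) = c).symm (by rw [hPf]; exact hc' 0)
      · rw [Equiv.swap_apply_of_ne_of_ne h1 h2]
  have hcard : ({P (e 0), P (e 1), P (e 2)} : Finset C).card ≤ 3 := Finset.card_le_three
  have hsh := share hA1 hW1 {P (e 0), P (e 1), P (e 2)} hcard hout
    (a := P (e 1)) (b := P (e 0)) (by simp) (by simp) hab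
  exact h.nconn (((hA2.trans hsh).trans hW2.symm).trans hZ2.symm)

/-- Main theorem on colourings, II. For rank at most three this is `core1` with `t = 2`. For rank four:
otherwise there is a minimal pair; `exists_cfg`, `Cfg.false`. -/
theorem core2 {E C : Type*} [Fintype E] (M : Matroid E) (hE : M.E = univ)
    (hr : ∀ B, M.IsBase B → B.ncard ≤ 4) (P Q : E → C)
    (hP : Valid M P) (hQ : Valid M Q) : Conn M 2 P Q := by
  classical
  obtain ⟨B0, hB0⟩ := M.exists_isBase
  by_cases h3 : B0.ncard ≤ 3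
  · exact core1 M hE le_rfl
      (fun B hB => by rw [hB.ncard_eq_ncard_of_isBase hB0]; exact h3) P Q hP hQ
  · have h4 : ∀ B, M.IsBase B → B.ncard = 4 := by
      intro B hB
      have h5 := hr B0 hB0
      rw [hB.ncard_eq_ncard_of_isBase hB0]
      omega
    by_contra hcon
    -- a minimal pair
    have hex : ∃ n, ∃ P' Q' : E → C, Valid M P' ∧ Valid M Q' ∧ ¬ Conn M 2 P' Q' ∧
        hammingDist P' Q' = n := ⟨_, P, Q, hP, hQ, hcon, rfl⟩
    obtain ⟨P', Q', h1, h2, h5, h6⟩ := Nat.find_spec hex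
    have hmin : MinPair M 2 P' Q' := by
      refine ⟨h1, h2, h5, ?_⟩
      intro P'' Q'' h1' h2' h5'
      rw [h6]
      exact Nat.find_min' hex ⟨P'', Q'', h1', h2', h5', rfl⟩
    obtain ⟨e, f, g, x, hc⟩ := exists_cfg hE h4 hmin
    exact hc.false h4

end Pool.Agent.MP_d4f4ab_ag
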